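import Pool.Agent.H69.BD.Dyn

/-!
# THEOREM V (MP_187c26_nt), chapter S7: the exponent is rational

Text: `Φ(ε exp u, κ exp(β u)) = ∑ Φ_{jk} ε^j κ^k exp((j + k β) u) = 0` with `Φ ≠ 0`; if `β` were not
rational, the exponents `j + k β` would be different, so all coefficients `0`. So `n β = r`, `n ≥ 1`, `r` an
integer. If `κ ^ t = 1` and `ε ^ N = 1` then `A ^ (n t N) exp(..) = ..`, that is
`A ^ n' * psi ε X ^ s = psi ε X ^ r` with `n' ≥ 1`.
-/

set_option autoImplicit false

open Polynomial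

namespace Pool.Agent.H69.BD

theorem exp_indep_fam {ι : Type} (s : Finset ι) (c lam : ι → ℂ)
    (hinj : ∀ i ∈ s, ∀ j ∈ s, lam i = lam j → i = j)
    (h : ∑ i ∈ s, PowerSeries.C (c i) * ex (lam i) = 0) : ∀ i ∈ s, c i = 0 := by
  classical
  have hn : ∀ n : ℕ, ∑ i ∈ s, c i * lam i ^ n = 0 := by
    intro n
    have h1 := congrArg (PowerSeries.coeff n) h
    rw [map_sum, map_zero] at h1
    have h2 : ∀ i ∈ s, PowerSeries.coeff n (PowerSeries.C (c i) * ex (lam i)) =
        (c i * lam i ^ n) * ((n.factorial : ℂ))⁻¹ := by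
      intro i _
      rw [PowerSeries.coeff_C_mul, ex_coeff]
      ring
    rw [Finset.sum_congr rfl h2, ← Finset.sum_mul] at h1
    rcases mul_eq_zero.1 h1 with h3 | h3
    · exact h3
    · exact absurd h3 (inv_ne_zero (Nat.cast_ne_zero.2 n.factorial_ne_zero))
  have hP : ∀ P : ℂ[X], ∑ i ∈ s, c i * P.eval (lam i) = 0 := by
    intro P
    have h1 : ∀ i ∈ s, c i * P.eval (lam i) =
        ∑ n ∈ Finset.range (P.natDegree + 1), P.coeff n * (c i * lam i ^ n) := by
      intro i _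
      rw [eval_eq_sum_range, Finset.mul_sum]
      exact Finset.sum_congr rfl fun n _ => by ring
    rw [Finset.sum_congr rfl h1, Finset.sum_comm]
    refine Finset.sum_eq_zero fun n _ => ?_
    rw [← Finset.mul_sum, hn, mul_zero]
  intro i hi
  have h1 := hP (∏ μ ∈ s.erase i, (X - C (lam μ)))
  rw [Finset.sum_eq_single i] at h1
  · rcases mul_eq_zero.1 h1 with h2 | h2
    · exact h2
    · rw [eval_prod, Finset.prod_eq_zero_iff] at h2
      obtain ⟨μ, hμ, h3⟩ := h2
      rw [eval_sub, eval_X, eval_C, sub_eq_zero] at h3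
      exact absurd (hinj i hi μ (Finset.mem_of_mem_erase hμ) h3).symm (Finset.ne_of_mem_erase hμ)
  · intro μ hμ hne
    rw [eval_prod, Finset.prod_eq_zero (Finset.mem_erase.2 ⟨hne, hμ⟩), mul_zero]
    rw [eval_sub, eval_X, eval_C, sub_self]
  · intro h2
    exact absurd hi h2

theorem rat (Φ : ℂ[X][X]) (hΦ : Φ ≠ 0) (ε κ β : ℂ) (hε : ε ≠ 0) (hκ : κ ≠ 0)
    (h : eval₂ (psi ε) (PowerSeries.C κ * ex β) Φ = 0) :
    ∃ (n : ℕ) (r : ℤ), 1 ≤ n ∧ (n : ℂ) * β = r := by
  classical
  by_contra hno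
  push Not at hno
  obtain ⟨D, hD⟩ : ∃ D : ℕ, ∀ k ∈ Finset.range (Φ.natDegree + 1), (Φ.coeff k).natDegree < D := by
    refine ⟨(Finset.range (Φ.natDegree + 1)).sup (fun k => (Φ.coeff k).natDegree) + 1, ?_⟩
    intro k hk
    have := Finset.le_sup (f := fun k => (Φ.coeff k).natDegree) hk
    exact Nat.lt_succ_of_le this
  set s : Finset (ℕ × ℕ) := Finset.range (Φ.natDegree + 1) ×ˢ Finset.range D with hs
  have hsum : ∑ p ∈ s, PowerSeries.C ((Φ.coeff p.1).coeff p.2 * ε ^ p.2 * κ ^ p.1) *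
      ex ((p.2 : ℂ) + p.1 * β) = 0 := by
    rw [← h, eval₂_eq_sum_range, hs, Finset.sum_product]
    refine Finset.sum_congr rfl fun k hk => ?_
    have h1 : psi ε (Φ.coeff k) = ∑ j ∈ Finset.range D,
        PowerSeries.C ((Φ.coeff k).coeff j * ε ^ j) * ex j := by
      rw [psi_apply]
      refine Finset.sum_subset (Finset.range_subset_range.2 (hD k hk)) ?_
      intro j _ hj
      rw [Finset.mem_range, not_lt] at hj
      rw [coeff_eq_zero_of_natDegree_lt (by omega), zero_mul, map_zero, zero_mul]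
    rw [h1, mul_pow, ex_pow, ← map_pow, Finset.sum_mul]
    refine Finset.sum_congr rfl fun j _ => ?_
    rw [← ex_mul]
    rw [map_mul (PowerSeries.C (R := ℂ)) ((Φ.coeff k).coeff j * ε ^ j)]
    ring
  have hz := exp_indep_fam s _ _ ?_ hsum
  · apply hΦ
    ext k j
    rw [coeff_zero, coeff_zero]
    by_contra hne
    have hk : Φ.coeff k ≠ 0 := fun h0 => hne (by rw [h0, coeff_zero])
    have hk1 : k ∈ Finset.range (Φ.natDegree + 1) := by
      rw [Finset.mem_range]
      have := le_natDegree_of_ne_zero hk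
      omega
    have hj1 : j ∈ Finset.range D := by
      rw [Finset.mem_range]
      have := le_natDegree_of_ne_zero hne
      have := hD k hk1
      omega
    have h1 := hz (k, j) (Finset.mem_product.2 ⟨hk1, hj1⟩)
    exact mul_ne_zero (mul_ne_zero hne (pow_ne_zero _ hε)) (pow_ne_zero _ hκ) h1
  · rintro ⟨k, j⟩ _ ⟨k', j'⟩ _ heq
    simp only at heq
    rcases lt_trichotomy k k' with hk | hk | hk
    · exfalso
      apply hno (k' - k) ((j : ℤ) - j') (by omega)
      rw [Nat.cast_sub hk.le]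
      push_cast
      linear_combination -heq
    · subst hk
      have h1 : (j : ℂ) = j' := by linear_combination heq
      rw [Nat.cast_injective h1]
    · exfalso
      apply hno (k - k') ((j' : ℤ) - j) (by omega)
      rw [Nat.cast_sub hk.le]
      push_cast
      linear_combination heq

theorem branch_mono (Φ : ℂ[X][X]) (hΦ : Φ ≠ 0) (ε κ β : ℂ) (N t : ℕ) (hN : 1 ≤ N) (ht : 1 ≤ t)
    (hε : ε ^ N = 1) (hκ : κ ^ t = 1)
    (h : eval₂ (psi ε) (PowerSeries.C κ * ex β) Φ = 0) :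
    ∃ n r s : ℕ, 1 ≤ n ∧ (PowerSeries.C κ * ex β) ^ n * psi ε (X ^ s) = psi ε (X ^ r) := by
  have hε0 : ε ≠ 0 := by
    rintro rfl
    rw [zero_pow (by omega)] at hε
    exact zero_ne_one hε
  have hκ0 : κ ≠ 0 := by
    rintro rfl
    rw [zero_pow (by omega)] at hκ
    exact zero_ne_one hκ
  obtain ⟨n, r, hn, hr⟩ := rat Φ hΦ ε κ β hε0 hκ0 h
  have hX : ∀ c : ℕ, psi ε (X ^ (N * c)) = ex ((N * c : ℕ) : ℂ) := by
    intro c
    rw [map_pow, psi_X, mul_pow, ex_pow, mul_one, pow_mul, ← map_pow, hε, map_one, one_pow, one_mul]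
  refine ⟨n * t * N, N * (t * r.toNat), N * (t * (-r).toNat), ?_, ?_⟩
  · exact Nat.mul_pos (Nat.mul_pos hn ht) hN
  · rw [hX, hX, mul_pow, ex_pow, ← map_pow]
    have h1 : κ ^ (n * t * N) = 1 := by
      rw [show n * t * N = t * (n * N) by ring, pow_mul, hκ, one_pow]
    rw [h1, map_one, one_mul, ex_mul]
    congr 1
    have h2 : (r : ℂ) = (r.toNat : ℂ) - ((-r).toNat : ℂ) := by
      have h3 := Int.toNat_sub_toNat_neg r
      exact_mod_cast congrArg (fun z : ℤ => (z : ℂ)) h3.symm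
    push_cast
    have h4 : (n : ℂ) * β = (r.toNat : ℂ) - ((-r).toNat : ℂ) := by rw [hr, h2]
    linear_combination (t : ℂ) * N * h4

end Pool.Agent.H69.BD
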