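import Pool.Agent.H69.BD.Pdiv
import Pool.Agent.H69.BD.Rat

/-!
# THEOREM V (MP_187c26_nt), chapter S7: monomials

Text: `Φ(X,Z)` over a subfield `k` of `ℂ`, degree `≤ d` in `Z`, coefficients of degree `≤ l` in `X`; `y` is
not a zero of any nonzero polynomial of degree `≤ Q (d + 1) l` over `k`; `Φ(y,Z)` has degree `d` and `d` different
nonzero roots `α i`, and `Φ(y^Q, (α i)^Q) = 0`. Then `(α i)^n y^s = y^r` for some `n ≥ 1`, `r`, `s`.
Proof: by `transfer`, `Φ` divides a power of its leading coefficient times `Φ(X^Q,Z^Q)`. Almost all points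
are good (resultant of `Φ` and its derivative), so there is a prime `N`, prime to `Q`, such that all nontrivial
`N`-th roots of unity are good. By `dyn` and `branch_mono` all branches `A` at `ε` satisfy
`A ^ n * psi ε X ^ s = psi ε X ^ r`. `G := ∏_A (X^s Z^n - X^r)` vanishes at all branches, so by `transfer`
(`psi ε` is injective) `Φ` divides a power of the leading coefficient times `G`. Evaluate at `(y, α i)`.
-/

set_option autoImplicit false

open Polynomial

namespace Pool.Agent.H69.BD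

theorem exists_bound {k : Type} [Field k] (S : k[X][X]) : ∃ s : ℕ, ∀ n, (S.coeff n).natDegree ≤ s := by
  refine ⟨(Finset.range (S.natDegree + 1)).sup (fun n => (S.coeff n).natDegree), fun n => ?_⟩
  by_cases hn : n ∈ Finset.range (S.natDegree + 1)
  · exact Finset.le_sup (f := fun n => (S.coeff n).natDegree) hn
  · rw [Finset.mem_range, not_lt] at hn
    rw [coeff_eq_zero_of_natDegree_lt (by omega), natDegree_zero]
    exact Nat.zero_le _

theorem exists_good (P : ℂ[X]) (hP : P ≠ 0) (Q : ℕ) (hQ : 1 ≤ Q) :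
    ∃ N : ℕ, N.Prime ∧ N.Coprime Q ∧ ∀ ε : ℂ, ε ^ N = 1 → ε ≠ 1 → P.eval ε ≠ 0 := by
  classical
  obtain ⟨N, hN1, hN⟩ := Nat.exists_infinite_primes
    (Q + 1 + P.roots.toFinset.sup (fun z => orderOf z) + 1)
  refine ⟨N, hN, ?_, ?_⟩
  · rw [Nat.Prime.coprime_iff_not_dvd hN]
    intro h
    have := Nat.le_of_dvd (by omega) h
    omega
  · intro ε h1 h2 h3
    have hfact : Fact N.Prime := ⟨hN⟩
    have h4 : orderOf ε = N := orderOf_eq_prime h1 h2
    have h5 : ε ∈ P.roots.toFinset := by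
      rw [Multiset.mem_toFinset, mem_roots hP]
      exact h3
    have h6 := Finset.le_sup (f := fun z => orderOf z) h5
    simp only [h4] at h6
    omega

theorem good_of (Φ : ℂ[X][X]) (d : ℕ) (hd : 1 ≤ d) (hΦ : Φ.natDegree ≤ d) (y : ℂ)
    (h : Good Φ d y) : ∃ P : ℂ[X], P ≠ 0 ∧ ∀ ε : ℂ, P.eval ε ≠ 0 → Good Φ d ε := by
  have hder : Φ.derivative.natDegree ≤ d - 1 :=
    (natDegree_derivative_le Φ).trans (Nat.sub_le_sub_right hΦ 1)
  obtain ⟨p, q, -, -, hpq⟩ := exists_mul_add_mul_eq_C_resultant Φ Φ.derivative hΦ hder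
    (Or.inl (by omega))
  set r := resultant Φ Φ.derivative d (d - 1) with hr
  have hr0 : r.eval y ≠ 0 := by
    have h1 : r.eval y = resultant (Φ.map (evalRingHom y)) (Φ.map (evalRingHom y)).derivative
        d (d - 1) := by
      rw [derivative_map, resultant_map_map]
      rfl
    have h2 : (Φ.map (evalRingHom y)).natDegree = d := by
      refine le_antisymm (natDegree_map_le.trans hΦ) (le_natDegree_of_ne_zero ?_)
      rw [coeff_map]
      exact h.1
    have h3 : (Φ.map (evalRingHom y)).derivative.natDegree = d - 1 := by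
      rw [natDegree_derivative, h2]
    have h4 := resultant_ne_zero (Φ.map (evalRingHom y)) (Φ.map (evalRingHom y)).derivative h.2.1
    rw [h2, h3] at h4
    rw [h1]
    exact h4
  refine ⟨Φ.coeff d * Φ.coeff 0 * r, ?_, ?_⟩
  · intro h0
    have h1 := congrArg (eval y) h0
    rw [eval_mul, eval_mul, eval_zero] at h1
    exact mul_ne_zero (mul_ne_zero h.1 h.2.2) hr0 h1
  · intro ε hε
    rw [eval_mul, eval_mul] at hε
    refine ⟨left_ne_zero_of_mul (left_ne_zero_of_mul hε), ?_,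
      right_ne_zero_of_mul (left_ne_zero_of_mul hε)⟩
    have h1 := congrArg (Polynomial.map (evalRingHom ε)) hpq
    rw [Polynomial.map_add, Polynomial.map_mul, Polynomial.map_mul, map_C, ← derivative_map] at h1
    have h2 : evalRingHom ε r ≠ 0 := right_ne_zero_of_mul hε
    rw [separable_def]
    refine ⟨C (evalRingHom ε r)⁻¹ * p.map (evalRingHom ε),
      C (evalRingHom ε r)⁻¹ * q.map (evalRingHom ε), ?_⟩
    calc C (evalRingHom ε r)⁻¹ * p.map (evalRingHom ε) * Φ.map (evalRingHom ε) +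
          C (evalRingHom ε r)⁻¹ * q.map (evalRingHom ε) * (Φ.map (evalRingHom ε)).derivative
        = C (evalRingHom ε r)⁻¹ * (Φ.map (evalRingHom ε) * p.map (evalRingHom ε) +
            (Φ.map (evalRingHom ε)).derivative * q.map (evalRingHom ε)) := by ring
      _ = 1 := by rw [h1, ← C_mul, inv_mul_cancel₀ h2, C_1]

theorem frob_map {R S : Type} [CommRing R] [CommRing S] (i : R →+* S) (Q : ℕ) (Φ : R[X][X]) :
    (frob Q Φ).map (mapRingHom i) = frob Q (Φ.map (mapRingHom i)) := by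
  rw [frob, frob, map_expand, Polynomial.map_map, Polynomial.map_map]
  congr 2
  apply Polynomial.ringHom_ext
  · intro a
    simp
  · simp

theorem frob_natDegree {R : Type} [CommRing R] (Q : ℕ) (Φ : R[X][X]) (d : ℕ) (h : Φ.natDegree ≤ d) :
    (frob Q Φ).natDegree ≤ Q * d := by
  rw [frob, natDegree_expand, mul_comm]
  exact Nat.mul_le_mul_left _ (natDegree_map_le.trans h)

theorem frob_coeff {R : Type} [CommRing R] (Q : ℕ) (hQ : 0 < Q) (Φ : R[X][X]) (l : ℕ)
    (h : ∀ n, (Φ.coeff n).natDegree ≤ l) (n : ℕ) : ((frob Q Φ).coeff n).natDegree ≤ Q * l := by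
  rw [frob, coeff_expand hQ]
  split_ifs with hn
  · rw [coeff_map]
    show (expand R Q (Φ.coeff (n / Q))).natDegree ≤ Q * l
    rw [natDegree_expand, mul_comm]
    exact Nat.mul_le_mul_left _ (h _)
  · rw [natDegree_zero]
    exact Nat.zero_le _

theorem seven {k : Type} [Field k] [Algebra k ℂ] (Φ : k[X][X]) (d l Q : ℕ) (hd : 1 ≤ d)
    (hQ : 2 ≤ Q) (hΦ : Φ.natDegree ≤ d) (hl : ∀ n, (Φ.coeff n).natDegree ≤ l) (y : ℂ)
    (hy : ∀ p : k[X], p.natDegree ≤ Q * (d + 1) * l → aeval y p = 0 → p = 0)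
    (hlc : aeval y (Φ.coeff d) ≠ 0) (α : Fin d → ℂ) (hinj : Function.Injective α)
    (h0 : ∀ i, α i ≠ 0)
    (hroot : ∀ i, eval₂ (aeval y : k[X] →ₐ[k] ℂ).toRingHom (α i) Φ = 0)
    (hrootQ : ∀ i, eval₂ (aeval (y ^ Q) : k[X] →ₐ[k] ℂ).toRingHom (α i ^ Q) Φ = 0) (i : Fin d) :
    ∃ n r s : ℕ, 1 ≤ n ∧ α i ^ n * y ^ s = y ^ r := by
  classical
  set T : Finset ℂ := Finset.univ.image α with hT
  have hTc : T.card = d := by
    rw [hT, Finset.card_image_of_injective _ hinj, Finset.card_univ, Fintype.card_fin]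
  set f : k[X] →+* ℂ := (aeval y : k[X] →ₐ[k] ℂ).toRingHom with hf
  have hfQ : f.comp (expand k Q : k[X] →+* k[X]) = (aeval (y ^ Q) : k[X] →ₐ[k] ℂ).toRingHom :=
    RingHom.ext fun p => by
      show aeval y (expand k Q p) = aeval (y ^ Q) p
      rw [expand_aeval]
  obtain ⟨A, hA⟩ := transfer f Φ (frob Q Φ) d (Q * d) l (Q * l) hd hΦ hl
    (lt_of_le_of_lt (frob_natDegree Q Φ d hΦ) (by omega)) (frob_coeff Q (by omega) Φ l hl)
    (by
      intro p hp hp0
      refine hy p (hp.trans (le_of_eq ?_)) hp0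
      ring) T hTc.ge
    (by
      intro a ha
      obtain ⟨j, -, rfl⟩ := Finset.mem_image.1 ha
      exact hroot j)
    (by
      intro a ha
      obtain ⟨j, -, rfl⟩ := Finset.mem_image.1 ha
      rw [eval₂_frob, hfQ]
      exact hrootQ j)
  set ι : k[X] →+* ℂ[X] := mapRingHom (algebraMap k ℂ) with hι
  set F : ℂ[X][X] := Φ.map ι with hF
  have hFd : F.natDegree ≤ d := natDegree_map_le.trans hΦ
  have hdiv : C (F.coeff d) ^ (Q * d) * frob Q F = A.map ι * F := by
    have h1 := congrArg (Polynomial.map ι) hA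
    rw [Polynomial.map_mul, Polynomial.map_pow, map_C, Polynomial.map_mul, hι, frob_map] at h1
    rw [hF, coeff_map]
    exact h1
  have hιy : (evalRingHom y).comp ι = f := by
    apply Polynomial.ringHom_ext
    · intro a
      simp [hι, hf]
    · simp [hι, hf]
  have hFy : F.map (evalRingHom y) = Φ.map f := by
    rw [hF, Polynomial.map_map, hιy]
  have hcoef : ∀ j, (F.coeff j).eval y = aeval y (Φ.coeff j) := by
    intro j
    have h1 := congrArg (fun g : k[X] →+* ℂ => g (Φ.coeff j)) hιy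
    rw [hF, coeff_map]
    exact h1
  have hlcF : (F.coeff d).eval y ≠ 0 := by rw [hcoef]; exact hlc
  have hne : F.map (evalRingHom y) ≠ 0 := by
    intro h1
    have h2 := congrArg (fun p => p.coeff d) h1
    simp only [coeff_map, coeff_zero] at h2
    exact hlcF h2
  have hTroots : ∀ a ∈ T, a ∈ (F.map (evalRingHom y)).roots := by
    intro a ha
    obtain ⟨j, -, rfl⟩ := Finset.mem_image.1 ha
    rw [mem_roots hne, IsRoot.def, hFy, eval_map]
    exact hroot j
  have hTle : T.val ≤ (F.map (evalRingHom y)).roots :=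
    (Multiset.le_iff_subset T.nodup).2 hTroots
  have hTeq : T.val = (F.map (evalRingHom y)).roots := by
    refine Multiset.eq_of_le_of_card_le hTle ?_
    have h1 := card_roots' (F.map (evalRingHom y))
    have h2 : (F.map (evalRingHom y)).natDegree ≤ d := natDegree_map_le.trans hFd
    rw [Finset.card_val, hTc]
    omega
  have hgoody : Good F d y := by
    refine ⟨hlcF, ?_, ?_⟩
    · rw [← nodup_roots_iff_of_splits hne (IsAlgClosed.splits _), ← hTeq]
      exact T.nodup
    · intro h1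
      have h2 : (0 : ℂ) ∈ (F.map (evalRingHom y)).roots := by
        rw [mem_roots hne, IsRoot.def, ← coeff_zero_eq_eval_zero, coeff_map]
        exact h1
      rw [← hTeq, Finset.mem_val] at h2
      obtain ⟨j, -, hj⟩ := Finset.mem_image.1 h2
      exact h0 j hj
  obtain ⟨P, hP, hPgood⟩ := good_of F d hd hFd y hgoody
  obtain ⟨N, hN, hco, hNgood⟩ := exists_good P hP Q (by omega)
  have hgood : ∀ ε : ℂ, ε ^ N = 1 → ε ≠ 1 → Good F d ε := fun ε h1 h2 =>
    hPgood ε (hNgood ε h1 h2)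
  obtain ⟨ε, hε⟩ : ∃ ε : ℂ, IsPrimitiveRoot ε N := ⟨_, Complex.isPrimitiveRoot_exp N hN.ne_zero⟩
  have hε1 : ε ≠ 1 := hε.ne_one hN.one_lt
  have hε0 : ε ≠ 0 := hε.ne_zero hN.ne_zero
  have hgε := hgood ε hε.pow_eq_one hε1
  have hF0 : F ≠ 0 := by
    rintro h1
    rw [h1, Polynomial.map_zero] at hne
    exact hne rfl
  have hbr : ∀ B ∈ Br F ε, ∃ n r s : ℕ, 1 ≤ n ∧ B ^ n * psi ε (X ^ s) = psi ε (X ^ r) := by
    intro B hB
    have hB1 := (mem_Br F d ε hgε B).1 hB
    obtain ⟨κ, β, hκ0, ⟨t, ht, hκt⟩, hBe⟩ := dyn F (A.map ι) d (Q * d) Q N hFd hQ hdiv hN hco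
      hgood ε hε.pow_eq_one hε1 B hB1
    rw [hBe] at hB1 ⊢
    exact branch_mono F hF0 ε κ β N t hN.one_le ht hε.pow_eq_one hκt hB1
  choose! n r s hn hrs using hbr
  set G : ℂ[X][X] := ∏ B ∈ Br F ε, (C (X ^ (s B)) * X ^ (n B) - C (X ^ (r B))) with hG
  have hG0 : ∀ B ∈ Br F ε, eval₂ (psi ε) B G = 0 := by
    intro B hB
    rw [hG, eval₂_finsetProd]
    refine Finset.prod_eq_zero hB ?_
    rw [eval₂_sub, eval₂_mul, eval₂_C, eval₂_C, eval₂_pow, eval₂_X, mul_comm, hrs B hB, sub_self]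
  obtain ⟨l', hl'⟩ := exists_bound F
  obtain ⟨s', hs'⟩ := exists_bound G
  obtain ⟨A2, hA2⟩ := transfer (psi ε) F G d (G.natDegree + 1) l' s' hd hFd hl' (by omega) hs'
    (fun p _ hp => (map_eq_zero_iff _ (psi_injective ε hε0)).1 hp) (Br F ε)
    (card_Br F d hFd ε hgε) (fun B hB => (mem_Br F d ε hgε B).1 hB) hG0
  have h1 := congrArg (eval₂ (evalRingHom y) (α i)) hA2
  have h2 : eval₂ (evalRingHom y) (α i) F = 0 := by
    rw [hF, eval₂_map, hιy]
    exact hroot i
  rw [eval₂_mul, eval₂_mul, h2, mul_zero, eval₂_pow, eval₂_C, mul_eq_zero] at h1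
  have h3 := h1.resolve_left (pow_ne_zero _ hlcF)
  rw [hG, eval₂_finsetProd, Finset.prod_eq_zero_iff] at h3
  obtain ⟨B, hB, h4⟩ := h3
  rw [eval₂_sub, eval₂_mul, eval₂_C, eval₂_C, eval₂_pow, eval₂_X, sub_eq_zero, coe_evalRingHom,
    eval_pow, eval_pow, eval_X] at h4
  exact ⟨n B, r B, s B, hn B hB, by rw [mul_comm]; exact h4⟩

end Pool.Agent.H69.BD
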