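import Pool.Agent.H69.BD.Six
import Pool.Agent.H69.BD.Seven
import Pool.Agent.H72.BD.Co

/-!
# THEOREM V (MP_187c26_nt), chapters S6 and S7: one window is enough

Text: constants `q`, `f` from `exists_qf W (K1 b d + b)`, `Q = q ^ f`, `T = Q (d + 1) (W + 2) + 2 Q + 2`,
`c = log 2 / (Q d)`. `E = m / T`. `W a_j + E = k_j m + p_j`, `0 ≤ p_j ≤ 2 E`. `y ^ W = x`, `k = ℚ(y ^ m)`,
`V_i = ∑ β ^ k_j X ^ p_j v_ij(X ^ W)` of degree `≤ 2 E + W ℓ`, `Φ = ∑ V_i Z ^ i`. `V_i(y) = y ^ E g c_i`; `six` for all conjugates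
of `α` over `F` gives `Φ(y ^ Q, α_i ^ Q) = 0`. `seven`: `α ^ n y ^ s = y ^ r`. Take the `W m`-th power.
-/

set_option autoImplicit false

open Polynomial NumberField

namespace Pool.Agent.H69.BD

open Pool.Agent.H72.BD

theorem conj_height {F : Type} [Field F] [NumberField F] [Algebra F ℂ] (α γ : ℂ)
    (hα : IsIntegral ℚ α) (h : aeval γ (minpoly F α) = 0) :
    IsIntegral ℚ γ ∧ absLogHeight₁ γ = absLogHeight₁ α := by
  have h1 : minpoly F α ∣ (minpoly ℚ α).map (algebraMap ℚ F) := by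
    apply minpoly.dvd
    rw [aeval_map_algebraMap, minpoly.aeval]
  have h2 : aeval γ (minpoly ℚ α) = 0 := by
    obtain ⟨r, hr⟩ := h1
    have h3 : aeval γ ((minpoly ℚ α).map (algebraMap ℚ F)) = 0 := by
      rw [hr, map_mul, h, zero_mul]
    rwa [aeval_map_algebraMap] at h3
  have h3 : minpoly ℚ γ = minpoly ℚ α :=
    (minpoly.eq_of_irreducible_of_monic (minpoly.irreducible hα) h2 (minpoly.monic hα)).symm
  have h4 : IsIntegral ℚ γ := ⟨minpoly ℚ α, minpoly.monic hα, by rwa [aeval_def] at h2⟩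
  exact ⟨h4, Pool.Agent.H4.RR.absLogHeight_eq_of_minpoly_eq ℂ γ α h4 h3⟩

theorem cf_sum {F : Type} [Field F] [Algebra F ℂ] (α γ : ℂ) (d : ℕ)
    (hd : (minpoly F α).natDegree = d) (h : aeval γ (minpoly F α) = 0) :
    ∑ i : Fin (d + 1), algebraMap F ℂ (cf F α d i) * γ ^ (i : ℕ) = 0 := by
  rw [← h, aeval_eq_sum_range' (n := d + 1) (by omega), Finset.sum_range]
  refine Finset.sum_congr rfl fun i _ => ?_
  rw [cf, Algebra.smul_def]

theorem rep_base {b m d R W E : ℕ} {F : Type} [Field F] [NumberField F] {x : F} [Algebra F ℂ]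
    (y : ℂ) (hy : y ^ W = algebraMap F ℂ x) (c : Fin (d + 1) → F) {ℓ gap : ℕ}
    (a k p : Fin (R + 1) → ℕ) (v : Fin (d + 1) → Fin (R + 1) → ℤ[X])
    (hr : Rep m x c ℓ gap a v) (hka : ∀ j, W * a j + E = k j * m + p j) (i : Fin (d + 1)) :
    ∑ j, (y ^ m) ^ k j * (y ^ p j * aeval (y ^ W) (v i j)) =
      y ^ E * (algebraMap F ℂ (aeval x (v (Fin.last d) 0)) * algebraMap F ℂ (c i)) := by
  rw [← map_mul, hr.eq i, map_sum, Finset.mul_sum]
  refine Finset.sum_congr rfl fun j _ => ?_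
  rw [map_mul, map_pow, map_aeval_int, ← hy, ← pow_mul, ← pow_mul, ← mul_assoc, ← mul_assoc,
    ← pow_add, ← pow_add]
  congr 2
  have := hka j
  rw [mul_comm m (k j)]
  omega

theorem core (b d W : ℕ) (hb : 2 ≤ b) (hd : 1 ≤ d) (hW : 1 ≤ W) : ∃ (T : ℕ) (c : ℝ), 0 < c ∧
    ∀ (m : ℕ) (F : Type) [Field F] [NumberField F] (x : F) (_ : Rad b m F x) [Algebra F ℂ] (α : ℂ),
      IsIntegral ℚ α → α ≠ 0 → (minpoly F α).natDegree = d → absLogHeight₁ α ≤ c →
      ∀ (R ℓ gap : ℕ) (a : Fin (R + 1) → ℕ) (v : Fin (d + 1) → Fin (R + 1) → ℤ[X]), R ≤ R0 d →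
      Rep m x (cf F α d) ℓ gap a v → T * ℓ ≤ m →
      (∀ j, ∃ k : ℤ, |(W : ℤ) * a j - k * m| * T ≤ m) →
      (∀ Q : ℕ, 1 ≤ Q → Q ≤ T →
        ∏ φ : F →+* ℂ, wt b m a v (φ x ^ Q) ≤ (Cc b d : ℝ) ^ m) →
      ∃ n r s : ℕ, 1 ≤ n ∧ α ^ n * (b : ℂ) ^ s = (b : ℂ) ^ r := by
  classical
  obtain ⟨q, f, hq, hqM, hf, hQ⟩ := exists_qf W (K1 b d + b) hW
  set Q := q ^ f with hQdef
  have hQ1 : 1 ≤ Q := Nat.one_le_pow _ _ hq.pos
  have hQ2 : 2 ≤ Q := by
    calc 2 ≤ q := hq.two_le
      _ = q ^ 1 := (pow_one q).symm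
      _ ≤ q ^ f := Nat.pow_le_pow_right hq.pos hf
  refine ⟨Q * (d + 1) * (W + 2) + 2 * Q + 2, Real.log 2 / (Q * d), ?_, ?_⟩
  · have h1 : (0 : ℝ) < Q := by exact_mod_cast hQ1
    have h2 : (0 : ℝ) < d := by exact_mod_cast hd
    have h3 := Real.log_pos (show (1 : ℝ) < 2 by norm_num)
    positivity
  intro m F _ _ x h _ α hα hα0 hdeg hh R ℓ gap a v hR hr hℓ hWa hsize
  obtain ⟨T, hT⟩ : ∃ T, T = Q * (d + 1) * (W + 2) + 2 * Q + 2 := ⟨_, rfl⟩
  rw [← hT] at hℓ hWa hsize
  have hm : 1 ≤ m := h.one_le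
  have hT2 : 2 ≤ T := by omega
  obtain ⟨E, hE⟩ : ∃ E, E = m / T := ⟨_, rfl⟩
  have hTE : T * E ≤ m := by
    rw [hE]
    exact Nat.mul_div_le m T
  have hEm : E < m := by
    rw [hE]
    exact Nat.div_lt_self (by omega) (by omega)
  -- the exponents
  have hkp : ∀ j, ∃ k p : ℕ, W * a j + E = k * m + p ∧ p ≤ 2 * E := by
    intro j
    obtain ⟨k, hk⟩ := hWa j
    have h1 : |(W : ℤ) * a j - k * m| ≤ E := by
      have h2 : |(W : ℤ) * a j - k * m| ≤ (m : ℤ) / (T : ℤ) :=
        (Int.le_ediv_iff_mul_le (by omega)).2 hk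
      rw [hE]
      push_cast
      exact h2
    rw [abs_le] at h1
    have hk0 : 0 ≤ k := by
      by_contra hneg
      push Not at hneg
      have h3 : k * (m : ℤ) ≤ -1 * m := mul_le_mul_of_nonneg_right (by omega) (by omega)
      have h4 : (0 : ℤ) ≤ (W : ℤ) * a j := by positivity
      omega
    obtain ⟨k', rfl⟩ := Int.eq_ofNat_of_zero_le hk0
    refine ⟨k', (W * a j + E) - k' * m, ?_, ?_⟩
    · have h3 : (k' * m : ℕ) ≤ W * a j + E := by
        have h4 : ((k' * m : ℕ) : ℤ) ≤ ((W * a j + E : ℕ) : ℤ) := by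
          push_cast
          linarith
        exact_mod_cast h4
      omega
    · have h4 : ((W * a j + E : ℕ) : ℤ) ≤ ((k' * m + 2 * E : ℕ) : ℤ) := by
        push_cast
        linarith
      have h5 : W * a j + E ≤ k' * m + 2 * E := by exact_mod_cast h4
      omega
  choose k p hka hpE using hkp
  obtain ⟨y, hy⟩ := IsAlgClosed.exists_pow_nat_eq (algebraMap F ℂ x) (n := W) hW
  have hyb : y ^ (W * m) = b := by
    rw [pow_mul, hy, ← map_pow, h.pow, map_natCast]
  have hy0 : y ≠ 0 := by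
    rintro rfl
    rw [zero_pow (Nat.mul_pos hW hm).ne'] at hyb
    have : (b : ℂ) ≠ 0 := by
      have : b ≠ 0 := by omega
      exact_mod_cast this
    exact this hyb.symm
  have hintF : IsIntegral F α := hα.tower_top
  have hmonic := minpoly.monic hintF
  -- the conjugates
  set rt := ((minpoly F α).aroots ℂ).toFinset with hrt
  have hirr := minpoly.irreducible hintF
  have hsep : (minpoly F α).Separable := hirr.separable
  have hcard : rt.card = d := by
    rw [hrt, Multiset.toFinset_card_of_nodup, ← hdeg]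
    · rw [aroots_def, ← natDegree_map (algebraMap F ℂ)]
      exact splits_iff_card_roots.1 (IsAlgClosed.splits _)
    · rw [aroots_def]
      exact nodup_roots (hsep.map)
  have hmem : ∀ z : ℂ, z ∈ rt ↔ aeval z (minpoly F α) = 0 := by
    intro z
    rw [hrt, Multiset.mem_toFinset, mem_aroots]
    exact and_iff_right hmonic.ne_zero
  set e : Fin d ≃ rt := (Finset.equivFinOfCardEq hcard).symm with he
  set A : Fin d → ℂ := fun i => (e i : ℂ) with hA
  have hAinj : Function.Injective A := fun i j hij => e.injective (Subtype.ext hij)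
  have hAroot : ∀ i, aeval (A i) (minpoly F α) = 0 := fun i => (hmem _).1 (e i).2
  have hA0 : ∀ i, A i ≠ 0 := by
    intro i h0
    have h1 := hAroot i
    rw [h0] at h1
    have h2 : (minpoly F α).coeff 0 = 0 := by
      apply (algebraMap F ℂ).injective
      rw [map_zero, ← h1, aeval_def, eval₂_at_zero]
    exact minpoly.coeff_zero_ne_zero hintF hα0 h2
  -- the polynomial
  set K := IntermediateField.adjoin ℚ {y ^ m} with hK
  set β : K := IntermediateField.AdjoinSimple.gen ℚ (y ^ m) with hβ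
  have hβe : algebraMap K ℂ β = y ^ m := rfl
  set V : Fin (d + 1) → K[X] := fun i => ∑ j, C (β ^ k j) *
    (X ^ p j * expand K W ((v i j).map (Int.castRingHom K))) with hV
  have hVe : ∀ (z : ℂ) (i : Fin (d + 1)), aeval z (V i) =
      ∑ j, (y ^ m) ^ k j * (z ^ p j * aeval (z ^ W) (v i j)) := by
    intro z i
    rw [hV]
    simp only
    rw [map_sum]
    refine Finset.sum_congr rfl fun j _ => ?_
    rw [map_mul, map_mul, aeval_C, map_pow, map_pow, aeval_X, hβe, expand_aeval]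
    congr 2
    rw [aeval_def, eval₂_map, aeval_def]
    congr 1
  obtain ⟨l, hl⟩ : ∃ l, l = 2 * E + W * ℓ := ⟨_, rfl⟩
  have hVdeg : ∀ i, (V i).natDegree ≤ l := by
    intro i
    rw [hV]
    refine natDegree_sum_le_of_forall_le _ _ fun j _ => ?_
    refine (natDegree_C_mul_le _ _).trans (natDegree_mul_le.trans ?_)
    rw [natDegree_X_pow, natDegree_expand, hl]
    have h1 := hpE j
    have h2 : ((v i j).map (Int.castRingHom K)).natDegree ≤ ℓ :=
      natDegree_map_le.trans (hr.deg i j).le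
    have h3 := Nat.mul_le_mul_right W h2
    rw [mul_comm ℓ W] at h3
    omega
  set Φ : K[X][X] := ∑ i : Fin (d + 1), C (V i) * X ^ (i : ℕ) with hΦ
  have hcoeff : ∀ n, Φ.coeff n = if hn : n < d + 1 then V ⟨n, hn⟩ else 0 := by
    intro n
    rw [hΦ, finset_sum_coeff]
    simp only [coeff_C_mul, coeff_X_pow]
    split_ifs with hn
    · rw [Finset.sum_eq_single ⟨n, hn⟩]
      · simp
      · intro j _ hj
        rw [if_neg (fun h => hj (Fin.ext h.symm)), mul_zero]
      · intro h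
        exact absurd (Finset.mem_univ _) h
    · refine Finset.sum_eq_zero fun j _ => ?_
      rw [if_neg (by have := j.2; omega), mul_zero]
  have hΦd : Φ.natDegree ≤ d := by
    rw [natDegree_le_iff_coeff_eq_zero]
    intro n hn
    rw [hcoeff, dif_neg (by omega)]
  have hΦl : ∀ n, (Φ.coeff n).natDegree ≤ l := by
    intro n
    rw [hcoeff]
    split_ifs
    · exact hVdeg _
    · rw [natDegree_zero]
      exact Nat.zero_le _
  have hΦe : ∀ z γ : ℂ, eval₂ (aeval z : K[X] →ₐ[K] ℂ).toRingHom γ Φ =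
      ∑ i : Fin (d + 1), aeval z (V i) * γ ^ (i : ℕ) := by
    intro z γ
    rw [hΦ, eval₂_finsetSum]
    refine Finset.sum_congr rfl fun i _ => ?_
    rw [eval₂_mul, eval₂_C, eval₂_pow, eval₂_X]
    rfl
  have hbase := fun i => rep_base (b := b) y hy (cf F α d) a k p v hr hka i
  have hlt : Q * (d + 1) * l < m := by
    have h1 : T * (Q * (d + 1) * l) ≤ Q * (d + 1) * (W + 2) * m := by
      have h2 : T * l ≤ (W + 2) * m := by
        rw [hl]
        calc T * (2 * E + W * ℓ) = 2 * (T * E) + W * (T * ℓ) := by ring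
          _ ≤ 2 * m + W * m := Nat.add_le_add (Nat.mul_le_mul_left _ hTE)
            (Nat.mul_le_mul_left _ hℓ)
          _ = (W + 2) * m := by ring
      calc T * (Q * (d + 1) * l) = Q * (d + 1) * (T * l) := by ring
        _ ≤ Q * (d + 1) * ((W + 2) * m) := Nat.mul_le_mul_left _ h2
        _ = Q * (d + 1) * (W + 2) * m := by ring
    have h3 : Q * (d + 1) * (W + 2) * m < T * m := by
      refine Nat.mul_lt_mul_of_pos_right ?_ hm
      omega
    exact Nat.lt_of_mul_lt_mul_left (lt_of_le_of_lt h1 h3)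
  have hqb : ¬ q ∣ b := fun hdvd => by
    have := Nat.le_of_dvd (by omega) hdvd
    omega
  have hhq : (q : ℝ) ^ f * d * absLogHeight₁ α ≤ Real.log 2 := by
    have h1 : (0 : ℝ) < (q : ℝ) ^ f * d := by
      have h2 : (0 : ℝ) < q := by exact_mod_cast hq.pos
      have h3 : (0 : ℝ) < d := by exact_mod_cast hd
      positivity
    have h2 : ((Q : ℕ) : ℝ) = (q : ℝ) ^ f := by
      rw [hQdef]
      push_cast
      rfl
    rw [h2, le_div_iff₀ h1] at hh
    linarith
  have hEb : 2 * q ^ f * E + E ≤ W * m := by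
    rw [← hQdef]
    calc 2 * Q * E + E = (2 * Q + 1) * E := by ring
      _ ≤ T * E := Nat.mul_le_mul_right _ (by omega)
      _ ≤ m := hTE
      _ ≤ W * m := Nat.le_mul_of_pos_left _ hW
  have hg0 : algebraMap F ℂ (aeval x (v (Fin.last d) 0)) ≠ 0 := by
    have : NeZero m := ⟨by omega⟩
    rw [Ne, map_eq_zero]
    intro h0
    have hℓm : ℓ ≤ m := by
      calc ℓ ≤ T * ℓ := Nat.le_mul_of_pos_left _ (by omega)
        _ ≤ m := hℓ
    exact hr.vl0 (h.aeval_eq_zero _ (lt_of_lt_of_le (hr.deg _ _) hℓm) h0)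
  have hlast : cf F α d (Fin.last d) = 1 := by
    rw [cf, Fin.val_last, ← hdeg]
    exact hmonic
  obtain ⟨i0, hi0⟩ : ∃ i, A i = α := by
    refine ⟨e.symm ⟨α, (hmem α).2 (minpoly.aeval F α)⟩, ?_⟩
    rw [hA]
    simp
  obtain ⟨n, r, s, hn, hfin⟩ := seven Φ d l Q hd hQ2 hΦd hΦl y
    (fun P hP hP0 => deg_root b m W hb h.sqf hm hW y hyb P (lt_of_le_of_lt hP hlt) hP0)
    (by
      rw [hcoeff, dif_pos (by omega), hVe]
      have h1 := hbase (Fin.last d)
      have h2 : (⟨d, by omega⟩ : Fin (d + 1)) = Fin.last d := rfl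
      rw [h2, h1, hlast, map_one, mul_one]
      exact mul_ne_zero (pow_ne_zero _ hy0) hg0)
    A hAinj hA0
    (by
      intro i
      rw [hΦe]
      have h1 : ∀ j : Fin (d + 1), aeval y (V j) * A i ^ (j : ℕ) =
          (y ^ E * algebraMap F ℂ (aeval x (v (Fin.last d) 0))) *
            (algebraMap F ℂ (cf F α d j) * A i ^ (j : ℕ)) := by
        intro j
        rw [hVe, hbase j]
        ring
      rw [Finset.sum_congr rfl fun j _ => h1 j, ← Finset.mul_sum,
        cf_sum α (A i) d hdeg (hAroot i), mul_zero])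
    (by
      intro i
      rw [hΦe]
      obtain ⟨hint, hht⟩ := conj_height (F := F) α (A i) hα (hAroot i)
      have h1 := six (q := q) (f := f) h hW y hy (A i) hint (cf F α d)
        (cf_sum α (A i) d hdeg (hAroot i)) a k p v hr hR hka hpE hEb hq hqb hQ (by omega)
        (hsize Q hQ1 (by omega)) (by rw [hht]; exact hhq)
      rw [← h1]
      refine Finset.sum_congr rfl fun j _ => ?_
      rw [hVe, hQdef]
      congr 1
      refine Finset.sum_congr rfl fun j' _ => ?_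
      rw [← hy]
      ring_nf)
    i0
  rw [hi0] at hfin
  refine ⟨n * (W * m), r, s, Nat.mul_pos hn (Nat.mul_pos hW hm), ?_⟩
  have h1 : (α ^ n * y ^ s) ^ (W * m) = (y ^ r) ^ (W * m) := by rw [hfin]
  rw [mul_pow, ← pow_mul, ← pow_mul y s, mul_comm s, pow_mul y (W * m) s, hyb, ← pow_mul y r,
    mul_comm r, pow_mul y (W * m) r, hyb] at h1
  exact h1

end Pool.Agent.H69.BD
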