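import Pool.Agent.H69.BD.CL

/-!
# THEOREM V (MP_187c26_nt), chapter S6: the congruence

Text: `Q = q ^ f`, `W (q - 1) ∣ Q - 1`, `q ∤ b`, `β ^ W = b`: `β ^ Q = β b ^ ((Q - 1) / W)`, and
`b ^ ((Q - 1) / W) = 1 mod q`. So `∑ β ^ k_j y ^ (Q p_j) v_j (x ^ Q) = (∑ β ^ k_j y ^ p_j v_j (x)) ^ Q mod q`.
-/

set_option autoImplicit false

open Polynomial

namespace Pool.Agent.H69.BD

variable {A : Type} [CommRing A]

theorem frob_mod {ι : Type} (q : ℕ) (hq : q.Prime) (f : ℕ) (t : Finset ι) (y : ι → A) :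
    ∃ w : A, ∑ i ∈ t, y i ^ (q ^ f) = (∑ i ∈ t, y i) ^ (q ^ f) + q * w := by
  have h := frob_sum q hq (⊤ : Ideal A) t y (fun _ _ => Submodule.mem_top) f
  have h2 : (∑ i ∈ t, y i) ^ (q ^ f) - ∑ i ∈ t, y i ^ (q ^ f) ∈ Ideal.span {(q : A)} :=
    Ideal.mul_le_left h
  obtain ⟨w, hw⟩ := Ideal.mem_span_singleton'.1 h2
  exact ⟨-w, by linear_combination hw⟩

/-- congruence modulo `q` -/
def Cgr (q : ℕ) (a b : A) : Prop := ∃ w : A, a = b + q * w

theorem Cgr.refl (q : ℕ) (a : A) : Cgr q a a := ⟨0, by simp⟩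

theorem Cgr.symm {q : ℕ} {a b : A} (h : Cgr q a b) : Cgr q b a := by
  obtain ⟨w, hw⟩ := h
  exact ⟨-w, by rw [hw]; ring⟩

theorem Cgr.trans {q : ℕ} {a b c : A} (h : Cgr q a b) (h' : Cgr q b c) : Cgr q a c := by
  obtain ⟨w, hw⟩ := h
  obtain ⟨w', hw'⟩ := h'
  exact ⟨w' + w, by rw [hw, hw']; ring⟩

theorem Cgr.mul {q : ℕ} {a b a' b' : A} (h : Cgr q a b) (h' : Cgr q a' b') :
    Cgr q (a * a') (b * b') := by
  obtain ⟨w, rfl⟩ := h
  obtain ⟨w', rfl⟩ := h'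
  exact ⟨b * w' + w * b' + q * w * w', by ring⟩

theorem Cgr.pow {q : ℕ} {a b : A} (h : Cgr q a b) (n : ℕ) : Cgr q (a ^ n) (b ^ n) := by
  induction n with
  | zero => simpa using Cgr.refl q (1 : A)
  | succ n ih =>
    rw [pow_succ, pow_succ]
    exact ih.mul h

theorem Cgr.sum {ι : Type} {q : ℕ} (t : Finset ι) {a b : ι → A}
    (h : ∀ i ∈ t, Cgr q (a i) (b i)) : Cgr q (∑ i ∈ t, a i) (∑ i ∈ t, b i) := by
  classical
  induction t using Finset.induction_on with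
  | empty => simpa using Cgr.refl q (0 : A)
  | insert i t hi ih =>
    rw [Finset.sum_insert hi, Finset.sum_insert hi]
    obtain ⟨w, hw⟩ := h i (Finset.mem_insert_self _ _)
    obtain ⟨w', hw'⟩ := ih fun j hj => h j (Finset.mem_insert_of_mem hj)
    exact ⟨w + w', by rw [hw, hw']; ring⟩

theorem cgr_int (q : ℕ) (hq : q.Prime) (f : ℕ) (n : ℤ) : Cgr q ((n : A) ^ (q ^ f)) (n : A) := by
  have hfact : Fact q.Prime := ⟨hq⟩
  have h1 : ((n ^ (q ^ f) - n : ℤ) : ZMod q) = 0 := by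
    push_cast
    rw [ZMod.pow_card_pow, sub_self]
  obtain ⟨c, hc⟩ := (ZMod.intCast_zmod_eq_zero_iff_dvd _ _).1 h1
  refine ⟨(c : A), ?_⟩
  have h2 : n ^ (q ^ f) = n + q * c := by linear_combination hc
  have h3 := congrArg (fun z : ℤ => (z : A)) h2
  push_cast at h3
  exact h3

theorem cgr_aeval (q : ℕ) (hq : q.Prime) (f : ℕ) (x : A) (v : ℤ[X]) :
    Cgr q (aeval (x ^ (q ^ f)) v) ((aeval x v) ^ (q ^ f)) := by
  have h1 : ∀ z : A, aeval z v = ∑ j ∈ Finset.range (v.natDegree + 1), (v.coeff j : A) * z ^ j := by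
    intro z
    rw [aeval_eq_sum_range]
    refine Finset.sum_congr rfl fun j _ => ?_
    rw [zsmul_eq_mul]
  rw [h1, h1]
  obtain ⟨w, hw⟩ := frob_mod q hq f (Finset.range (v.natDegree + 1))
    (fun j => (v.coeff j : A) * x ^ j)
  refine Cgr.trans (Cgr.sum _ fun j _ => ?_) ⟨w, hw⟩
  rw [mul_pow, ← pow_mul, ← pow_mul, mul_comm j]
  exact (cgr_int q hq f _).symm.mul (Cgr.refl _ _)

theorem cgr_beta (b W q f : ℕ) (hq : q.Prime) (hqb : ¬ q ∣ b)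
    (hQ : W * (q - 1) ∣ q ^ f - 1) (β : A) (hβ : β ^ W = b) : Cgr q (β ^ (q ^ f)) β := by
  have hfact : Fact q.Prime := ⟨hq⟩
  obtain ⟨c, hc⟩ := hQ
  have hpos : 1 ≤ q ^ f := Nat.one_le_pow _ _ hq.pos
  have h1 : q ^ f = W * ((q - 1) * c) + 1 := by
    rw [← mul_assoc, ← hc]
    omega
  have h2 : (((b : ℤ) ^ ((q - 1) * c) - 1 : ℤ) : ZMod q) = 0 := by
    push_cast
    rw [pow_mul, ZMod.pow_card_sub_one_eq_one, one_pow, sub_self]
    intro h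
    exact hqb ((ZMod.natCast_eq_zero_iff b q).1 h)
  obtain ⟨e, he⟩ := (ZMod.intCast_zmod_eq_zero_iff_dvd _ _).1 h2
  have h3 : (b : ℤ) ^ ((q - 1) * c) = 1 + q * e := by linear_combination he
  have h4 := congrArg (fun z : ℤ => (z : A)) h3
  push_cast at h4
  refine ⟨e * β, ?_⟩
  rw [h1, pow_succ, pow_mul, hβ, h4]
  ring

theorem six_cong (b W q f : ℕ) (hq : q.Prime) (hqb : ¬ q ∣ b)
    (hQ : W * (q - 1) ∣ q ^ f - 1) (β y x : A) (hβ : β ^ W = b) {R : ℕ} (k p : Fin R → ℕ)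
    (v : Fin R → ℤ[X]) :
    ∃ w : A, ∑ j, β ^ k j * (y ^ (q ^ f * p j) * aeval (x ^ (q ^ f)) (v j)) =
      (∑ j, β ^ k j * (y ^ p j * aeval x (v j))) ^ (q ^ f) + q * w := by
  obtain ⟨w, hw⟩ := frob_mod q hq f Finset.univ (fun j => β ^ k j * (y ^ p j * aeval x (v j)))
  refine Cgr.trans (Cgr.sum _ fun j _ => ?_) ⟨w, hw⟩
  rw [mul_pow, mul_pow, ← pow_mul y, mul_comm (p j)]
  refine Cgr.mul ?_ ((Cgr.refl _ _).mul (cgr_aeval q hq f x (v j)))
  rw [← pow_mul, mul_comm (k j), pow_mul]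
  exact ((cgr_beta b W q f hq hqb hQ β hβ).pow (k j)).symm

/-- The choice of the prime and of its power. -/
theorem exists_qf (W M : ℕ) (hW : 1 ≤ W) : ∃ q f : ℕ, q.Prime ∧ M < q ∧ 1 ≤ f ∧
    W * (q - 1) ∣ q ^ f - 1 := by
  obtain ⟨q, hq1, hq⟩ := Nat.exists_infinite_primes (M + W + 1)
  have hcop : q.Coprime W := (Nat.Prime.coprime_iff_not_dvd hq).2 fun h => by
    have := Nat.le_of_dvd hW h
    omega
  refine ⟨q, W.totient * W, hq, by omega, Nat.mul_pos (Nat.totient_pos.2 hW) hW, ?_⟩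
  set y := q ^ W.totient with hy
  have hy1 : y ≡ 1 [MOD W] := Nat.ModEq.pow_totient hcop
  have hypos : 1 ≤ y := Nat.one_le_pow _ _ hq.pos
  rw [pow_mul, ← hy]
  have h1 : q - 1 ∣ y - 1 := by
    have := Nat.sub_dvd_pow_sub_pow q 1 W.totient
    rwa [one_pow] at this
  have hgeom : (∑ i ∈ Finset.range W, y ^ i) * (y - 1) = y ^ W - 1 := by
    have h4 : (∑ i ∈ Finset.range W, y ^ i) * (y - 1) + 1 = y ^ W := by
      obtain ⟨z, hz⟩ : ∃ z, y = z + 1 := ⟨y - 1, by omega⟩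
      rw [hz, Nat.add_sub_cancel]
      exact geom_sum_mul_add z W
    omega
  have h2 : W ∣ ∑ i ∈ Finset.range W, y ^ i := by
    rw [← Nat.modEq_zero_iff_dvd]
    have h3 : ∑ i ∈ Finset.range W, y ^ i ≡ ∑ i ∈ Finset.range W, 1 [MOD W] := by
      refine Nat.ModEq.sum fun i _ => ?_
      have := hy1.pow i
      rwa [one_pow] at this
    refine h3.trans ?_
    rw [Finset.sum_const, Finset.card_range, smul_eq_mul, mul_one]
    exact (Nat.modEq_zero_iff_dvd).2 dvd_rfl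
  rw [← hgeom]
  exact mul_dvd_mul h2 h1

end Pool.Agent.H69.BD
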