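import Pool.Agent.H69.BD.Vmain
import Pool.Agent.H11.FR.IdxB

/-!
# THEOREM V (MP_187c26_nt): the index of `ℤ[x]`, `x ^ m = b`

If the primes `p ∣ m` with `p ^ 2 ∣ b ^ (p - 1) - 1` divide `m` only once, then `log idxZ x / m ≤ ∑ log p / p`, the sum over these
primes (or over any larger set `W` of primes dividing `m` only once).
-/

set_option autoImplicit false

open IntermediateField NumberField Polynomial

namespace Pool.Agent.H69.BD

private theorem adj_eq {Ω : Type} [Field Ω] [CharZero Ω] (x : Ω) :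
    (Algebra.adjoin ℤ ({x} : Set Ω)).toSubring = Pool.Agent.H11.FR.ordOf ℚ x := by
  apply le_antisymm
  · intro y hy
    have hy' : y ∈ Algebra.adjoin ℤ ({x} : Set Ω) := hy
    induction hy' using Algebra.adjoin_induction with
    | mem w hw =>
      rw [Set.mem_singleton_iff] at hw
      rw [hw]
      exact Pool.Agent.H11.FR.self_mem_ordOf x
    | algebraMap s =>
      rw [eq_intCast]
      exact intCast_mem _ s
    | add u v _ _ h2 h3 => exact Subring.add_mem _ (h2 ‹_›) (h3 ‹_›)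
    | mul u v _ _ h2 h3 => exact Subring.mul_mem _ (h2 ‹_›) (h3 ‹_›)
  · refine Pool.Agent.H11.FR.ordOf_le x _ (fun z => ?_) (Algebra.self_mem_adjoin_singleton ℤ x)
    obtain ⟨n, rfl⟩ := Rat.ringOfIntegersEquiv.symm.surjective z
    rw [eq_intCast, map_intCast]
    exact intCast_mem _ n

theorem idxZ_eq_ordIdx {Ω : Type} [Field Ω] [CharZero Ω] (x : Ω) :
    idxZ x = Pool.Agent.H11.FR.ordIdx ℚ x := by
  unfold idxZ Pool.Agent.H11.FR.ordIdx
  rw [adj_eq]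
  rfl

private theorem max_ideal (P : Ideal (𝓞 ℚ)) (hP : P.IsMaximal) :
    ∃ ℓ : ℕ, ℓ.Prime ∧ P = Ideal.span {(ℓ : 𝓞 ℚ)} := by
  have hbot : P ≠ ⊥ := by
    intro h
    rw [h] at hP
    have h1 : IsField (𝓞 ℚ) := Ring.isField_iff_maximal_bot.mpr hP
    exact RingOfIntegers.not_isField ℚ h1
  set e := Rat.ringOfIntegersEquiv with he
  have hmap : (P.map (e : 𝓞 ℚ →+* ℤ)).IsMaximal :=
    Ideal.map_isMaximal_of_equiv e
  obtain ⟨n, hn⟩ := (IsPrincipalIdealRing.principal (P.map (e : 𝓞 ℚ →+* ℤ))).principal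
  have hn' : P.map (e : 𝓞 ℚ →+* ℤ) = Ideal.span {n} := hn
  have hP2 : P = Ideal.span {((n.natAbs : ℕ) : 𝓞 ℚ)} := by
    have h2 : P = (P.map (e : 𝓞 ℚ →+* ℤ)).map (e.symm : ℤ →+* 𝓞 ℚ) := by
      rw [Ideal.map_map]
      simp
    rw [h2, hn', Ideal.map_span, Set.image_singleton]
    have h3 : (e.symm : ℤ →+* 𝓞 ℚ) n = (n : 𝓞 ℚ) := eq_intCast _ n
    rw [h3]
    have h4 : Associated (n : 𝓞 ℚ) ((n.natAbs : ℕ) : 𝓞 ℚ) := by
      rcases Int.natAbs_eq n with h | h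
      · have h5 : ((n.natAbs : ℕ) : 𝓞 ℚ) = (n : 𝓞 ℚ) := by
          rw [← Int.cast_natCast (R := 𝓞 ℚ) n.natAbs, ← h]
        rw [h5]
      · have h5 : ((n.natAbs : ℕ) : 𝓞 ℚ) = -(n : 𝓞 ℚ) := by
          rw [← Int.cast_natCast (R := 𝓞 ℚ) n.natAbs, ← Int.cast_neg]
          congr 1
          omega
        rw [h5]
        exact (Associated.refl _).neg_right
    exact Ideal.span_singleton_eq_span_singleton.2 h4
  refine ⟨n.natAbs, ?_, hP2⟩
  rw [hn'] at hmap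
  have hn0 : n ≠ 0 := by
    rintro rfl
    rw [hP2] at hbot
    simp at hbot
  have h6 : Prime n := (Ideal.span_singleton_prime hn0).1 hmap.isPrime
  exact Int.prime_iff_natAbs_prime.1 h6

private theorem mem_span_iff (a n : ℤ) :
    (a : 𝓞 ℚ) ∈ Ideal.span {(n : 𝓞 ℚ)} ↔ n ∣ a := by
  rw [Ideal.mem_span_singleton]
  constructor
  · rintro ⟨c, hc⟩
    refine ⟨Rat.ringOfIntegersEquiv c, ?_⟩
    have h1 := congrArg Rat.ringOfIntegersEquiv hc
    rw [map_mul, map_intCast, map_intCast] at h1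
    exact_mod_cast h1
  · rintro ⟨c, rfl⟩
    exact ⟨(c : 𝓞 ℚ), by push_cast; rfl⟩

theorem idxZ_bound {Ω : Type} [Field Ω] [CharZero Ω] [Algebra.IsAlgebraic ℚ Ω] (b m : ℕ)
    (hb : 2 ≤ b) (hs : Squarefree b) (hm : 1 ≤ m) (W : Finset ℕ)
    (hW : ∀ p ∈ W, p.Prime ∧ p ∣ m ∧ ¬ p ^ 2 ∣ m)
    (hgood : ∀ p : ℕ, p.Prime → p ∣ m → p ∉ W → ¬ p ^ 2 ∣ b ^ (p - 1) - 1)
    (x : Ω) (hx : x ^ m = (b : Ω)) :
    Real.log (idxZ x) / m ≤ ∑ p ∈ W, Real.log p / p := by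
  rw [idxZ_eq_ordIdx]
  have hpos : 1 ≤ b := by omega
  have key : ∀ (P : Ideal (𝓞 ℚ)), P.IsMaximal → ∃ ℓ : ℕ, ℓ.Prime ∧
      (∀ a : ℤ, (a : 𝓞 ℚ) ∈ P ↔ (ℓ : ℤ) ∣ a) ∧ (∀ a : ℤ, (a : 𝓞 ℚ) ∈ P ^ 2 ↔ (ℓ : ℤ) ^ 2 ∣ a) := by
    intro P hP
    obtain ⟨ℓ, hℓ, hPℓ⟩ := max_ideal P hP
    refine ⟨ℓ, hℓ, fun a => ?_, fun a => ?_⟩
    · rw [hPℓ]
      have := mem_span_iff a ℓ
      simpa using this
    · rw [hPℓ, Ideal.span_singleton_pow]
      have := mem_span_iff a ((ℓ : ℤ) ^ 2)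
      simpa using this
  have hbu : ¬ IsUnit ((b : ℕ) : 𝓞 ℚ) := by
    intro h
    have h1 := h.map Rat.ringOfIntegersEquiv
    rw [map_natCast] at h1
    have h2 := Int.isUnit_iff.1 h1
    omega
  have h := Pool.Agent.H11.FR.ordIdx_bound (K := ℚ) (Ω := Ω) ((b : ℕ) : 𝓞 ℚ) hbu m hm W ?_ ?_ x ?_
  · rw [Module.finrank_self, Nat.cast_one, one_mul] at h
    exact h
  · intro p hp
    obtain ⟨h1, h2, h3⟩ := hW p hp
    refine ⟨h1, h2, h3, fun P hP h4 => ?_⟩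
    obtain ⟨ℓ, hℓ, -, hk⟩ := key P hP
    have h5 : ((p : ℤ) : 𝓞 ℚ) ∈ P ^ 2 := by
      rw [Int.cast_natCast]
      exact h4
    rw [hk] at h5
    have h6 : ℓ ^ 2 ∣ p := by exact_mod_cast h5
    have h7 : ℓ * ℓ ∣ p := by rwa [pow_two] at h6
    have h8 := h1.prime.irreducible.squarefree ℓ h7
    exact hℓ.one_lt.ne' (Nat.isUnit_iff.1 h8)
  · intro P hP
    obtain ⟨ℓ, hℓ, hk1, hk⟩ := key P hP
    constructor
    · intro h4
      have h5 : ((b : ℤ) : 𝓞 ℚ) ∈ P ^ 2 := by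
        rw [Int.cast_natCast]
        exact h4
      rw [hk] at h5
      have h6 : ℓ ^ 2 ∣ b := by exact_mod_cast h5
      rw [pow_two] at h6
      exact hℓ.one_lt.ne' (Nat.isUnit_iff.1 (hs ℓ h6))
    · intro hbP p hp hpm hpW hpP c hc
      have h5 : ((p : ℤ) : 𝓞 ℚ) ∈ P := by
        rw [Int.cast_natCast]
        exact hpP
      rw [hk1] at h5
      have h6 : ℓ = p := (Nat.prime_dvd_prime_iff_eq hℓ hp).1 (by exact_mod_cast h5)
      subst h6
      obtain ⟨n, rfl⟩ := Rat.ringOfIntegersEquiv.symm.surjective c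
      rw [eq_intCast] at hc
      have h7 : (((b : ℤ) - n ^ ℓ : ℤ) : 𝓞 ℚ) ∈ P ^ 2 := by
        push_cast
        exact hc
      rw [hk] at h7
      have h8 : ¬ (ℓ : ℤ) ∣ (b : ℤ) := by
        intro h9
        apply hbP
        have := (hk1 (b : ℤ)).2 h9
        rwa [Int.cast_natCast] at this
      apply hgood ℓ hℓ hpm hpW
      have h9 : ((b : ℤ) ^ (ℓ - 1) - 1) = ((b ^ (ℓ - 1) - 1 : ℕ) : ℤ) := by
        rw [Nat.cast_sub (Nat.one_le_pow _ _ hpos)]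
        push_cast
        rfl
      have h10 : (ℓ : ℤ) ^ 2 ∣ (b : ℤ) ^ (ℓ - 1) - 1 := by
        -- `b ≡ n ^ ℓ` modulo `ℓ ^ 2`, `n ^ (ℓ (ℓ - 1)) ≡ 1`
        have hn : ¬ (ℓ : ℤ) ∣ n := by
          intro h11
          apply h8
          have h12 : (ℓ : ℤ) ∣ (b : ℤ) - n ^ ℓ := dvd_trans (dvd_pow_self _ two_ne_zero) h7
          have h13 : (ℓ : ℤ) ∣ n ^ ℓ := dvd_pow h11 hℓ.ne_zero
          have h14 := dvd_add h12 h13
          rwa [sub_add_cancel] at h14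
        have h15 : (b : ℤ) ≡ n ^ ℓ [ZMOD ((ℓ : ℤ) ^ 2)] :=
          (Int.modEq_iff_dvd.2 h7).symm
        have h16 : (b : ℤ) ^ (ℓ - 1) ≡ 1 [ZMOD ((ℓ : ℤ) ^ 2)] := by
          have h17 := h15.pow (ℓ - 1)
          refine h17.trans ?_
          rw [← pow_mul]
          have h18 : Nat.totient (ℓ ^ 2) = ℓ * (ℓ - 1) := by
            rw [Nat.totient_prime_pow hℓ (by norm_num)]
            norm_num
          rw [← h18]
          have hcop : IsCoprime ((ℓ ^ 2 : ℕ) : ℤ) n := by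
            push_cast
            exact ((Nat.prime_iff_prime_int.1 hℓ).irreducible.coprime_iff_not_dvd.2 hn).pow_left
          obtain ⟨u, hu⟩ := (ZMod.coe_int_isUnit_iff_isCoprime n (ℓ ^ 2)).2 hcop
          have h20 := ZMod.pow_totient u
          have h21 : ((n ^ Nat.totient (ℓ ^ 2) : ℤ) : ZMod (ℓ ^ 2)) = ((1 : ℤ) : ZMod (ℓ ^ 2)) := by
            push_cast
            rw [← hu, ← Units.val_pow_eq_pow_val, h20, Units.val_one]
          have h22 := (ZMod.intCast_eq_intCast_iff _ _ _).1 h21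
          push_cast at h22
          exact h22
        exact (Int.modEq_iff_dvd.1 h16.symm)
      rw [h9] at h10
      exact_mod_cast h10
  · rw [hx]
    simp

end Pool.Agent.H69.BD
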