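import Pool.Agent.H69.BD.Vidx
import Pool.Agent.H72.PB.OrbB

/-!
# THEOREM V (MP_187c26_nt): small exponents, families of fields, prime exponents

`InTame b M c L`: every finite subset of `L` lies in a field `K(x)`, `x ^ m = b`, with `m ≤ M` or `log idxZ x ≤ c m`.
`vfam`: the theorem over these fields. `vprime`: the theorem over `K(x)`, `x ^ p = b`, for all primes `p`.
-/

set_option autoImplicit false

open IntermediateField NumberField Polynomial

namespace Pool.Agent.H69.BD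

open Pool.Agent.H72.BD

theorem degQ_mul {Ω : Type} [Field Ω] [CharZero Ω] (x a : Ω) (hx : IsIntegral ℚ x)
    (ha : IsIntegral ℚ a) :
    (minpoly ℚ a).natDegree ≤ (minpoly ℚ x).natDegree * (minpoly ℚ⟮x⟯ a).natDegree := by
  have : FiniteDimensional ℚ ℚ⟮x⟯ := adjoin.finiteDimensional hx
  have haK : IsIntegral ℚ⟮x⟯ a := ha.tower_top
  have : FiniteDimensional ℚ⟮x⟯ ℚ⟮x⟯⟮a⟯ := adjoin.finiteDimensional haK
  have : FiniteDimensional ℚ ℚ⟮x⟯⟮a⟯ := FiniteDimensional.trans ℚ ℚ⟮x⟯ ℚ⟮x⟯⟮a⟯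
  have h2 : minpoly ℚ (AdjoinSimple.gen ℚ⟮x⟯ a) = minpoly ℚ a := by
    have h6 := minpoly.algebraMap_eq (A := ℚ) (B := ℚ⟮x⟯⟮a⟯) (B' := Ω)
      (algebraMap ℚ⟮x⟯⟮a⟯ Ω).injective (AdjoinSimple.gen ℚ⟮x⟯ a)
    rw [← h6]
    rfl
  rw [← h2, ← adjoin.finrank hx, ← adjoin.finrank haK, Module.finrank_mul_finrank]
  exact minpoly.natDegree_le _

/-- The theorem over `K(x)` for `x ^ m = b`, `m ≤ M` or `log idxZ x ≤ c m`. -/
theorem vtame (b : ℕ) (hb : 2 ≤ b) (hs : Squarefree b) (D M : ℕ) : ∃ c : ℝ, 0 < c ∧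
    ∀ (K Ω : Type) [Field K] [NumberField K] [Field Ω] [CharZero Ω] [Algebra K Ω]
      [Algebra.IsAlgebraic K Ω] (m : ℕ) (x : Ω), 1 ≤ m →
      x ^ m = (b : Ω) → (m ≤ M ∨ Real.log (idxZ x) / m ≤ c) → ∀ a : Ω, a ≠ 0 →
      Module.finrank ℚ K * (minpoly K⟮x⟯ a).natDegree ≤ D → absLogHeight₁ a < c →
      ∃ k : ℕ, 1 ≤ k ∧ ∃ j : ℤ, a ^ k = (b : Ω) ^ j := by
  obtain ⟨c₁, hc₁, h₁⟩ := vmain b hb hs D
  obtain ⟨c₂, hc₂, h₂⟩ := north (M * D)
  refine ⟨min c₁ c₂, lt_min hc₁ hc₂, ?_⟩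
  intro K Ω _ _ _ _ _ _ m x hm hx hor a ha0 hdeg hh
  rcases hor with hM | hidx
  · have : Algebra.IsAlgebraic ℚ Ω := Algebra.IsAlgebraic.trans ℚ K Ω
    have hai : IsIntegral ℚ a := Algebra.IsIntegral.isIntegral a
    have hxi := integral_rad b m hm x hx
    let σ : Ω →ₐ[ℚ] ℂ := IsAlgClosed.lift
    have h3 : (minpoly ℚ (σ a)).natDegree ≤ M * D := by
      rw [minpoly.algHom_eq σ σ.injective]
      refine (degQ_mul x a hxi hai).trans ?_
      rw [minpoly_rad b m hb hs hm x hx, natDegree_X_pow_sub_C]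
      exact Nat.mul_le_mul hM ((degQ_le K Ω x a hxi hai).trans hdeg)
    have h6 : absLogHeight₁ (σ a) < c₂ := by
      have := height_comp σ.toRingHom a hai
      have h7 : σ.toRingHom a = σ a := rfl
      rw [h7] at this
      rw [this]
      exact hh.trans_le (min_le_right _ _)
    obtain ⟨n, hn, h8⟩ := h₂ (σ a) (hai.map σ) h3 (by rw [Ne, map_eq_zero]; exact ha0) h6
    refine ⟨n, hn, 0, ?_⟩
    rw [zpow_zero]
    apply σ.injective
    rw [map_pow, map_one]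
    exact h8
  · exact h₁ K Ω m x hm hx (hidx.trans (min_le_left _ _)) a ha0 hdeg (hh.trans_le (min_le_left _ _))

section

variable {K Ω : Type} [Field K] [Field Ω] [CharZero Ω] [Algebra K Ω]

/-- Every finite subset of `L` lies in a field `K(x)`, `x ^ m = b`, with `m ≤ M` or `log idxZ x ≤ c m`. -/
def InTame (b M : ℕ) (c : ℝ) (L : IntermediateField K Ω) : Prop :=
  ∀ S : Finset Ω, (∀ s ∈ S, s ∈ L) → ∃ (m : ℕ) (x : Ω), 1 ≤ m ∧ x ^ m = (b : Ω) ∧
    (m ≤ M ∨ Real.log (idxZ x) / m ≤ c) ∧ ∀ s ∈ S, s ∈ K⟮x⟯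

omit [CharZero Ω] in
theorem deg_le_of_coeff (L N : IntermediateField K Ω) (a : Ω) (ha : IsIntegral L a)
    (h : ∀ i, (((minpoly L a).coeff i : L) : Ω) ∈ N) :
    (minpoly N a).natDegree ≤ (minpoly L a).natDegree := by
  have hl : (minpoly L a).map (algebraMap L Ω) ∈ lifts (algebraMap N Ω) := by
    rw [lifts_iff_coeff_lifts]
    intro i
    rw [coeff_map]
    exact ⟨⟨_, h i⟩, rfl⟩
  obtain ⟨q, hq, hqd⟩ := exists_natDegree_eq_of_mem_lifts hl
  rw [natDegree_map] at hqd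
  rw [← hqd]
  have hq0 : q ≠ 0 := by
    rintro rfl
    rw [Polynomial.map_zero] at hq
    exact map_ne_zero (f := algebraMap L Ω) (minpoly.ne_zero ha) hq.symm
  have hev : aeval a q = 0 := by
    rw [aeval_def, ← eval_map, hq, eval_map, ← aeval_def]
    exact minpoly.aeval L a
  exact natDegree_le_natDegree (minpoly.degree_le_of_ne_zero N a hq0 hev)

end

/-- The theorem over a family of fields, which contains infinite extensions. -/
theorem vfam (b : ℕ) (hb : 2 ≤ b) (hs : Squarefree b) (D M : ℕ) : ∃ c : ℝ, 0 < c ∧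
    ∀ (K Ω : Type) [Field K] [NumberField K] [Field Ω] [CharZero Ω] [Algebra K Ω]
      [Algebra.IsAlgebraic K Ω] (L : IntermediateField K Ω), InTame b M c L → ∀ a : Ω, a ≠ 0 →
      Module.finrank ℚ K * (minpoly L a).natDegree ≤ D → absLogHeight₁ a < c →
      ∃ k : ℕ, 1 ≤ k ∧ ∃ j : ℤ, a ^ k = (b : Ω) ^ j := by
  classical
  obtain ⟨c, hc, h⟩ := vtame b hb hs D M
  refine ⟨c, hc, ?_⟩
  intro K Ω _ _ _ _ _ _ L hL a ha0 hdeg hh
  have haL : IsIntegral L a := (Algebra.IsIntegral.isIntegral (R := K) a).tower_top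
  obtain ⟨m, x, hm, hx, hor, hmem⟩ := hL
    ((minpoly L a).coeffs.image fun z : L => (z : Ω)) (by
      intro s hs
      rw [Finset.mem_image] at hs
      obtain ⟨z, -, rfl⟩ := hs
      exact z.2)
  refine h K Ω m x hm hx hor a ha0 (le_trans (Nat.mul_le_mul_left _ ?_) hdeg) hh
  refine deg_le_of_coeff L K⟮x⟯ a haL fun i => ?_
  by_cases h0 : (minpoly L a).coeff i = 0
  · rw [h0, ZeroMemClass.coe_zero]
    exact zero_mem _
  · exact hmem _ (Finset.mem_image_of_mem _ (coeff_mem_coeffs h0))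

/-- The theorem over a family of fields in terms of the number of conjugates. -/
theorem vfam_dg (b : ℕ) (hb : 2 ≤ b) (hs : Squarefree b) (D M : ℕ) : ∃ c : ℝ, 0 < c ∧
    ∀ (K Ω : Type) [Field K] [NumberField K] [Field Ω] [CharZero Ω] [Algebra K Ω]
      [IsGalois K Ω] (L : IntermediateField K Ω), InTame b M c L → ∀ a : Ω, a ≠ 0 →
      Module.finrank ℚ K * Pool.Agent.H72.PB.dg L a ≤ D → absLogHeight₁ a < c →
      ∃ k : ℕ, 1 ≤ k ∧ ∃ j : ℤ, a ^ k = (b : Ω) ^ j := by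
  obtain ⟨c, hc, h⟩ := vfam b hb hs D M
  refine ⟨c, hc, ?_⟩
  intro K Ω _ _ _ _ _ _ L hL a ha0 hdeg hh
  exact h K Ω L hL a ha0
    ((Nat.mul_le_mul_left _ (Pool.Agent.H72.PB.natDegree_le_dg L a)).trans hdeg) hh

/-- The theorem over `K(x)`, `x ^ p = b`, for all primes `p`. -/
theorem vprime (b : ℕ) (hb : 2 ≤ b) (hs : Squarefree b) (D : ℕ) : ∃ c : ℝ, 0 < c ∧
    ∀ (K Ω : Type) [Field K] [NumberField K] [Field Ω] [CharZero Ω] [Algebra K Ω]
      [Algebra.IsAlgebraic K Ω] (p : ℕ) (x : Ω), p.Prime →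
      x ^ p = (b : Ω) → ∀ a : Ω, a ≠ 0 →
      Module.finrank ℚ K * (minpoly K⟮x⟯ a).natDegree ≤ D → absLogHeight₁ a < c →
      ∃ k : ℕ, 1 ≤ k ∧ ∃ j : ℤ, a ^ k = (b : Ω) ^ j := by
  obtain ⟨c₁, hc₁, h₁⟩ := vmain b hb hs D
  have hlim : Filter.Tendsto (fun p : ℕ => Real.log (p : ℝ) / (p : ℝ)) Filter.atTop (nhds 0) := by
    have h1 := Real.isLittleO_log_id_atTop.tendsto_div_nhds_zero
    exact h1.comp tendsto_natCast_atTop_atTop
  obtain ⟨M, hM⟩ := Filter.eventually_atTop.1 (hlim.eventually (gt_mem_nhds hc₁))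
  obtain ⟨c₂, hc₂, h₂⟩ := vtame b hb hs D M
  refine ⟨min c₁ c₂, lt_min hc₁ hc₂, ?_⟩
  intro K Ω _ _ _ _ _ _ p x hp hx a ha0 hdeg hh
  have : Algebra.IsAlgebraic ℚ Ω := Algebra.IsAlgebraic.trans ℚ K Ω
  rcases le_or_gt p M with hpM | hpM
  · exact h₂ K Ω p x hp.one_lt.le hx (Or.inl hpM) a ha0 hdeg (hh.trans_le (min_le_right _ _))
  · refine h₁ K Ω p x hp.one_lt.le hx ?_ a ha0 hdeg (hh.trans_le (min_le_left _ _))
    refine (idxZ_bound b p hb hs hp.one_lt.le {p} ?_ ?_ x hx).trans ?_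
    · intro q hq
      rw [Finset.mem_singleton] at hq
      subst hq
      refine ⟨hp, dvd_rfl, fun h => ?_⟩
      rw [pow_two] at h
      exact hp.one_lt.ne' (Nat.isUnit_iff.1 (hp.prime.irreducible.squarefree q h))
    · intro q hq hqp hqW
      exact absurd ((Nat.prime_dvd_prime_iff_eq hq hp).1 hqp)
        (fun h => hqW (Finset.mem_singleton.2 h))
    · rw [Finset.sum_singleton]
      exact (hM p hpM.le).le

end Pool.Agent.H69.BD
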