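import Pool.Agent.H72.BD.Def

/-!
# THEOREM V (MP_187c26_nt), chapter S6: the degree of `b ^ (1 / (W m))` over `ℚ(b ^ (1 / W))`

Text: `y ^ (W m) = b`, `β = y ^ m`, `k = ℚ(β)`. `[ℚ(y) : ℚ] = W m` (`irr`), `[k : ℚ] ≤ W`. If `p ≠ 0` in `k[X]` of degree
`< m` vanishes at `y`, then `[k(y) : k] < m`, so `[k(y) : ℚ] < W m`, contradiction as `ℚ(y) ≤ k(y)`.
-/

set_option autoImplicit false

open Polynomial

namespace Pool.Agent.H69.BD

theorem minpoly_root (b n : ℕ) (hb : 2 ≤ b) (hs : Squarefree b) (hn : 1 ≤ n) (y : ℂ)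
    (hy : y ^ n = b) : minpoly ℚ y = X ^ n - C (b : ℚ) := by
  symm
  refine minpoly.eq_of_irreducible_of_monic (Pool.Agent.H72.BD.irr b n hb hs hn) ?_
    (monic_X_pow_sub_C _ (by omega))
  simp [hy]

theorem deg_root (b m W : ℕ) (hb : 2 ≤ b) (hs : Squarefree b) (hm : 1 ≤ m) (hW : 1 ≤ W) (y : ℂ)
    (hy : y ^ (W * m) = b) (p : (IntermediateField.adjoin ℚ {y ^ m} : IntermediateField ℚ ℂ)[X])
    (hp : p.natDegree < m) (h0 : aeval y p = 0) : p = 0 := by
  by_contra hne
  set k := IntermediateField.adjoin ℚ {y ^ m} with hk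
  have hint : IsIntegral ℚ y := ⟨X ^ (W * m) - C (b : ℚ), monic_X_pow_sub_C _
    (Nat.mul_pos hW hm).ne', by simp [hy]⟩
  have hintβ : IsIntegral ℚ (y ^ m) := hint.pow m
  have hfk : FiniteDimensional ℚ k := IntermediateField.adjoin.finiteDimensional hintβ
  have hdk : Module.finrank ℚ k = W := by
    rw [hk, IntermediateField.adjoin.finrank hintβ,
      minpoly_root b W hb hs hW (y ^ m) (by rw [← pow_mul, mul_comm, hy]), natDegree_X_pow_sub_C]
  have hinty : IsIntegral k y := hint.tower_top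
  have h1 : (minpoly k y).natDegree < m := lt_of_le_of_lt (natDegree_le_natDegree
    (minpoly.degree_le_of_ne_zero k y hne h0)) hp
  set L := IntermediateField.adjoin k {y} with hL
  have hfL : FiniteDimensional k L := IntermediateField.adjoin.finiteDimensional hinty
  have h2 : Module.finrank k L < m := by
    rw [hL, IntermediateField.adjoin.finrank hinty]
    exact h1
  have h3 : Module.finrank ℚ L = W * Module.finrank k L := by
    rw [← hdk, Module.finrank_mul_finrank]
  have hfQ : FiniteDimensional ℚ L := FiniteDimensional.trans ℚ k L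
  have h4 : (minpoly ℚ y).natDegree ≤ Module.finrank ℚ L := by
    have h5 : minpoly ℚ (IntermediateField.AdjoinSimple.gen k y) = minpoly ℚ y := by
      have h6 := minpoly.algebraMap_eq (A := ℚ) (B := L) (B' := ℂ) (algebraMap L ℂ).injective
        (IntermediateField.AdjoinSimple.gen k y)
      rw [← h6]
      rfl
    rw [← h5]
    exact minpoly.natDegree_le _
  rw [minpoly_root b (W * m) hb hs (Nat.mul_pos hW hm) y hy, natDegree_X_pow_sub_C, h3] at h4
  have h5 := Nat.le_of_mul_le_mul_left h4 (by omega)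
  omega

end Pool.Agent.H69.BD
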