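import Pool.Agent.H69.BD.MainQ

/-!
# THEOREM V (MP_187c26_nt): the theorem in a fixed algebraic closure

`idxZ x` is the index of `ℤ[x]` in the ring of integers of `ℚ(x)`. `vmainQ` is the theorem over `ℚ(x)`, `vmain` over
`K(x)`, `K` a number field; the constant depends only on `b` and on a bound for `[K : ℚ] [K(x, a) : K(x)]`.
-/

set_option autoImplicit false

open IntermediateField NumberField Polynomial

namespace Pool.Agent.H69.BD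

open Pool.Agent.H72.BD

section

variable {Ω : Type} [Field Ω] [CharZero Ω]

/-- The index of `ℤ[x]` in the ring of integers of `ℚ(x)`. -/
noncomputable def idxZ (x : Ω) : ℕ :=
  (Algebra.adjoin ℤ ({x} : Set Ω)).toSubring.toAddSubgroup.relIndex
    (ℚ⟮x⟯.toSubalgebra.toSubring ⊓ (integralClosure ℤ Ω).toSubring).toAddSubgroup

theorem idxZ_eq (x : Ω) :
    idxZ x = (zx (AdjoinSimple.gen ℚ x)).relIndex (ints ℚ⟮x⟯) := by
  set f : ℚ⟮x⟯ →+ Ω := (ℚ⟮x⟯.val : ℚ⟮x⟯ →+ Ω) with hf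
  have hinj : Function.Injective f := ℚ⟮x⟯.val.injective
  have h1 : (Algebra.adjoin ℤ ({x} : Set Ω)).toSubring.toAddSubgroup =
      (zx (AdjoinSimple.gen ℚ x)).map f := by
    have h2 : (Algebra.adjoin ℤ ({AdjoinSimple.gen ℚ x} : Set ℚ⟮x⟯)).map
        (ℚ⟮x⟯.val.restrictScalars ℤ) = Algebra.adjoin ℤ ({x} : Set Ω) := by
      rw [AlgHom.map_adjoin, Set.image_singleton]
      rfl
    ext y
    constructor
    · intro hy
      have hy' : y ∈ Algebra.adjoin ℤ ({x} : Set Ω) := hy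
      rw [← h2] at hy'
      obtain ⟨z, hz, rfl⟩ := hy'
      exact ⟨z, hz, rfl⟩
    · rintro ⟨z, hz, rfl⟩
      have : (ℚ⟮x⟯.val.restrictScalars ℤ) z ∈ (Algebra.adjoin ℤ
          ({AdjoinSimple.gen ℚ x} : Set ℚ⟮x⟯)).map (ℚ⟮x⟯.val.restrictScalars ℤ) := ⟨z, hz, rfl⟩
      rw [h2] at this
      exact this
  have h3 : (ℚ⟮x⟯.toSubalgebra.toSubring ⊓ (integralClosure ℤ Ω).toSubring).toAddSubgroup =
      (ints ℚ⟮x⟯).map f := by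
    ext y
    constructor
    · rintro ⟨hy1, hy2⟩
      refine ⟨⟨y, hy1⟩, ?_, rfl⟩
      have h4 : IsIntegral ℤ y := hy2
      exact (isIntegral_algHom_iff (ℚ⟮x⟯.val.restrictScalars ℤ) ℚ⟮x⟯.val.injective).1 h4
    · rintro ⟨z, hz, rfl⟩
      refine ⟨z.2, ?_⟩
      have h4 : IsIntegral ℤ z := hz
      exact h4.map (ℚ⟮x⟯.val.restrictScalars ℤ)
  unfold idxZ
  rw [h1, h3, AddSubgroup.relIndex_map_map_of_injective _ _ hinj]

theorem integral_rad (b m : ℕ) (hm : 1 ≤ m) (x : Ω) (hx : x ^ m = (b : Ω)) : IsIntegral ℚ x := by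
  refine IsIntegral.of_pow (by omega : 0 < m) ?_
  rw [hx]
  have : (b : Ω) = algebraMap ℚ Ω (b : ℚ) := by simp
  rw [this]
  exact isIntegral_algebraMap

theorem minpoly_rad (b m : ℕ) (hb : 2 ≤ b) (hs : Squarefree b) (hm : 1 ≤ m) (x : Ω)
    (hx : x ^ m = (b : Ω)) : minpoly ℚ x = X ^ m - C (b : ℚ) := by
  symm
  refine minpoly.eq_of_irreducible_of_monic (irr b m hb hs hm) ?_
    (monic_X_pow_sub_C _ (by omega))
  simp [hx]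

theorem height_comp (σ : Ω →+* ℂ) (a : Ω) (ha : IsIntegral ℚ a) :
    absLogHeight₁ (σ a) = absLogHeight₁ a := by
  have : FiniteDimensional ℚ ℚ⟮a⟯ := adjoin.finiteDimensional ha
  have : NumberField ℚ⟮a⟯ := {}
  have h1 := Pool.Agent.H4.RR.absLogHeight_eq ℚ⟮a⟯ Ω (ℚ⟮a⟯.val : ℚ⟮a⟯ →+* Ω)
    (AdjoinSimple.gen ℚ a)
  have h2 := Pool.Agent.H4.RR.absLogHeight_eq ℚ⟮a⟯ ℂ (σ.comp (ℚ⟮a⟯.val : ℚ⟮a⟯ →+* Ω))
    (AdjoinSimple.gen ℚ a)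
  have h3 : (ℚ⟮a⟯.val : ℚ⟮a⟯ →+* Ω) (AdjoinSimple.gen ℚ a) = a := rfl
  have h4 : (σ.comp (ℚ⟮a⟯.val : ℚ⟮a⟯ →+* Ω)) (AdjoinSimple.gen ℚ a) = σ a := rfl
  rw [h3] at h1
  rw [h4] at h2
  rw [h1, h2]

end

theorem vmainQ (b : ℕ) (hb : 2 ≤ b) (hs : Squarefree b) (D : ℕ) : ∃ c : ℝ, 0 < c ∧
    ∀ (Ω : Type) [Field Ω] [CharZero Ω] [Algebra.IsAlgebraic ℚ Ω] (m : ℕ) (x : Ω), 1 ≤ m →
      x ^ m = (b : Ω) → Real.log (idxZ x) / m ≤ c → ∀ a : Ω, a ≠ 0 →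
      (minpoly ℚ⟮x⟯ a).natDegree ≤ D → absLogHeight₁ a < c →
      ∃ k : ℕ, 1 ≤ k ∧ ∃ j : ℤ, a ^ k = (b : Ω) ^ j := by
  obtain ⟨c, hc, h⟩ := mainQ b hb D
  refine ⟨c, hc, ?_⟩
  intro Ω _ _ _ m x hm hx hidx a ha0 hdeg hh
  have hxi := integral_rad b m hm x hx
  have : FiniteDimensional ℚ ℚ⟮x⟯ := adjoin.finiteDimensional hxi
  have : NumberField ℚ⟮x⟯ := {}
  have hrad : Rad b m ℚ⟮x⟯ (AdjoinSimple.gen ℚ x) := by
    refine ⟨hb, hs, ?_, ?_⟩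
    · apply Subtype.ext
      push_cast
      exact hx
    · rw [adjoin.finrank hxi, minpoly_rad b m hb hs hm x hx, natDegree_X_pow_sub_C]
  let σ : Ω →ₐ[ℚ] ℂ := IsAlgClosed.lift
  let : Algebra ℚ⟮x⟯ ℂ := (σ.toRingHom.comp (algebraMap ℚ⟮x⟯ Ω)).toAlgebra
  let τ : Ω →ₐ[ℚ⟮x⟯] ℂ := { σ.toRingHom with commutes' := fun r => rfl }
  have hai : IsIntegral ℚ a := Algebra.IsIntegral.isIntegral a
  have h1 : IsIntegral ℚ (σ a) := hai.map σ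
  have h2 : (minpoly ℚ⟮x⟯ (σ a)).natDegree ≤ D := by
    have h3 : minpoly ℚ⟮x⟯ (τ a) = minpoly ℚ⟮x⟯ a := minpoly.algHom_eq τ τ.injective a
    have h4 : τ a = σ a := rfl
    rw [← h4, h3]
    exact hdeg
  have h5 : ((zx (AdjoinSimple.gen ℚ x)).relIndex (ints ℚ⟮x⟯) : ℝ) ≤ Real.exp (c * m) := by
    rw [← idxZ_eq]
    rcases Nat.eq_zero_or_pos (idxZ x) with h0 | h0
    · rw [h0, Nat.cast_zero]
      exact (Real.exp_pos _).le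
    · have hmpos : (0 : ℝ) < m := by exact_mod_cast hm
      rw [div_le_iff₀ hmpos] at hidx
      exact (Real.log_le_iff_le_exp (by exact_mod_cast h0)).1 hidx
  have h6 : absLogHeight₁ (σ a) < c := by
    have := height_comp σ.toRingHom a hai
    have h7 : σ.toRingHom a = σ a := rfl
    rw [h7] at this
    rw [this]
    exact hh
  obtain ⟨n, r, s, hn, hfin⟩ := h m ℚ⟮x⟯ (AdjoinSimple.gen ℚ x) hrad (σ a) h1
    (by rw [Ne, map_eq_zero]; exact ha0) h2 h5 h6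
  have hb0 : (b : Ω) ≠ 0 := by exact_mod_cast (by omega : b ≠ 0)
  refine ⟨n, hn, (r : ℤ) - s, ?_⟩
  have h8 : a ^ n * (b : Ω) ^ s = (b : Ω) ^ r := by
    apply σ.injective
    rw [map_mul, map_pow, map_pow, map_pow, map_natCast]
    exact hfin
  rw [zpow_sub₀ hb0, zpow_natCast, zpow_natCast, eq_div_iff (pow_ne_zero _ hb0)]
  exact h8

/-- `[ℚ(x, a) : ℚ(x)] ≤ [K : ℚ] [K(x, a) : K(x)]`. -/
theorem degQ_le (K Ω : Type) [Field K] [NumberField K] [Field Ω] [CharZero Ω] [Algebra K Ω]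
    (x a : Ω) (hx : IsIntegral ℚ x) (ha : IsIntegral ℚ a) :
    (minpoly ℚ⟮x⟯ a).natDegree ≤ Module.finrank ℚ K * (minpoly K⟮x⟯ a).natDegree := by
  have hxK : IsIntegral K x := hx.tower_top
  have : FiniteDimensional ℚ ℚ⟮x⟯ := adjoin.finiteDimensional hx
  have : FiniteDimensional K K⟮x⟯ := adjoin.finiteDimensional hxK
  have : FiniteDimensional ℚ K⟮x⟯ := FiniteDimensional.trans ℚ K K⟮x⟯
  have haK : IsIntegral K⟮x⟯ a := (ha.tower_top (A := K)).tower_top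
  have : FiniteDimensional K⟮x⟯ K⟮x⟯⟮a⟯ := adjoin.finiteDimensional haK
  have hle : ∀ z ∈ ℚ⟮x⟯, z ∈ K⟮x⟯ := by
    intro z hz
    have h1 : ℚ⟮x⟯ ≤ K⟮x⟯.restrictScalars ℚ := by
      rw [adjoin_simple_le_iff]
      exact mem_adjoin_simple_self K x
    exact h1 hz
  let ι : ℚ⟮x⟯ →+* K⟮x⟯ :=
    { toFun := fun z => ⟨z.1, hle z.1 z.2⟩
      map_one' := rfl
      map_mul' := fun _ _ => rfl
      map_zero' := rfl
      map_add' := fun _ _ => rfl }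
  let : Algebra ℚ⟮x⟯ K⟮x⟯ := ι.toAlgebra
  have : IsScalarTower ℚ⟮x⟯ K⟮x⟯ Ω := IsScalarTower.of_algebraMap_eq fun z => rfl
  have : IsScalarTower ℚ ℚ⟮x⟯ K⟮x⟯ := IsScalarTower.of_algebraMap_eq fun z => by
    apply Subtype.ext
    simp
  have : FiniteDimensional ℚ⟮x⟯ K⟮x⟯ := FiniteDimensional.right ℚ ℚ⟮x⟯ K⟮x⟯
  -- `[K(x) : ℚ(x)] ≤ [K : ℚ]`
  have h1 : Module.finrank ℚ ℚ⟮x⟯ * Module.finrank ℚ⟮x⟯ K⟮x⟯ =
      Module.finrank ℚ K * Module.finrank K K⟮x⟯ := by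
    rw [Module.finrank_mul_finrank, Module.finrank_mul_finrank]
  have h2 : Module.finrank K K⟮x⟯ ≤ Module.finrank ℚ ℚ⟮x⟯ := by
    rw [adjoin.finrank hxK, adjoin.finrank hx]
    have h3 := minpoly.dvd_map_of_isScalarTower ℚ K x
    have h4 := natDegree_le_of_dvd h3 (map_ne_zero (minpoly.ne_zero hx))
    rwa [natDegree_map] at h4
  have h5 : Module.finrank ℚ⟮x⟯ K⟮x⟯ ≤ Module.finrank ℚ K := by
    have hpos : 0 < Module.finrank ℚ ℚ⟮x⟯ := Module.finrank_pos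
    refine Nat.le_of_mul_le_mul_left ?_ hpos
    rw [h1, mul_comm]
    exact Nat.mul_le_mul_right _ h2
  -- `[ℚ(x, a) : ℚ(x)] ≤ [K(x, a) : ℚ(x)]`
  have : IsScalarTower ℚ⟮x⟯ K⟮x⟯ K⟮x⟯⟮a⟯ := IsScalarTower.of_algebraMap_eq fun z => rfl
  have : IsScalarTower ℚ⟮x⟯ K⟮x⟯⟮a⟯ Ω := IsScalarTower.of_algebraMap_eq fun z => rfl
  have : FiniteDimensional ℚ⟮x⟯ K⟮x⟯⟮a⟯ := FiniteDimensional.trans ℚ⟮x⟯ K⟮x⟯ K⟮x⟯⟮a⟯
  have h6 : minpoly ℚ⟮x⟯ (AdjoinSimple.gen K⟮x⟯ a) = minpoly ℚ⟮x⟯ a := by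
    have h7 := minpoly.algebraMap_eq (A := ℚ⟮x⟯) (B := K⟮x⟯⟮a⟯) (B' := Ω)
      (algebraMap K⟮x⟯⟮a⟯ Ω).injective (AdjoinSimple.gen K⟮x⟯ a)
    rw [← h7]
    rfl
  rw [← h6]
  refine (minpoly.natDegree_le _).trans ?_
  rw [← Module.finrank_mul_finrank ℚ⟮x⟯ K⟮x⟯ K⟮x⟯⟮a⟯, adjoin.finrank haK]
  exact Nat.mul_le_mul_right _ h5

/-- **THEOREM V.** -/
theorem vmain (b : ℕ) (hb : 2 ≤ b) (hs : Squarefree b) (D : ℕ) : ∃ c : ℝ, 0 < c ∧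
    ∀ (K Ω : Type) [Field K] [NumberField K] [Field Ω] [CharZero Ω] [Algebra K Ω]
      [Algebra.IsAlgebraic K Ω] (m : ℕ) (x : Ω), 1 ≤ m →
      x ^ m = (b : Ω) → Real.log (idxZ x) / m ≤ c → ∀ a : Ω, a ≠ 0 →
      Module.finrank ℚ K * (minpoly K⟮x⟯ a).natDegree ≤ D → absLogHeight₁ a < c →
      ∃ k : ℕ, 1 ≤ k ∧ ∃ j : ℤ, a ^ k = (b : Ω) ^ j := by
  obtain ⟨c, hc, h⟩ := vmainQ b hb hs D
  refine ⟨c, hc, ?_⟩
  intro K Ω _ _ _ _ _ _ m x hm hx hidx a ha0 hdeg hh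
  have : Algebra.IsAlgebraic ℚ Ω := Algebra.IsAlgebraic.trans ℚ K Ω
  have hai : IsIntegral ℚ a := Algebra.IsIntegral.isIntegral a
  exact h Ω m x hm hx hidx a ha0
    ((degQ_le K Ω x a (integral_rad b m hm x hx) hai).trans hdeg) hh

end Pool.Agent.H69.BD
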