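import Pool.Agent.H72.BD.Def

/-!
# THEOREM V (MP_187c26_nt), chapter S6: the sizes after the base change

Text: `z ^ (W m) = b`, `W a_j + E = k_j m + p_j`, `p_j ≤ 2 E`, `(2 Q + 1) E ≤ W m`. `|z| ^ (m k_j + Q p_j) ≤
|z| ^ (W a_j) |z| ^ ((2 Q + 1) E) ≤ ρ ^ a_j b`; Cauchy–Schwarz for `(d + 1) (R + 1)` terms.
-/

set_option autoImplicit false

open Polynomial

namespace Pool.Agent.H69.BD

open Pool.Agent.H72.BD

theorem norm_ge_one (b n : ℕ) (hb : 1 ≤ b) (z : ℂ) (hz : z ^ n = b) (hn : 1 ≤ n) : 1 ≤ ‖z‖ := by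
  by_contra h
  push Not at h
  have h1 : ‖z‖ ^ n = b := by
    rw [← norm_pow, hz, Complex.norm_natCast]
  have h2 : ‖z‖ ^ n < 1 := pow_lt_one₀ (norm_nonneg _) h (by omega)
  rw [h1] at h2
  have h3 : (1 : ℝ) ≤ b := by exact_mod_cast hb
  linarith

theorem rho_eq (b m W : ℕ) (hb : 1 ≤ b) (hm : 1 ≤ m) (z : ℂ) (hz : z ^ (W * m) = b) :
    rho b m = ‖z‖ ^ W := by
  have hb0 : (0 : ℝ) ≤ b := Nat.cast_nonneg b
  have hm0 : (m : ℝ) ≠ 0 := by
    have : m ≠ 0 := by omega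
    exact_mod_cast this
  have h1 : rho b m ^ m = b := by
    rw [rho, ← Real.rpow_natCast, ← Real.rpow_mul hb0, inv_mul_cancel₀ hm0, Real.rpow_one]
  have h2 : (‖z‖ ^ W) ^ m = b := by
    rw [← pow_mul, ← norm_pow, hz, Complex.norm_natCast]
  have h3 : 0 ≤ rho b m := Real.rpow_nonneg hb0 _
  exact (pow_left_inj₀ h3 (by positivity) (by omega : m ≠ 0)).1 (h1.trans h2.symm)

theorem six_bound (b m W d R E Q : ℕ) (hb : 1 ≤ b) (hm : 1 ≤ m) (hW : 1 ≤ W)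
    (a k p : Fin (R + 1) → ℕ) (v : Fin (d + 1) → Fin (R + 1) → ℤ[X]) (z : ℂ)
    (hz : z ^ (W * m) = b) (hka : ∀ j, W * a j + E = k j * m + p j) (hpE : ∀ j, p j ≤ 2 * E)
    (hE : 2 * Q * E + E ≤ W * m) (hR : R ≤ R0 d) :
    ∑ i, ‖∑ j, (z ^ m) ^ k j * (z ^ (Q * p j) * aeval ((z ^ W) ^ Q) (v i j))‖ ≤
      b * (d + 1) * (R0 d + 1) * √(wt b m a v ((z ^ W) ^ Q)) := by
  have hz1 := norm_ge_one b (W * m) hb z hz (Nat.mul_pos hW hm)
  have hρ := rho_eq b m W hb hm z hz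
  have hzb : ‖z‖ ^ (W * m) = b := by rw [← norm_pow, hz, Complex.norm_natCast]
  have hρ0 : 0 ≤ rho b m := by rw [hρ]; positivity
  have hb0 : (0 : ℝ) ≤ b := Nat.cast_nonneg b
  set y : Fin (d + 1) → Fin (R + 1) → ℝ := fun i j =>
    rho b m ^ a j * ‖aeval ((z ^ W) ^ Q) (v i j)‖ with hy
  have hy0 : ∀ i j, 0 ≤ y i j := fun i j => by
    simp only [hy]
    positivity
  have h1 : ∀ i j, ‖(z ^ m) ^ k j * (z ^ (Q * p j) * aeval ((z ^ W) ^ Q) (v i j))‖ ≤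
      b * y i j := by
    intro i j
    rw [norm_mul, norm_mul, norm_pow, norm_pow, norm_pow, ← pow_mul, ← mul_assoc, ← pow_add, hy]
    simp only
    rw [← mul_assoc]
    refine mul_le_mul_of_nonneg_right ?_ (norm_nonneg _)
    have h2 : m * k j + Q * p j ≤ W * a j + W * m := by
      have h3 := hka j
      have h4 := Nat.mul_le_mul_left Q (hpE j)
      have h5 : m * k j = k j * m := mul_comm _ _
      have h6 : Q * (2 * E) = 2 * Q * E := by ring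
      omega
    calc ‖z‖ ^ (m * k j + Q * p j) ≤ ‖z‖ ^ (W * a j + W * m) := pow_le_pow_right₀ hz1 h2
      _ = b * rho b m ^ a j := by rw [pow_add, hzb, hρ, ← pow_mul, mul_comm]
  have h2 : ∑ i, ‖∑ j, (z ^ m) ^ k j * (z ^ (Q * p j) * aeval ((z ^ W) ^ Q) (v i j))‖ ≤
      b * ∑ i, ∑ j, y i j := by
    rw [Finset.mul_sum]
    refine Finset.sum_le_sum fun i _ => ?_
    rw [Finset.mul_sum]
    exact (norm_sum_le _ _).trans (Finset.sum_le_sum fun j _ => h1 i j)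
  refine h2.trans ?_
  rw [mul_assoc, mul_assoc]
  refine mul_le_mul_of_nonneg_left ?_ hb0
  rw [← mul_assoc]
  have hwt : wt b m a v ((z ^ W) ^ Q) = ∑ q : Fin (d + 1) × Fin (R + 1), y q.1 q.2 ^ 2 := by
    rw [wt, Fintype.sum_prod_type]
    refine Finset.sum_congr rfl fun i _ => Finset.sum_congr rfl fun j _ => ?_
    simp only [hy]
    ring
  have hs : ∑ i, ∑ j, y i j = ∑ q : Fin (d + 1) × Fin (R + 1), y q.1 q.2 := by
    rw [Fintype.sum_prod_type]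
  have hcs : (∑ q : Fin (d + 1) × Fin (R + 1), y q.1 q.2) ^ 2 ≤
      ((d + 1 : ℝ) * (R + 1)) * wt b m a v ((z ^ W) ^ Q) := by
    rw [hwt]
    have := sq_sum_le_card_mul_sum_sq (s := (Finset.univ : Finset (Fin (d + 1) × Fin (R + 1))))
      (f := fun q => y q.1 q.2)
    rw [Finset.card_univ, Fintype.card_prod, Fintype.card_fin, Fintype.card_fin] at this
    push_cast at this
    exact this
  have hw0 : 0 ≤ wt b m a v ((z ^ W) ^ Q) := by
    rw [hwt]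
    exact Finset.sum_nonneg fun _ _ => sq_nonneg _
  rw [hs]
  have hRR : (R : ℝ) ≤ (R0 d : ℝ) := by exact_mod_cast hR
  refine le_of_sq_le_sq (hcs.trans ?_) (by positivity)
  rw [mul_pow, Real.sq_sqrt hw0]
  refine mul_le_mul_of_nonneg_right ?_ hw0
  have h4 : (1 : ℝ) ≤ (d + 1 : ℝ) * (R0 d + 1) := by
    have h5 : (0 : ℝ) ≤ d := Nat.cast_nonneg d
    have h6 : (0 : ℝ) ≤ R0 d := Nat.cast_nonneg _
    nlinarith
  have h5 : (d + 1 : ℝ) * (R + 1) ≤ (d + 1 : ℝ) * (R0 d + 1) :=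
    mul_le_mul_of_nonneg_left (by linarith) (by positivity)
  nlinarith

end Pool.Agent.H69.BD
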