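import Pool.Agent.H69.BD.Psi

/-!
# THEOREM V (MP_187c26_nt), chapter S7: the branches over a good point

Text: `Φ(X,Z)` over `ℂ` of degree `≤ d` in `Z`. `ε` is good if `Φ(ε,Z)` has degree `d`, is separable and
`Φ(ε,0) ≠ 0`. Then `Φ(ε exp u, Z)` has `d` different roots in `ℂ⟦u⟧` (Hensel's lemma for every root of
`Φ(ε,Z)`), all with constant term `≠ 0`; it is the product of its linear factors.
-/

set_option autoImplicit false

open Polynomial

namespace Pool.Agent.H69.BD

/-- Good points. -/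
def Good (Φ : ℂ[X][X]) (d : ℕ) (ε : ℂ) : Prop :=
  (Φ.coeff d).eval ε ≠ 0 ∧ (Φ.map (evalRingHom ε)).Separable ∧ (Φ.coeff 0).eval ε ≠ 0

open scoped Classical in
/-- The branches: the roots of `Φ(ε exp u, Z)`. -/
noncomputable def Br (Φ : ℂ[X][X]) (ε : ℂ) : Finset (PowerSeries ℂ) :=
  (Φ.map (psi ε)).roots.toFinset

theorem map_psi_constantCoeff (Φ : ℂ[X][X]) (ε : ℂ) :
    (Φ.map (psi ε)).map (PowerSeries.constantCoeff (R := ℂ)) = Φ.map (evalRingHom ε) := by
  rw [Polynomial.map_map]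
  congr 1
  ext p
  · simp [psi_C]
  · simp [psi_X, constantCoeff_ex]

theorem map_psi_ne_zero (Φ : ℂ[X][X]) (d : ℕ) (ε : ℂ) (h : Good Φ d ε) : Φ.map (psi ε) ≠ 0 := by
  intro h0
  have h1 := congrArg (fun p => PowerSeries.constantCoeff (p.coeff d)) h0
  simp only [coeff_map, coeff_zero, map_zero, constantCoeff_psi] at h1
  exact h.1 h1

theorem mem_Br (Φ : ℂ[X][X]) (d : ℕ) (ε : ℂ) (h : Good Φ d ε) (A : PowerSeries ℂ) :
    A ∈ Br Φ ε ↔ eval₂ (psi ε) A Φ = 0 := by
  classical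
  rw [Br, Multiset.mem_toFinset, mem_roots (map_psi_ne_zero Φ d ε h), IsRoot.def, eval_map]

theorem hensel_psi (Φ : ℂ[X][X]) (d : ℕ) (hΦ : Φ.natDegree ≤ d) (ε : ℂ) (h : Good Φ d ε) (a : ℂ)
    (h0 : (Φ.map (evalRingHom ε)).eval a = 0) :
    ∃ A : PowerSeries ℂ, eval₂ (psi ε) A Φ = 0 ∧ PowerSeries.constantCoeff A = a := by
  set F := Φ.map (psi ε) with hF
  have hu : IsUnit (psi ε (Φ.coeff d)) := by
    rw [PowerSeries.isUnit_iff_constantCoeff, constantCoeff_psi]
    exact isUnit_iff_ne_zero.2 h.1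
  obtain ⟨u, hu1⟩ := hu
  set f := C ((u⁻¹ : (PowerSeries ℂ)ˣ) : PowerSeries ℂ) * F with hf
  have hFd : F.natDegree ≤ d := natDegree_map_le.trans hΦ
  have hmonic : f.Monic := by
    apply monic_of_natDegree_le_of_coeff_eq_one d
    · exact (natDegree_C_mul_le _ _).trans hFd
    · rw [hf, coeff_C_mul, hF, coeff_map, ← hu1, Units.inv_mul]
  set cc := PowerSeries.constantCoeff (R := ℂ) with hcc
  have hmap : f.map cc = C (cc ((u⁻¹ : (PowerSeries ℂ)ˣ) : PowerSeries ℂ)) *
      Φ.map (evalRingHom ε) := by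
    rw [hf, Polynomial.map_mul, map_C, hF, hcc, map_psi_constantCoeff]
  have hunit : cc ((u⁻¹ : (PowerSeries ℂ)ˣ) : PowerSeries ℂ) ≠ 0 :=
    ((Units.isUnit u⁻¹).map cc).ne_zero
  have e1 : cc (f.eval (PowerSeries.C a)) = 0 := by
    have h1 : cc (f.eval (PowerSeries.C a)) = (f.map cc).eval a := by
      rw [← Polynomial.eval₂_at_apply, ← eval_map]
      rfl
    rw [h1, hmap, eval_mul, h0, mul_zero]
  have e2 : cc (f.derivative.eval (PowerSeries.C a)) ≠ 0 := by
    have h1 : cc (f.derivative.eval (PowerSeries.C a)) = (f.map cc).derivative.eval a := by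
      rw [← Polynomial.eval₂_at_apply, ← eval_map, ← derivative_map]
      rfl
    rw [h1, hmap, derivative_C_mul, eval_mul, eval_C]
    refine mul_ne_zero hunit ?_
    exact h.2.1.eval₂_derivative_ne_zero (RingHom.id ℂ) (by simpa using h0)
  have hH : HenselianRing (PowerSeries ℂ) (Ideal.span {PowerSeries.X}) := inferInstance
  obtain ⟨A, hA, hA1⟩ := hH.is_henselian f hmonic (PowerSeries.C a)
    (by
      rw [Ideal.mem_span_singleton, PowerSeries.X_dvd_iff]
      exact e1)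
    (by
      refine IsUnit.map _ ?_
      rw [PowerSeries.isUnit_iff_constantCoeff]
      exact isUnit_iff_ne_zero.2 e2)
  refine ⟨A, ?_, ?_⟩
  · rw [← eval_map]
    have h1 : f.eval A = 0 := hA
    rw [hf, eval_mul, eval_C] at h1
    exact (Units.mul_right_eq_zero _).1 h1
  · rw [Ideal.mem_span_singleton, PowerSeries.X_dvd_iff, map_sub, PowerSeries.constantCoeff_C,
      sub_eq_zero] at hA1
    exact hA1

theorem constantCoeff_root (Φ : ℂ[X][X]) (ε : ℂ) (A : PowerSeries ℂ)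
    (h : eval₂ (psi ε) A Φ = 0) :
    (Φ.map (evalRingHom ε)).eval (PowerSeries.constantCoeff A) = 0 := by
  rw [← map_psi_constantCoeff, eval_map, eval₂_at_apply, eval_map, h, map_zero]

theorem constantCoeff_ne_zero (Φ : ℂ[X][X]) (d : ℕ) (ε : ℂ) (hg : Good Φ d ε) (A : PowerSeries ℂ)
    (h : eval₂ (psi ε) A Φ = 0) : PowerSeries.constantCoeff A ≠ 0 := by
  intro h0
  have h1 := constantCoeff_root Φ ε A h
  rw [h0, ← coeff_zero_eq_eval_zero, coeff_map] at h1
  exact hg.2.2 h1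

theorem card_Br (Φ : ℂ[X][X]) (d : ℕ) (hΦ : Φ.natDegree ≤ d) (ε : ℂ) (h : Good Φ d ε) :
    d ≤ (Br Φ ε).card := by
  classical
  set g := Φ.map (evalRingHom ε) with hg
  have hdeg : g.natDegree = d := by
    refine le_antisymm (natDegree_map_le.trans hΦ) (le_natDegree_of_ne_zero ?_)
    rw [hg, coeff_map]
    exact h.1
  have hnod : g.roots.Nodup := nodup_roots h.2.1
  have hcard : g.roots.card = d := by
    rw [← hdeg]
    exact (splits_iff_card_roots.1 (IsAlgClosed.splits g))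
  have hg0 : g ≠ 0 := h.2.1.ne_zero
  choose! A hA using fun (a : ℂ) (ha : a ∈ g.roots.toFinset) =>
    hensel_psi Φ d hΦ ε h a ((mem_roots hg0).1 (Multiset.mem_toFinset.1 ha))
  have h1 : g.roots.toFinset.card = d := by
    rw [Multiset.toFinset_card_of_nodup hnod, hcard]
  rw [← h1]
  apply Finset.card_le_card_of_injOn A
  · intro a ha
    rw [Finset.mem_coe, mem_Br Φ d ε h]
    exact (hA a ha).1
  · intro a ha b hb hab
    rw [← (hA a ha).2, ← (hA b hb).2, hab]

theorem root_of_map (Φ : ℂ[X][X]) (d : ℕ) (hΦ : Φ.natDegree ≤ d) (ε : ℂ) (h : Good Φ d ε)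
    (σ : PowerSeries ℂ →+* PowerSeries ℂ) (hσ : Function.Injective σ) (b : PowerSeries ℂ)
    (hb : eval₂ (σ.comp (psi ε)) b Φ = 0) : ∃ B ∈ Br Φ ε, b = σ B := by
  classical
  set F := Φ.map (psi ε) with hF
  have hFd : F.natDegree ≤ d := natDegree_map_le.trans hΦ
  have hcard : Multiset.card F.roots = F.natDegree := by
    have h1 := card_Br Φ d hΦ ε h
    have h2 := Multiset.toFinset_card_le F.roots
    have h3 := card_roots' F
    rw [Br] at h1
    have h4 : d ≤ F.roots.card := h1.trans (by convert h2)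
    omega
  have hprod := C_leadingCoeff_mul_prod_multiset_X_sub_C hcard
  have hb2 : eval₂ σ b F = 0 := by
    rw [hF, eval₂_map]
    exact hb
  rw [← hprod, eval₂_mul, eval₂_C, eval₂_multiset_prod, mul_eq_zero, Multiset.map_map,
    Multiset.prod_eq_zero_iff] at hb2
  rcases hb2 with h1 | h1
  · rw [map_eq_zero_iff σ hσ, leadingCoeff_eq_zero] at h1
    exact absurd h1 (map_psi_ne_zero Φ d ε h)
  · obtain ⟨B, hB, h2⟩ := Multiset.mem_map.1 h1
    refine ⟨B, Multiset.mem_toFinset.2 hB, ?_⟩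
    simp only [Function.comp_apply, eval₂_sub, eval₂_X, eval₂_C] at h2
    exact sub_eq_zero.1 h2

end Pool.Agent.H69.BD
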