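import Pool.Agent.H4.RR.AbsHeight

/-!
# THEOREM V (MP_187c26_nt): the common lemma (Frobenius and product formula)

Text. `E = F(α)`, `α = V / U`, `U, V` integers of `E`, `I = (U, V)`, `Q = q ^ f`. `y_i = u_i V ^ i U ^ (d - i) ∈ I ^ d`,
`∑ y_i = 0`. `Y = ∑ u'_i V ^ (Q i) U ^ (Q (d - i)) = s ∑ y_i ^ Q + q ∑ w_i V ^ (Q i) U ^ (Q (d - i))` is in `q I ^ (Q d)`
(`frob_sum`) and `Y ≠ 0`. So `q ^ [E : ℚ] N(I) ^ (Q d) ≤ ∏ |σ Y| ≤ ∏ (∑ |σ u'_i|) max(|σ U|, |σ V|) ^ (Q d)`, and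
`∏ max(|σ U|, |σ V|) = H(α) N(I)`. Take the `[E : F]`-th root.
-/

set_option autoImplicit false

open NumberField

namespace Pool.Agent.H69.BD

open Pool.Agent.H4.RR

section

variable {R : Type} [CommRing R]

theorem add_pow_prime_mem (q : ℕ) (hq : q.Prime) (J : Ideal R) (a b : R) (ha : a ∈ J) (hb : b ∈ J) :
    (a + b) ^ q - a ^ q - b ^ q ∈ Ideal.span {(q : R)} * J ^ q := by
  have h1 : (a + b) ^ q - a ^ q - b ^ q =
      ∑ k ∈ (Finset.range (q - 1)), a ^ (k + 1) * b ^ (q - (k + 1)) * (q.choose (k + 1) : R) := by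
    have hq1 : q = (q - 1) + 1 := by have := hq.one_lt; omega
    rw [add_pow, Finset.sum_range_succ]
    have h2 : Finset.range q = Finset.range ((q - 1) + 1) := by rw [← hq1]
    rw [h2, Finset.sum_range_succ']
    simp
  rw [h1]
  refine Ideal.sum_mem _ fun k hk => ?_
  rw [Finset.mem_range] at hk
  have hlt := hq.one_lt
  obtain ⟨c, hc⟩ := hq.dvd_choose_self (k := k + 1) (by omega) (by omega)
  have h3 : a ^ (k + 1) * b ^ (q - (k + 1)) ∈ J ^ q := by
    have h4 : J ^ q = J ^ (k + 1) * J ^ (q - (k + 1)) := by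
      rw [← pow_add]
      congr 1
      omega
    rw [h4]
    exact Ideal.mul_mem_mul (Ideal.pow_mem_pow ha _) (Ideal.pow_mem_pow hb _)
  rw [hc]
  push_cast
  rw [show a ^ (k + 1) * b ^ (q - (k + 1)) * ((q : R) * (c : R)) =
    (q : R) * (a ^ (k + 1) * b ^ (q - (k + 1)) * (c : R)) by ring]
  exact Ideal.mul_mem_mul (Ideal.mem_span_singleton_self _) (Ideal.mul_mem_right _ _ h3)

theorem frob_one {ι : Type} (q : ℕ) (hq : q.Prime) (J : Ideal R) (t : Finset ι) (y : ι → R)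
    (hy : ∀ i ∈ t, y i ∈ J) :
    (∑ i ∈ t, y i) ^ q - ∑ i ∈ t, y i ^ q ∈ Ideal.span {(q : R)} * J ^ q := by
  classical
  induction t using Finset.induction_on with
  | empty => simp [zero_pow hq.ne_zero]
  | insert a t ha ih =>
    rw [Finset.sum_insert ha, Finset.sum_insert ha]
    have h1 := ih fun i hi => hy i (Finset.mem_insert_of_mem hi)
    have h2 := add_pow_prime_mem q hq J (y a) (∑ i ∈ t, y i) (hy a (Finset.mem_insert_self _ _))
      (Ideal.sum_mem _ fun i hi => hy i (Finset.mem_insert_of_mem hi))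
    have h3 := Ideal.add_mem _ h2 h1
    refine (congrArg (· ∈ Ideal.span {(q : R)} * J ^ q) ?_).mp h3
    ring

theorem frob_sum {ι : Type} (q : ℕ) (hq : q.Prime) (J : Ideal R) (t : Finset ι) (y : ι → R)
    (hy : ∀ i ∈ t, y i ∈ J) (f : ℕ) :
    (∑ i ∈ t, y i) ^ (q ^ f) - ∑ i ∈ t, y i ^ (q ^ f) ∈
      Ideal.span {(q : R)} * J ^ (q ^ f) := by
  induction f with
  | zero => simp
  | succ f ih =>
    set J' : Ideal R := J ^ (q ^ f) with hJ'
    set A : R := ∑ i ∈ t, y i ^ (q ^ f) with hA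
    have hAm : A ∈ J' := Ideal.sum_mem _ fun i hi => Ideal.pow_mem_pow (hy i hi) _
    set D : R := (∑ i ∈ t, y i) ^ (q ^ f) - A with hD
    have hDq : D ∈ Ideal.span {(q : R)} * J' := ih
    have hDm : D ∈ J' := Ideal.mul_le_right hDq
    have h1 := add_pow_prime_mem q hq J' A D hAm hDm
    have h2 : D ^ q ∈ Ideal.span {(q : R)} * J' ^ q := by
      have h3 : q = (q - 1) + 1 := by have := hq.one_lt; omega
      rw [h3, pow_succ', pow_succ', ← mul_assoc, ← h3]
      exact Ideal.mul_mem_mul hDq (Ideal.pow_mem_pow hDm _)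
    have h3 := frob_one q hq J' t (fun i => y i ^ (q ^ f)) fun i hi =>
      Ideal.pow_mem_pow (hy i hi) _
    have h4 := Ideal.add_mem _ (Ideal.add_mem _ h1 h2) h3
    have e1 : J ^ (q ^ (f + 1)) = J' ^ q := by rw [hJ', ← pow_mul, pow_succ]
    rw [e1]
    refine (congrArg (· ∈ Ideal.span {(q : R)} * J' ^ q) ?_).mp h4
    have e2 : (∑ i ∈ t, y i) ^ (q ^ (f + 1)) = (A + D) ^ q := by
      rw [hD, add_sub_cancel, ← pow_mul, pow_succ]
    have e3 : ∑ i ∈ t, y i ^ (q ^ (f + 1)) = ∑ i ∈ t, (y i ^ (q ^ f)) ^ q :=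
      Finset.sum_congr rfl fun i _ => by rw [← pow_mul, pow_succ]
    rw [e2, e3, ← hA]
    ring

end

theorem cl_field (E : Type) [Field E] [NumberField E] (α : E) (d q f : ℕ) (hq : q.Prime)
    (u u' w : Fin (d + 1) → 𝓞 E) (s : ℤ)
    (hrel : ∀ i, u' i = s * u i ^ (q ^ f) + q * w i)
    (h0 : ∑ i, (u i : E) * α ^ (i : ℕ) = 0)
    (hne : ∑ i, (u' i : E) * α ^ (q ^ f * (i : ℕ)) ≠ 0) :
    (q : ℝ) ^ Module.finrank ℚ E ≤ Height.mulHeight₁ α ^ (q ^ f * d) *
      ∏ σ : E →+* ℂ, ∑ i, ‖σ (u' i : E)‖ := by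
  classical
  obtain ⟨V, U, hU, rfl⟩ := IsFractionRing.div_surjective (A := 𝓞 E) α
  have hU0 : U ≠ 0 := nonZeroDivisors.ne_zero hU
  have hUE : (U : E) ≠ 0 := by exact_mod_cast hU0
  set Q : ℕ := q ^ f with hQ
  set I : Ideal (𝓞 E) := Ideal.span {U, V} with hI
  have hUI : U ∈ I := Ideal.subset_span (by simp)
  have hVI : V ∈ I := Ideal.subset_span (by simp)
  have hI0 : I ≠ ⊥ := by
    intro h
    rw [h] at hUI
    exact hU0 (by simpa using hUI)
  set y : Fin (d + 1) → 𝓞 E := fun i => u i * (V ^ (i : ℕ) * U ^ (d - (i : ℕ))) with hy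
  have hmem : ∀ (n : ℕ) (i : Fin (d + 1)), V ^ (n * (i : ℕ)) * U ^ (n * (d - (i : ℕ))) ∈
      I ^ (n * d) := by
    intro n i
    have h1 : I ^ (n * d) = I ^ (n * (i : ℕ)) * I ^ (n * (d - (i : ℕ))) := by
      rw [← pow_add, ← mul_add]
      congr 2
      have := i.2
      omega
    rw [h1]
    exact Ideal.mul_mem_mul (Ideal.pow_mem_pow hVI _) (Ideal.pow_mem_pow hUI _)
  have hyI : ∀ i ∈ (Finset.univ : Finset (Fin (d + 1))), y i ∈ I ^ d := by
    intro i _
    have := hmem 1 i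
    rw [one_mul, one_mul, one_mul] at this
    exact Ideal.mul_mem_left _ _ this
  have key : ∀ (n : ℕ) (c : Fin (d + 1) → 𝓞 E),
      ((∑ i, c i * (V ^ (n * (i : ℕ)) * U ^ (n * (d - (i : ℕ)))) : 𝓞 E) : E) =
        (U : E) ^ (n * d) * ∑ i, (c i : E) * ((V : E) / (U : E)) ^ (n * (i : ℕ)) := by
    intro n c
    rw [Finset.mul_sum]
    push_cast
    refine Finset.sum_congr rfl fun i _ => ?_
    have h1 : (U : E) ^ (n * d) = (U : E) ^ (n * (i : ℕ)) * (U : E) ^ (n * (d - (i : ℕ))) := by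
      rw [← pow_add, ← mul_add]
      congr 2
      have := i.2
      omega
    rw [h1, div_pow]
    have h2 : (U : E) ^ (n * (i : ℕ)) ≠ 0 := pow_ne_zero _ hUE
    field_simp
  have hsum0 : ∑ i, y i = 0 := by
    have h1 := key 1 u
    simp only [one_mul] at h1
    have h2 : ((∑ i, y i : 𝓞 E) : E) = 0 := by
      rw [hy, h1]
      rw [show ∑ i, (u i : E) * ((V : E) / (U : E)) ^ (i : ℕ) = 0 from h0, mul_zero]
    exact_mod_cast h2
  set Y : 𝓞 E := ∑ i, u' i * (V ^ (Q * (i : ℕ)) * U ^ (Q * (d - (i : ℕ)))) with hY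
  have hYe : (Y : E) = (U : E) ^ (Q * d) *
      ∑ i, (u' i : E) * ((V : E) / (U : E)) ^ (Q * (i : ℕ)) := key Q u'
  have hY0 : Y ≠ 0 := by
    intro h
    have h1 : (Y : E) = 0 := by rw [h]; rfl
    rw [hYe] at h1
    exact (mul_ne_zero (pow_ne_zero _ hUE) hne) h1
  have hYmem : Y ∈ Ideal.span {(q : 𝓞 E)} * I ^ (Q * d) := by
    have e1 : Y = -((s : 𝓞 E) * ((∑ i, y i) ^ Q - ∑ i, y i ^ Q)) +
        (q : 𝓞 E) * ∑ i, w i * (V ^ (Q * (i : ℕ)) * U ^ (Q * (d - (i : ℕ)))) := by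
      rw [hsum0, zero_pow (by rw [hQ]; exact (pow_pos hq.pos f).ne'), zero_sub, mul_neg, neg_neg,
        Finset.mul_sum, Finset.mul_sum, ← Finset.sum_add_distrib, hY]
      refine Finset.sum_congr rfl fun i _ => ?_
      rw [hrel i, hy]
      simp only
      rw [mul_pow, mul_pow, ← pow_mul, ← pow_mul, mul_comm (i : ℕ) Q, mul_comm (d - (i : ℕ)) Q]
      ring
    rw [e1]
    have h1 := frob_sum q hq (I ^ d) Finset.univ y hyI f
    rw [← hQ, ← pow_mul, mul_comm d Q] at h1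
    refine Ideal.add_mem _ (neg_mem (Ideal.mul_mem_left _ _ h1)) ?_
    refine Ideal.mul_mem_mul (Ideal.mem_span_singleton_self _) ?_
    exact Ideal.sum_mem _ fun i _ => Ideal.mul_mem_left _ _ (hmem Q i)
  have hlow := absNorm_le_prod E _ Y hYmem hY0
  have hNq : Ideal.absNorm (Ideal.span {(q : 𝓞 E)}) = q ^ Module.finrank ℚ E := by
    rw [Ideal.absNorm_span_natCast, RingOfIntegers.rank]
  rw [map_mul, map_pow, hNq] at hlow
  push_cast at hlow
  have hH : Height.mulHeight₁ ((V : E) / (U : E)) * (Ideal.absNorm I : ℝ) =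
      ∏ σ : E →+* ℂ, max ‖σ (U : E)‖ ‖σ (V : E)‖ := height_mul_absNorm E U V hU0
  have hup : ∏ σ : E →+* ℂ, ‖σ (Y : E)‖ ≤
      ∏ σ : E →+* ℂ, ((∑ i, ‖σ (u' i : E)‖) * (max ‖σ (U : E)‖ ‖σ (V : E)‖) ^ (Q * d)) := by
    refine Finset.prod_le_prod (fun σ _ => norm_nonneg _) fun σ _ => ?_
    rw [hY, Finset.sum_mul]
    push_cast
    rw [map_sum]
    refine (norm_sum_le _ _).trans (Finset.sum_le_sum fun i _ => ?_)
    rw [map_mul, map_mul, map_pow, map_pow, norm_mul, norm_mul, norm_pow, norm_pow]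
    refine mul_le_mul_of_nonneg_left ?_ (norm_nonneg _)
    have h1 : (max ‖σ (U : E)‖ ‖σ (V : E)‖) ^ (Q * d) =
        (max ‖σ (U : E)‖ ‖σ (V : E)‖) ^ (Q * (i : ℕ)) *
          (max ‖σ (U : E)‖ ‖σ (V : E)‖) ^ (Q * (d - (i : ℕ))) := by
      rw [← pow_add, ← mul_add]
      congr 2
      have := i.2
      omega
    rw [h1]
    exact mul_le_mul (pow_le_pow_left₀ (norm_nonneg _) (le_max_right _ _) _)
      (pow_le_pow_left₀ (norm_nonneg _) (le_max_left _ _) _) (by positivity) (by positivity)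
  rw [Finset.prod_mul_distrib, Finset.prod_pow, ← hH, mul_pow] at hup
  have hNI : (0 : ℝ) < (Ideal.absNorm I : ℝ) ^ (Q * d) := by
    apply pow_pos
    exact_mod_cast Nat.pos_of_ne_zero (fun h => hI0 (Ideal.absNorm_eq_zero_iff.1 h))
  have hfin := hlow.trans hup
  have e2 : (∏ σ : E →+* ℂ, ∑ i, ‖σ (u' i : E)‖) *
      (Height.mulHeight₁ ((V : E) / (U : E)) ^ (Q * d) * (Ideal.absNorm I : ℝ) ^ (Q * d)) =
      (Height.mulHeight₁ ((V : E) / (U : E)) ^ (Q * d) *
        ∏ σ : E →+* ℂ, ∑ i, ‖σ (u' i : E)‖) * (Ideal.absNorm I : ℝ) ^ (Q * d) := by ring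
  rw [e2] at hfin
  exact le_of_mul_le_mul_right hfin hNI

theorem cl {F Ω : Type} [Field F] [NumberField F] [Field Ω] [CharZero Ω] [Algebra F Ω] (α : Ω)
    (hα : IsIntegral ℚ α) (d q f : ℕ) (hq : q.Prime) (u u' w : Fin (d + 1) → F) (s : ℤ)
    (hu : ∀ i, IsIntegral ℤ (u i)) (hu' : ∀ i, IsIntegral ℤ (u' i))
    (hw : ∀ i, IsIntegral ℤ (w i)) (hrel : ∀ i, u' i = s * u i ^ (q ^ f) + q * w i)
    (h0 : ∑ i, algebraMap F Ω (u i) * α ^ (i : ℕ) = 0)
    (hne : ∑ i, algebraMap F Ω (u' i) * α ^ (q ^ f * (i : ℕ)) ≠ 0) :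
    (q : ℝ) ^ Module.finrank ℚ F ≤
      Real.exp (Module.finrank ℚ F * (q : ℝ) ^ f * d * absLogHeight₁ α) *
        ∏ φ : F →+* ℂ, ∑ i, ‖φ (u' i)‖ := by
  classical
  have hintF : IsIntegral F α := hα.tower_top
  set E := IntermediateField.adjoin F {α} with hE
  have hfd : FiniteDimensional F E := IntermediateField.adjoin.finiteDimensional hintF
  have hfdQ : FiniteDimensional ℚ E := FiniteDimensional.trans ℚ F E
  have hnf : NumberField E := {}
  let α' : E := IntermediateField.AdjoinSimple.gen F α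
  have hα' : ((α' : E) : Ω) = α := rfl
  let lift : ∀ z : F, IsIntegral ℤ z → 𝓞 E := fun z hz =>
    ⟨algebraMap F E z, (hz.map (algebraMap F E).toIntAlgHom)⟩
  have hl : ∀ z hz, ((lift z hz : 𝓞 E) : E) = algebraMap F E z := fun z hz => rfl
  have h1 := cl_field E α' d q f hq (fun i => lift (u i) (hu i)) (fun i => lift (u' i) (hu' i))
    (fun i => lift (w i) (hw i)) s
    (by
      intro i
      apply RingOfIntegers.ext
      calc ((lift (u' i) (hu' i) : 𝓞 E) : E) = algebraMap F E (u' i) := rfl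
        _ = algebraMap F E (s * u i ^ (q ^ f) + q * w i) := by rw [hrel i]
        _ = (s : E) * (algebraMap F E (u i)) ^ (q ^ f) + q * algebraMap F E (w i) := by
          rw [map_add, map_mul, map_mul, map_pow, map_intCast, map_natCast]
        _ = _ := by
          push_cast
          rfl)
    (by
      apply Subtype.val_injective
      simp only [hl]
      push_cast
      exact h0)
    (by
      intro h
      apply hne
      have h2 := congrArg (fun z : E => (z : Ω)) h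
      simp only [hl] at h2
      push_cast at h2
      exact h2)
  set e := Module.finrank F E with he
  have hepos : e ≠ 0 := (Module.finrank_pos (R := F) (M := E)).ne'
  have hdeg : Module.finrank ℚ F * e = Module.finrank ℚ E := Module.finrank_mul_finrank ℚ F E
  have h2 : ∏ σ : E →+* ℂ, ∑ i, ‖σ ((lift (u' i) (hu' i) : 𝓞 E) : E)‖ =
      (∏ φ : F →+* ℂ, ∑ i, ‖φ (u' i)‖) ^ e :=
    prod_comp_embeddings F E (fun φ => ∑ i, ‖φ (u' i)‖)
  have hH : Height.mulHeight₁ α' = Real.exp (Module.finrank ℚ E * absLogHeight₁ α) := by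
    have h3 := absLogHeight_eq E Ω (algebraMap E Ω) α'
    have h4 : (algebraMap E Ω) α' = α := rfl
    rw [h4] at h3
    have hE0 : (Module.finrank ℚ E : ℝ) ≠ 0 := by
      exact_mod_cast (Module.finrank_pos (R := ℚ) (M := E)).ne'
    rw [h3, mul_div_cancel₀ _ hE0, Height.logHeight₁_eq_log_mulHeight₁,
      Real.exp_log (Height.mulHeight₁_pos _)]
  rw [h2, hH, ← hdeg, pow_mul, ← Real.exp_nat_mul] at h1
  have h5 : Real.exp (((q ^ f * d : ℕ) : ℝ) *
      (((Module.finrank ℚ F * e : ℕ) : ℝ) * absLogHeight₁ α)) =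
      (Real.exp (Module.finrank ℚ F * (q : ℝ) ^ f * d * absLogHeight₁ α)) ^ e := by
    rw [← Real.exp_nat_mul]
    congr 1
    push_cast
    ring
  rw [h5, ← mul_pow] at h1
  refine le_of_pow_le_pow_left₀ hepos ?_ h1
  refine mul_nonneg (Real.exp_pos _).le (Finset.prod_nonneg fun φ _ => Finset.sum_nonneg fun i _ =>
    norm_nonneg _)

end Pool.Agent.H69.BD
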