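import Pool.Agent.H69.BD.Branch

/-!
# THEOREM V (MP_187c26_nt), chapter S7: the dynamics on the finite set of branches

Text: if `Φ(X^Q, Z^Q)` times a power of the leading coefficient is divisible by `Φ` and all nontrivial `N`-th
roots of unity are good (`N` prime, prime to `Q`), then `A ^ Q = B(Q u)` for every branch `A` at `ε`, with `B` a
branch at `ε ^ Q`. Logarithmic derivative: `L_A(u) = L_B(Q u)`; the `k`-th coefficient gets the factor `Q ^ k`,
so it is `0` for `k ≥ 1` (finite set of branches). So `A = κ exp(β u)`; `κ ^ Q` is the constant of the next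
branch, so `κ` is a root of unity.
-/

set_option autoImplicit false

open Polynomial

namespace Pool.Agent.H69.BD

theorem fin_dyn {ι : Type} [Finite ι] (T : ι → ι) (c : ι → ℂ) (q : ℂ)
    (hq : ∀ n : ℕ, 1 ≤ n → q ^ n ≠ 1) (h : ∀ i, c i = q * c (T i)) : ∀ i, c i = 0 := by
  have hit : ∀ (n : ℕ) (i : ι), c i = q ^ n * c (T^[n] i) := by
    intro n
    induction n with
    | zero => intro i; simp
    | succ n ih =>
      intro i
      rw [Function.iterate_succ_apply, pow_succ, mul_comm (q ^ n) q, mul_assoc, ← ih (T i), ← h i]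
  intro i
  obtain ⟨a, b, hab, heq⟩ := Finite.exists_ne_map_eq_of_infinite (fun n : ℕ => T^[n] i)
  wlog hlt : a < b generalizing a b
  · exact this b a hab.symm heq.symm (by omega)
  have h1 : T^[b - a] (T^[a] i) = T^[a] i := by
    rw [← Function.iterate_add_apply, Nat.sub_add_cancel hlt.le]
    exact heq.symm
  have h2 := hit (b - a) (T^[a] i)
  rw [h1] at h2
  have h3 : c (T^[a] i) = 0 := by
    by_contra hne
    apply hq (b - a) (by omega)
    have h4 : (q ^ (b - a) - 1) * c (T^[a] i) = 0 := by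
      rw [sub_mul, one_mul, ← h2, sub_self]
    exact sub_eq_zero.1 ((mul_eq_zero.1 h4).resolve_right hne)
  rw [hit a i, h3, mul_zero]

theorem fin_dyn_mul {ι : Type} [Finite ι] (T : ι → ι) (c : ι → ℂ) (Q : ℕ) (hQ : 2 ≤ Q)
    (h0 : ∀ i, c i ≠ 0) (h : ∀ i, c i ^ Q = c (T i)) : ∀ i, ∃ n : ℕ, 1 ≤ n ∧ c i ^ n = 1 := by
  have hit : ∀ (n : ℕ) (i : ι), c i ^ (Q ^ n) = c (T^[n] i) := by
    intro n
    induction n with
    | zero => intro i; simp
    | succ n ih =>
      intro i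
      rw [Function.iterate_succ_apply, ← ih (T i), ← h i, ← pow_mul, pow_succ, mul_comm]
  intro i
  obtain ⟨a, b, hab, heq⟩ := Finite.exists_ne_map_eq_of_infinite (fun n : ℕ => T^[n] i)
  wlog hlt : a < b generalizing a b
  · exact this b a hab.symm heq.symm (by omega)
  have hpow : Q ^ a < Q ^ b := Nat.pow_lt_pow_right (by omega) hlt
  refine ⟨Q ^ b - Q ^ a, by omega, ?_⟩
  have h1 : c i ^ (Q ^ b) = c i ^ (Q ^ a) := by
    rw [hit, hit]
    exact congrArg c heq.symm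
  have h2 : c i ^ (Q ^ b - Q ^ a) * c i ^ (Q ^ a) = 1 * c i ^ (Q ^ a) := by
    rw [← pow_add, Nat.sub_add_cancel hpow.le, h1, one_mul]
  exact mul_right_cancel₀ (pow_ne_zero _ (h0 i)) h2

/-- The logarithmic derivative. -/
noncomputable def lder (A : PowerSeries ℂ) : PowerSeries ℂ := PowerSeries.derivative ℂ A * A⁻¹

theorem derivative_rescale (q : ℂ) (B : PowerSeries ℂ) :
    PowerSeries.derivative ℂ (PowerSeries.rescale q B) =
      PowerSeries.C q * PowerSeries.rescale q (PowerSeries.derivative ℂ B) := by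
  ext n
  rw [PowerSeries.coeff_derivative, PowerSeries.coeff_rescale, PowerSeries.coeff_C_mul,
    PowerSeries.coeff_rescale, PowerSeries.coeff_derivative]
  ring

theorem lder_mul (A : PowerSeries ℂ) (h : PowerSeries.constantCoeff A ≠ 0) :
    lder A * A = PowerSeries.derivative ℂ A := by
  rw [lder, mul_assoc, PowerSeries.inv_mul_cancel A h, mul_one]

theorem lder_rel (A B : PowerSeries ℂ) (hA : PowerSeries.constantCoeff A ≠ 0)
    (hB : PowerSeries.constantCoeff B ≠ 0) (Q : ℕ) (hQ : 1 ≤ Q)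
    (h : A ^ Q = PowerSeries.rescale (Q : ℂ) B) :
    lder A = PowerSeries.rescale (Q : ℂ) (lder B) := by
  have hA0 : A ≠ 0 := by
    rintro rfl
    exact hA (map_zero _)
  have h1 := congrArg (PowerSeries.derivative ℂ) h
  rw [derivative_rescale, ← lder_mul B hB, map_mul, ← h, Derivation.leibniz_pow,
    ← lder_mul A hA] at h1
  have hQC : (PowerSeries.C (Q : ℂ)) ≠ 0 := by
    intro h2
    have h3 := congrArg (PowerSeries.constantCoeff (R := ℂ)) h2
    rw [PowerSeries.constantCoeff_C, map_zero, Nat.cast_eq_zero] at h3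
    omega
  have h2 : PowerSeries.C (Q : ℂ) * A ^ Q * lder A =
      PowerSeries.C (Q : ℂ) * A ^ Q * PowerSeries.rescale (Q : ℂ) (lder B) := by
    have h3 : A ^ Q = A ^ (Q - 1) * A := by
      rw [← pow_succ, Nat.sub_add_cancel hQ]
    calc PowerSeries.C (Q : ℂ) * A ^ Q * lder A
        = PowerSeries.C (Q : ℂ) * (A ^ (Q - 1) * (lder A * A)) := by rw [h3]; ring
      _ = Q • A ^ (Q - 1) • (lder A * A) := by
          rw [smul_eq_mul, nsmul_eq_mul, map_natCast]
      _ = _ := by rw [h1]; ring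
  exact mul_left_cancel₀ (mul_ne_zero hQC (pow_ne_zero _ hA0)) h2

theorem eq_ex_of_lder (A : PowerSeries ℂ) (hA : PowerSeries.constantCoeff A ≠ 0)
    (h : ∀ k : ℕ, 1 ≤ k → PowerSeries.coeff k (lder A) = 0) :
    A = PowerSeries.C (PowerSeries.constantCoeff A) *
      ex (PowerSeries.constantCoeff (lder A)) := by
  set β := PowerSeries.constantCoeff (lder A) with hβ
  have h1 : lder A = PowerSeries.C β := by
    ext k
    rw [PowerSeries.coeff_C]
    split_ifs with hk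
    · subst hk
      rw [PowerSeries.coeff_zero_eq_constantCoeff_apply]
    · exact h k (by omega)
  have h2 := lder_mul A hA
  rw [h1] at h2
  have h3 : ∀ n : ℕ, PowerSeries.coeff n A =
      PowerSeries.constantCoeff A * (β ^ n * ((n.factorial : ℂ))⁻¹) := by
    intro n
    induction n with
    | zero => simp
    | succ n ih =>
      have h4 := congrArg (PowerSeries.coeff n) h2
      rw [PowerSeries.coeff_C_mul, PowerSeries.coeff_derivative, ih] at h4
      have h5 : ((n : ℂ) + 1) ≠ 0 := Nat.cast_add_one_ne_zero n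
      rw [Nat.factorial_succ]
      push_cast
      rw [mul_inv]
      have h6 : PowerSeries.coeff (n + 1) A =
          (β * (PowerSeries.constantCoeff A * (β ^ n * ((n.factorial : ℂ))⁻¹))) *
            ((n : ℂ) + 1)⁻¹ := by
        rw [h4, mul_assoc, mul_inv_cancel₀ h5, mul_one]
      rw [h6]
      ring
  ext n
  rw [PowerSeries.coeff_C_mul, ex_coeff, h3]

/-- `Φ(X^Q, Z^Q)`. -/
noncomputable def frob {R : Type} [CommRing R] (Q : ℕ) (Φ : R[X][X]) : R[X][X] :=
  expand R[X] Q (Φ.map (expand R Q : R[X] →+* R[X]))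

theorem eval₂_frob {R Ω : Type} [CommRing R] [CommRing Ω] (f : R[X] →+* Ω) (Q : ℕ) (Φ : R[X][X])
    (a : Ω) : eval₂ f a (frob Q Φ) =
      eval₂ (f.comp (expand R Q : R[X] →+* R[X])) (a ^ Q) Φ := by
  rw [frob, expand_eq_comp_X_pow, eval₂_comp, eval₂_pow, eval₂_X, eval₂_map]

theorem dyn (Φ A0 : ℂ[X][X]) (d e Q N : ℕ) (hΦ : Φ.natDegree ≤ d) (hQ : 2 ≤ Q)
    (hdiv : C (Φ.coeff d) ^ e * frob Q Φ = A0 * Φ)
    (hN : N.Prime) (hco : N.Coprime Q) (hgood : ∀ ε : ℂ, ε ^ N = 1 → ε ≠ 1 → Good Φ d ε)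
    (ε : ℂ) (hε : ε ^ N = 1) (hε1 : ε ≠ 1) (A : PowerSeries ℂ) (hA : eval₂ (psi ε) A Φ = 0) :
    ∃ κ β : ℂ, κ ≠ 0 ∧ (∃ n : ℕ, 1 ≤ n ∧ κ ^ n = 1) ∧ A = PowerSeries.C κ * ex β := by
  classical
  have hpow : ∀ z : ℂ, z ^ N = 1 → z ≠ 1 → (z ^ Q) ^ N = 1 ∧ z ^ Q ≠ 1 := by
    intro z hz hz1
    refine ⟨by rw [← pow_mul, mul_comm, pow_mul, hz, one_pow], fun h => hz1 ?_⟩
    have h1 : z ^ (N.gcd Q) = 1 := by
      rw [← orderOf_dvd_iff_pow_eq_one] at hz h ⊢
      exact Nat.dvd_gcd hz h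
    rwa [hco, pow_one] at h1
  have hinjQ : Function.Injective (PowerSeries.rescale (Q : ℂ)) :=
    PowerSeries.rescale_injective (by
      rw [Nat.cast_ne_zero]; omega)
  have hstep : ∀ (z : ℂ) (D : PowerSeries ℂ), z ^ N = 1 → z ≠ 1 → eval₂ (psi z) D Φ = 0 →
      ∃ B : PowerSeries ℂ, eval₂ (psi (z ^ Q)) B Φ = 0 ∧
        D ^ Q = PowerSeries.rescale (Q : ℂ) B := by
    intro z D hz hz1 hD
    have hg := hgood z hz hz1
    have hg2 := hgood (z ^ Q) (hpow z hz hz1).1 (hpow z hz hz1).2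
    have h1 := congrArg (eval₂ (psi z) D) hdiv
    rw [eval₂_mul, eval₂_mul, hD, mul_zero, eval₂_pow, eval₂_C, mul_eq_zero] at h1
    have h2 : psi z (Φ.coeff d) ≠ 0 := by
      intro h3
      have h4 := congrArg (PowerSeries.constantCoeff (R := ℂ)) h3
      rw [constantCoeff_psi, map_zero] at h4
      exact hg.1 h4
    have h3 := h1.resolve_left (pow_ne_zero _ h2)
    rw [eval₂_frob] at h3
    have h4 : (psi z).comp (expand ℂ Q : ℂ[X] →+* ℂ[X]) =
        (PowerSeries.rescale (Q : ℂ)).comp (psi (z ^ Q)) :=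
      RingHom.ext fun p => psi_pow z Q p
    rw [h4] at h3
    obtain ⟨B, hB, h5⟩ := root_of_map Φ d hΦ (z ^ Q) hg2 _ hinjQ _ h3
    exact ⟨B, (mem_Br Φ d _ hg2 B).1 hB, h5⟩
  set R : Finset ℂ := (nthRootsFinset N (1 : ℂ)).erase 1 with hR
  have hmemR : ∀ z, z ∈ R ↔ z ^ N = 1 ∧ z ≠ 1 := by
    intro z
    rw [hR, Finset.mem_erase, mem_nthRootsFinset hN.pos]
    exact and_comm
  let S : Finset (Σ _ : ℂ, PowerSeries ℂ) := R.sigma fun z => Br Φ z
  have hS : ∀ z D, (⟨z, D⟩ : Σ _ : ℂ, PowerSeries ℂ) ∈ S ↔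
      (z ^ N = 1 ∧ z ≠ 1) ∧ eval₂ (psi z) D Φ = 0 := by
    intro z D
    rw [Finset.mem_sigma, hmemR]
    constructor
    · rintro ⟨h1, h2⟩
      exact ⟨h1, (mem_Br Φ d z (hgood z h1.1 h1.2) D).1 h2⟩
    · rintro ⟨h1, h2⟩
      exact ⟨h1, (mem_Br Φ d z (hgood z h1.1 h1.2) D).2 h2⟩
  have hT : ∀ p : S, ∃ p' : S, p'.1.1 = p.1.1 ^ Q ∧
      p.1.2 ^ Q = PowerSeries.rescale (Q : ℂ) p'.1.2 := by
    rintro ⟨⟨z, D⟩, hp⟩
    obtain ⟨h1, h2⟩ := (hS z D).1 hp
    obtain ⟨B, hB, h3⟩ := hstep z D h1.1 h1.2 h2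
    exact ⟨⟨⟨z ^ Q, B⟩, (hS _ _).2 ⟨hpow z h1.1 h1.2, hB⟩⟩, rfl, h3⟩
  choose T hT1 hT2 using hT
  have hcc : ∀ p : S, PowerSeries.constantCoeff p.1.2 ≠ 0 := by
    rintro ⟨⟨z, D⟩, hp⟩
    obtain ⟨h1, h2⟩ := (hS z D).1 hp
    exact constantCoeff_ne_zero Φ d z (hgood z h1.1 h1.2) D h2
  have hk : ∀ k : ℕ, 1 ≤ k → ∀ p : S, PowerSeries.coeff k (lder p.1.2) = 0 := by
    intro k hk
    refine fin_dyn T _ ((Q : ℂ) ^ k) ?_ ?_
    · intro n hn h1
      rw [← pow_mul] at h1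
      have h2 : (Q ^ (k * n) : ℕ) = 1 := by exact_mod_cast h1
      have h3 : 1 < Q ^ (k * n) := Nat.one_lt_pow (by positivity) (by omega)
      omega
    · intro p
      have h1 := lder_rel _ _ (hcc p) (hcc (T p)) Q (by omega) (hT2 p)
      rw [h1, PowerSeries.coeff_rescale]
  have hmul := fin_dyn_mul T (fun p : S => PowerSeries.constantCoeff p.1.2) Q hQ hcc (by
    intro p
    show PowerSeries.constantCoeff p.1.2 ^ Q = PowerSeries.constantCoeff (T p).1.2
    rw [← map_pow, hT2, ← PowerSeries.coeff_zero_eq_constantCoeff_apply, PowerSeries.coeff_rescale,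
      pow_zero, one_mul, PowerSeries.coeff_zero_eq_constantCoeff_apply])
  let p : S := ⟨⟨ε, A⟩, (hS _ _).2 ⟨⟨hε, hε1⟩, hA⟩⟩
  exact ⟨_, _, hcc p, hmul p, eq_ex_of_lder A (hcc p) (fun k h => hk k h p)⟩

end Pool.Agent.H69.BD
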