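import Pool.Agent.H4.RR.AbsHeight

/-!
# THEOREM V (MP_187c26_nt): numbers of bounded degree and small height

Text: `α` of degree `≤ D` with `h(α) < log 2 / D`. `E = ℚ(α)`, `H(α) < 2`, `α = V / U`, `I = (U, V)`:
`N(U) ≤ H(α) N(I) < 2 N(I)` and `I ∣ (U)`, so `(U) = I` and `α` is an algebraic integer. Then
`∏ max(1, |σ α|) = H(α) < 2`, so all conjugates are `≤ 2`, the coefficients of the minimal polynomial are bounded
(`Embeddings.coeff_bdd_of_norm_le`), so `α` lies in a finite set; the minimum of the positive heights in this set works.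
-/

set_option autoImplicit false

open NumberField Polynomial

namespace Pool.Agent.H69.BD

open Pool.Agent.H4.RR

theorem int_of_height {E : Type} [Field E] [NumberField E] (a : E) (h : Height.mulHeight₁ a < 2) :
    IsIntegral ℤ a := by
  classical
  obtain ⟨V, U, hU, rfl⟩ := IsFractionRing.div_surjective (A := 𝓞 E) a
  have hU0 : U ≠ 0 := nonZeroDivisors.ne_zero hU
  set I : Ideal (𝓞 E) := Ideal.span {U, V} with hI
  have hUI : Ideal.span {U} ≤ I := Ideal.span_mono (by simp)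
  have hI0 : I ≠ ⊥ := by
    intro h0
    rw [h0, le_bot_iff, Ideal.span_singleton_eq_bot] at hUI
    exact hU0 hUI
  have hNI : 0 < Ideal.absNorm I := Nat.pos_of_ne_zero fun h0 => hI0 (Ideal.absNorm_eq_zero_iff.1 h0)
  have hH := height_mul_absNorm E U V hU0
  have h1 : (Ideal.absNorm (Ideal.span {U}) : ℝ) ≤ ∏ σ : E →+* ℂ, ‖σ (U : E)‖ :=
    absNorm_le_prod E _ U (Ideal.mem_span_singleton_self U) hU0
  have h2 : ∏ σ : E →+* ℂ, ‖σ (U : E)‖ ≤ ∏ σ : E →+* ℂ, max ‖σ (U : E)‖ ‖σ (V : E)‖ :=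
    Finset.prod_le_prod (fun _ _ => norm_nonneg _) fun _ _ => le_max_left _ _
  have h3 : (Ideal.absNorm (Ideal.span {U}) : ℝ) < 2 * (Ideal.absNorm I : ℝ) := by
    refine (h1.trans h2).trans_lt ?_
    rw [← hH]
    exact mul_lt_mul_of_pos_right h (by exact_mod_cast hNI)
  obtain ⟨J, hJ⟩ := Ideal.dvd_iff_le.2 hUI
  have h4 : Ideal.absNorm (Ideal.span {U}) = Ideal.absNorm I * Ideal.absNorm J := by
    rw [hJ, map_mul]
  have hU1 : Ideal.absNorm (Ideal.span {U}) ≠ 0 := by
    rw [Ne, Ideal.absNorm_eq_zero_iff, Ideal.span_singleton_eq_bot]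
    exact hU0
  have h5 : Ideal.absNorm J = 1 := by
    have h6 : Ideal.absNorm I * Ideal.absNorm J < 2 * Ideal.absNorm I := by
      rw [← h4]
      exact_mod_cast h3
    have h7 : Ideal.absNorm J < 2 := by
      rw [mul_comm] at h6
      exact Nat.lt_of_mul_lt_mul_right h6
    have h8 : Ideal.absNorm J ≠ 0 := by
      intro h0
      rw [h0, mul_zero] at h4
      exact hU1 h4
    omega
  rw [Ideal.absNorm_eq_one_iff] at h5
  rw [h5, Ideal.mul_top] at hJ
  have hV : V ∈ Ideal.span {U} := by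
    rw [hJ]
    exact Ideal.subset_span (by simp)
  obtain ⟨t, ht⟩ := Ideal.mem_span_singleton'.1 hV
  have hUE : (U : E) ≠ 0 := by exact_mod_cast hU0
  have h6 : algebraMap (𝓞 E) E V / algebraMap (𝓞 E) E U = (t : E) := by
    rw [div_eq_iff (by exact hUE), ← ht, map_mul]
  rw [h6]
  exact RingOfIntegers.isIntegral_coe t

theorem norm_of_height {E : Type} [Field E] [NumberField E] (a : E)
    (h : Height.mulHeight₁ a < 2) (σ : E →+* ℂ) : ‖σ a‖ ≤ 2 := by
  classical
  have hint := int_of_height a h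
  let t : 𝓞 E := ⟨a, hint⟩
  have hH := height_mul_absNorm E 1 t one_ne_zero
  have h1 : Ideal.span {(1 : 𝓞 E), t} = ⊤ := by
    rw [Ideal.eq_top_iff_one]
    exact Ideal.subset_span (by simp)
  have h2 : ((t : 𝓞 E) : E) / ((1 : 𝓞 E) : E) = a := by simp [t]
  rw [h1, h2] at hH
  rw [Ideal.absNorm_top, Nat.cast_one, mul_one] at hH
  have h3 : ∀ τ : E →+* ℂ, 1 ≤ max ‖τ ((1 : 𝓞 E) : E)‖ ‖τ ((t : 𝓞 E) : E)‖ := by
    intro τ
    refine le_max_of_le_left ?_
    simp
  have h4 : max ‖σ ((1 : 𝓞 E) : E)‖ ‖σ ((t : 𝓞 E) : E)‖ ≤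
      ∏ τ : E →+* ℂ, max ‖τ ((1 : 𝓞 E) : E)‖ ‖τ ((t : 𝓞 E) : E)‖ := by
    rw [← Finset.mul_prod_erase _ _ (Finset.mem_univ σ)]
    refine le_mul_of_one_le_right ((zero_le_one).trans (h3 σ)) ?_
    have : (1 : ℝ) = ∏ τ ∈ (Finset.univ.erase σ : Finset (E →+* ℂ)), (1 : ℝ) := by simp
    rw [this]
    exact Finset.prod_le_prod (fun _ _ => zero_le_one) fun τ _ => h3 τ
  rw [← hH] at h4
  exact ((le_max_right _ _).trans h4).trans h.le

theorem abs_nonneg_height (α : ℂ) (hα : IsIntegral ℚ α) : 0 ≤ absLogHeight₁ α := by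
  have : FiniteDimensional ℚ (IntermediateField.adjoin ℚ {α}) :=
    IntermediateField.adjoin.finiteDimensional hα
  have : NumberField (IntermediateField.adjoin ℚ {α}) := {}
  have h := absLogHeight_eq (IntermediateField.adjoin ℚ {α}) ℂ
    (algebraMap (IntermediateField.adjoin ℚ {α}) ℂ) (IntermediateField.AdjoinSimple.gen ℚ α)
  have h1 : algebraMap (IntermediateField.adjoin ℚ {α}) ℂ
    (IntermediateField.AdjoinSimple.gen ℚ α) = α := rfl
  rw [h1] at h
  rw [h]
  exact div_nonneg (Height.zero_le_logHeight₁ _) (Nat.cast_nonneg _)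

theorem finite_small (D : ℕ) : {α : ℂ | IsIntegral ℚ α ∧ (minpoly ℚ α).natDegree ≤ D ∧
    D * absLogHeight₁ α < Real.log 2}.Finite := by
  classical
  obtain ⟨C, hC⟩ : ∃ C : ℕ, ∀ n ≤ D, (2 : ℝ) ^ n * (n.choose (n / 2) : ℝ) ≤ C := by
    refine ⟨4 ^ D, fun n hn => ?_⟩
    have h1 : (n.choose (n / 2) : ℝ) ≤ 2 ^ n := by exact_mod_cast Nat.choose_le_two_pow n (n / 2)
    have h2 : (2 : ℝ) ^ n ≤ 2 ^ D := pow_le_pow_right₀ (by norm_num) hn
    push_cast
    calc (2 : ℝ) ^ n * (n.choose (n / 2) : ℝ) ≤ 2 ^ D * 2 ^ D :=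
          mul_le_mul h2 (h1.trans h2) (by positivity) (by positivity)
      _ = 4 ^ D := by rw [← mul_pow]; norm_num
  have hfin := Polynomial.bUnion_roots_finite (algebraMap ℤ ℂ) D
    (U := (Set.Icc (-(C : ℤ)) C)) (Set.finite_Icc _ _)
  refine hfin.subset ?_
  rintro α ⟨hα, hdeg, hh⟩
  set E := IntermediateField.adjoin ℚ {α} with hE
  have hfd : FiniteDimensional ℚ E := IntermediateField.adjoin.finiteDimensional hα
  have hnf : NumberField E := {}
  let a : E := IntermediateField.AdjoinSimple.gen ℚ α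
  have hrank : Module.finrank ℚ E = (minpoly ℚ α).natDegree := by
    rw [hE, IntermediateField.adjoin.finrank hα]
  have hlog : Real.log (Height.mulHeight₁ a) = Module.finrank ℚ E * absLogHeight₁ α := by
    have h := absLogHeight_eq E ℂ (algebraMap E ℂ) a
    have h1 : algebraMap E ℂ a = α := rfl
    rw [h1] at h
    have hE0 : (Module.finrank ℚ E : ℝ) ≠ 0 := by
      exact_mod_cast (Module.finrank_pos (R := ℚ) (M := E)).ne'
    rw [h, mul_div_cancel₀ _ hE0, Height.logHeight₁_eq_log_mulHeight₁]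
  have hlt : Height.mulHeight₁ a < 2 := by
    rw [← Real.log_lt_log_iff (Height.mulHeight₁_pos a) (by norm_num), hlog, hrank]
    refine lt_of_le_of_lt ?_ hh
    refine mul_le_mul_of_nonneg_right ?_ (abs_nonneg_height α hα)
    exact_mod_cast hdeg
  have hint := int_of_height a hlt
  have hintα : IsIntegral ℤ α := hint.map (algebraMap E ℂ).toIntAlgHom
  have hcoeff := fun i => NumberField.Embeddings.coeff_bdd_of_norm_le (A := ℂ)
    (fun φ : E →+* ℂ => norm_of_height a hlt φ) i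
  have hminE : minpoly ℚ a = minpoly ℚ α := by
    have h6 := minpoly.algebraMap_eq (A := ℚ) (B := E) (B' := ℂ) (algebraMap E ℂ).injective a
    rw [← h6]
    rfl
  have hmin : minpoly ℚ α = (minpoly ℤ α).map (algebraMap ℤ ℚ) :=
    minpoly.isIntegrallyClosed_eq_field_fractions' ℚ hintα
  rw [Set.mem_iUnion₂]
  refine ⟨minpoly ℤ α, ⟨?_, fun i => ?_⟩, ?_⟩
  · rw [hmin, natDegree_map_eq_of_injective (algebraMap ℤ ℚ).injective_int] at hdeg
    exact hdeg
  · have h1 := hcoeff i
    rw [hminE, hmin, coeff_map, max_eq_left (by norm_num : (1 : ℝ) ≤ 2), hrank] at h1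
    have h2 := h1.trans (hC _ hdeg)
    rw [Set.mem_Icc, ← abs_le]
    have h3 : ‖(algebraMap ℤ ℚ) ((minpoly ℤ α).coeff i)‖ = ((|(minpoly ℤ α).coeff i| : ℤ) : ℝ) := by
      rw [eq_intCast, Int.norm_cast_rat, Int.norm_eq_abs, Int.cast_abs]
    rw [h3] at h2
    exact_mod_cast h2
  · rw [Finset.mem_coe, Multiset.mem_toFinset, mem_roots', IsRoot.def, eval_map]
    refine ⟨?_, ?_⟩
    · exact ((minpoly.monic hintα).map _).ne_zero
    · rw [← aeval_def]
      exact minpoly.aeval ℤ α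

theorem north (D : ℕ) : ∃ c : ℝ, 0 < c ∧ ∀ α : ℂ, IsIntegral ℚ α →
    (minpoly ℚ α).natDegree ≤ D → α ≠ 0 → absLogHeight₁ α < c → ∃ n : ℕ, 1 ≤ n ∧ α ^ n = 1 := by
  classical
  have hfin := finite_small D
  set S := hfin.toFinset.filter fun α => 0 < absLogHeight₁ α with hS
  obtain ⟨c, hc, hcS⟩ : ∃ c : ℝ, 0 < c ∧ ∀ α ∈ S, c ≤ absLogHeight₁ α := by
    rcases S.eq_empty_or_nonempty with h | h
    · exact ⟨1, one_pos, fun α hα => by rw [h] at hα; simp at hα⟩
    · obtain ⟨β, hβ, hmin⟩ := S.exists_min_image (fun α => absLogHeight₁ α) h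
      exact ⟨absLogHeight₁ β, (Finset.mem_filter.1 hβ).2, hmin⟩
  have hlog2 := Real.log_pos (show (1 : ℝ) < 2 by norm_num)
  refine ⟨min c (Real.log 2 / (D + 1)), lt_min hc (by positivity), ?_⟩
  intro α hα hdeg hα0 hh
  have h0 := abs_nonneg_height α hα
  have h1 : (D : ℝ) * absLogHeight₁ α < Real.log 2 := by
    have h2 := hh.trans_le (min_le_right _ _)
    rw [lt_div_iff₀ (by positivity)] at h2
    nlinarith
  have hmem : α ∈ hfin.toFinset := hfin.mem_toFinset.2 ⟨hα, hdeg, h1⟩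
  have hz : absLogHeight₁ α = 0 := by
    by_contra hne
    have h2 : α ∈ S := Finset.mem_filter.2 ⟨hmem, lt_of_le_of_ne h0 (Ne.symm hne)⟩
    have h3 := hcS α h2
    have h4 := hh.trans_le (min_le_left _ _)
    linarith
  -- all powers are in the finite set
  have hpow : ∀ n : ℕ, α ^ n ∈ (hfin.toFinset : Set ℂ) := by
    intro n
    rw [Finset.mem_coe, hfin.mem_toFinset]
    refine ⟨hα.pow n, ?_, ?_⟩
    · refine le_trans ?_ hdeg
      have : FiniteDimensional ℚ (IntermediateField.adjoin ℚ {α}) :=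
        IntermediateField.adjoin.finiteDimensional hα
      have h2 : minpoly ℚ ((IntermediateField.AdjoinSimple.gen ℚ α) ^ n) = minpoly ℚ (α ^ n) := by
        have h6 := minpoly.algebraMap_eq (A := ℚ) (B := IntermediateField.adjoin ℚ {α}) (B' := ℂ)
          (algebraMap (IntermediateField.adjoin ℚ {α}) ℂ).injective
          ((IntermediateField.AdjoinSimple.gen ℚ α) ^ n)
        rw [← h6, map_pow]
        rfl
      rw [← h2, ← IntermediateField.adjoin.finrank hα]
      exact minpoly.natDegree_le _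
    · rw [absLogHeight_pow ℂ α hα n, hz, mul_zero, mul_zero]
      exact hlog2
  obtain ⟨i, j, hij, heq⟩ : ∃ i j : ℕ, i < j ∧ α ^ i = α ^ j := by
    by_contra hno
    push Not at hno
    have hinj : Function.Injective fun n : ℕ => α ^ n := by
      intro i j hij
      rcases lt_trichotomy i j with h2 | h2 | h2
      · exact absurd hij (hno i j h2)
      · exact h2
      · exact absurd hij.symm (hno j i h2)
    exact Set.infinite_of_injective_forall_mem hinj hpow (Finset.finite_toSet _)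
  refine ⟨j - i, by omega, ?_⟩
  have h2 : α ^ i * α ^ (j - i) = α ^ i * 1 := by
    rw [← pow_add, mul_one, Nat.add_sub_cancel' hij.le]
    exact heq.symm
  exact mul_left_cancel₀ (pow_ne_zero _ hα0) h2

end Pool.Agent.H69.BD
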