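import Pool.Agent.H69.BD.Core
import Pool.Agent.H69.BD.North
import Pool.Agent.H72.BD.Near

/-!
# THEOREM V (MP_187c26_nt): the theorem over `ℚ(b ^ (1 / m))`, all degrees `≤ d`

Text: induction on `d`. Constants `W` (`near`), `T`, `c_1` (`core`), `N`, `c_2` (`near` for `T`), `c_3` (`north` for the
degree `N (d + 1)`), `c_0` (smaller degrees). `m < N`: `[ℚ(α) : ℚ] ≤ m (d + 1)`, `north`. `m ≥ N`: if `α ^ n` has degree
`≤ d` over `F` for some `n ≤ N`, use the induction hypothesis for `α ^ n`; otherwise `near` and `core`.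
-/

set_option autoImplicit false

open Polynomial NumberField

namespace Pool.Agent.H69.BD

open Pool.Agent.H72.BD

theorem deg_pow_le {F : Type} [Field F] [Algebra F ℂ] (α : ℂ) (hα : IsIntegral F α) (n : ℕ) :
    (minpoly F (α ^ n)).natDegree ≤ (minpoly F α).natDegree := by
  have : FiniteDimensional F (IntermediateField.adjoin F {α}) :=
    IntermediateField.adjoin.finiteDimensional hα
  have h2 : minpoly F ((IntermediateField.AdjoinSimple.gen F α) ^ n) = minpoly F (α ^ n) := by
    have h6 := minpoly.algebraMap_eq (A := F) (B := IntermediateField.adjoin F {α}) (B' := ℂ)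
      (algebraMap (IntermediateField.adjoin F {α}) ℂ).injective
      ((IntermediateField.AdjoinSimple.gen F α) ^ n)
    rw [← h6, map_pow]
    rfl
  rw [← h2, ← IntermediateField.adjoin.finrank hα]
  exact minpoly.natDegree_le _

theorem deg_Q_le {F : Type} [Field F] [NumberField F] [Algebra F ℂ] (α : ℂ) (hα : IsIntegral F α) :
    (minpoly ℚ α).natDegree ≤ Module.finrank ℚ F * (minpoly F α).natDegree := by
  have : FiniteDimensional F (IntermediateField.adjoin F {α}) :=
    IntermediateField.adjoin.finiteDimensional hα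
  have : FiniteDimensional ℚ (IntermediateField.adjoin F {α}) :=
    FiniteDimensional.trans ℚ F (IntermediateField.adjoin F {α})
  have h2 : minpoly ℚ (IntermediateField.AdjoinSimple.gen F α) = minpoly ℚ α := by
    have h6 := minpoly.algebraMap_eq (A := ℚ) (B := IntermediateField.adjoin F {α}) (B' := ℂ)
      (algebraMap (IntermediateField.adjoin F {α}) ℂ).injective
      (IntermediateField.AdjoinSimple.gen F α)
    rw [← h6]
    rfl
  rw [← h2, ← IntermediateField.adjoin.finrank hα, Module.finrank_mul_finrank]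
  exact minpoly.natDegree_le _

theorem mainQ (b : ℕ) (hb : 2 ≤ b) (d : ℕ) : ∃ c : ℝ, 0 < c ∧
    ∀ (m : ℕ) (F : Type) [Field F] [NumberField F] (x : F) (_ : Rad b m F x) [Algebra F ℂ] (α : ℂ),
      IsIntegral ℚ α → α ≠ 0 → (minpoly F α).natDegree ≤ d →
      ((zx x).relIndex (ints F) : ℝ) ≤ Real.exp (c * m) → absLogHeight₁ α < c →
      ∃ n r s : ℕ, 1 ≤ n ∧ α ^ n * (b : ℂ) ^ s = (b : ℂ) ^ r := by
  induction d with
  | zero =>
    refine ⟨1, one_pos, ?_⟩
    intro m F _ _ x _ _ α hα _ hd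
    exfalso
    have h1 : IsIntegral F α := hα.tower_top
    have := minpoly.natDegree_pos h1
    omega
  | succ d ih =>
    obtain ⟨c₀, hc₀, h₀⟩ := ih
    obtain ⟨W, hW, hnear⟩ := near b (d + 1) hb (by omega)
    obtain ⟨T, c₁, hc₁, hcore⟩ := core b (d + 1) W hb (by omega) hW
    obtain ⟨N, c₂, hN, hc₂, hn⟩ := hnear T
    obtain ⟨c₃, hc₃, h₃⟩ := north (N * (d + 1))
    have hNpos : (0 : ℝ) < N := by exact_mod_cast hN
    obtain ⟨c, hc, l0, l1, l2, l3, l4⟩ : ∃ c : ℝ, 0 < c ∧ N * c ≤ c₀ ∧ N * c ≤ c₁ ∧ c ≤ c₂ ∧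
        c ≤ c₃ ∧ c ≤ c₀ := by
      refine ⟨min (min (c₀ / N) (c₁ / N)) (min (min c₂ c₃) c₀), ?_, ?_, ?_, ?_, ?_, ?_⟩
      · positivity
      · have := (min_le_left (min (c₀ / N) (c₁ / N)) (min (min c₂ c₃) c₀)).trans (min_le_left _ _)
        rw [le_div_iff₀ hNpos] at this
        linarith
      · have := (min_le_left (min (c₀ / N) (c₁ / N)) (min (min c₂ c₃) c₀)).trans (min_le_right _ _)
        rw [le_div_iff₀ hNpos] at this
        linarith
      · exact (min_le_right _ _).trans ((min_le_left _ _).trans (min_le_left _ _))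
      · exact (min_le_right _ _).trans ((min_le_left _ _).trans (min_le_right _ _))
      · exact (min_le_right _ _).trans (min_le_right _ _)
    refine ⟨c, hc, ?_⟩
    intro m F _ _ x h _ α hα hα0 hd hidx hh
    have hm : 1 ≤ m := h.one_le
    have hmpos : (0 : ℝ) < m := by exact_mod_cast hm
    have hF : IsIntegral F α := hα.tower_top
    have hh0 := abs_nonneg_height α hα
    have hpowh : ∀ n : ℕ, 1 ≤ n → n ≤ N → absLogHeight₁ (α ^ n) ≤ N * absLogHeight₁ α := by
      intro n _ hnN
      rw [Pool.Agent.H4.RR.absLogHeight_pow ℂ α hα n]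
      exact mul_le_mul_of_nonneg_right (by exact_mod_cast hnN) hh0
    rcases Nat.lt_or_ge m N with hmN | hmN
    · -- small `m`
      have h1 : (minpoly ℚ α).natDegree ≤ N * (d + 1) := by
        refine (deg_Q_le (F := F) α hF).trans ?_
        rw [h.deg]
        exact Nat.mul_le_mul hmN.le hd
      obtain ⟨n, hn1, hn2⟩ := h₃ α hα h1 hα0 (hh.trans_le l3)
      exact ⟨n, 0, 0, hn1, by rw [hn2, pow_zero, mul_one]⟩
    · by_cases hall : ∀ n, 1 ≤ n → n ≤ N → (minpoly F (α ^ n)).natDegree = d + 1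
      · have : NeZero m := ⟨by omega⟩
        obtain ⟨n, R, ℓ, gap, a, v, hn1, hnN, hR, hrep, hℓ, hWa, hsize⟩ :=
          hn m F x h ℂ α hα hmN hall (hh.le.trans l2)
            (hidx.trans (Real.exp_le_exp.2 (mul_le_mul_of_nonneg_right l2 hmpos.le)))
        obtain ⟨n', r, s, hn', hfin⟩ := hcore m F x h (α ^ n) (hα.pow n) (pow_ne_zero _ hα0)
          (hall n hn1 hnN)
          ((hpowh n hn1 hnN).trans ((mul_le_mul_of_nonneg_left hh.le hNpos.le).trans l1))
          R ℓ gap a v hR hrep hℓ hWa hsize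
        refine ⟨n * n', r, s, Nat.mul_pos hn1 hn', ?_⟩
        rw [pow_mul]
        exact hfin
      · push Not at hall
        obtain ⟨n, hn1, hnN, hne⟩ := hall
        have h1 := deg_pow_le (F := F) α hF n
        have h2 : absLogHeight₁ (α ^ n) < c₀ :=
          (hpowh n hn1 hnN).trans_lt ((mul_lt_mul_of_pos_left hh hNpos).trans_le l0)
        obtain ⟨n', r, s, hn', hfin⟩ := h₀ m F x h (α ^ n) (hα.pow n) (pow_ne_zero _ hα0)
          (by omega) (hidx.trans (Real.exp_le_exp.2 (mul_le_mul_of_nonneg_right l4 hmpos.le))) h2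
        refine ⟨n * n', r, s, Nat.mul_pos hn1 hn', ?_⟩
        rw [pow_mul]
        exact hfin

end Pool.Agent.H69.BD
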