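import Mathlib

/-!
# THEOREM V (MP_187c26_nt), chapter S7: pseudo-division and transfer

Text: a polynomial `Φ(X,Z)` over a field `k` of degree at most `d` in `Z`, coefficients of degree at most
`l` in `X`. `S(X,Z)` of degree `< d + e` in `Z`, coefficients of degree at most `s`.
`pdiv`: induction on `e` (for all `S`, `s`). Step: `c := S.coeff (d + e)`,
`S₁ := C (Φ.coeff d) * S - C c * X ^ e * Φ` has degree `< d + e` and coefficients of degree `≤ s + l`.
`transfer`: the remainder `B` has degree `< d`, `eval₂ f a B = 0` for the `d` different elements `a` of `T`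
(`eval₂ f a` is a ring homomorphism), so `B.map f = 0` (a nonzero polynomial of degree `< d` over a domain
has less than `d` roots), so `f (B.coeff n) = 0` and `B.coeff n = 0`.
-/

set_option autoImplicit false

open Polynomial

namespace Pool.Agent.H69.BD

theorem pdiv {k : Type} [Field k] (Φ : k[X][X]) (d l : ℕ) (hd : 1 ≤ d) (hΦ : Φ.natDegree ≤ d)
    (hl : ∀ n, (Φ.coeff n).natDegree ≤ l) (e : ℕ) : ∀ (S : k[X][X]) (s : ℕ),
    S.natDegree < d + e → (∀ n, (S.coeff n).natDegree ≤ s) →
    ∃ A B : k[X][X], C (Φ.coeff d) ^ e * S = A * Φ + B ∧ B.natDegree < d ∧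
      ∀ n, (B.coeff n).natDegree ≤ s + e * l := by
  induction e with
  | zero =>
    intro S s hS hs
    exact ⟨0, S, by simp, by simpa using hS, by simpa using hs⟩
  | succ e ih =>
    intro S s hS hs
    set c : k[X] := S.coeff (d + e) with hc
    set S₁ : k[X][X] := C (Φ.coeff d) * S - C c * X ^ e * Φ with hS₁
    have hcoeff : ∀ n, S₁.coeff n = Φ.coeff d * S.coeff n -
        c * (if e ≤ n then Φ.coeff (n - e) else 0) := by
      intro n
      rw [hS₁, coeff_sub, coeff_C_mul, mul_assoc, coeff_C_mul, coeff_X_pow_mul']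
    have hdeg : S₁.natDegree < d + e := by
      have h0 : S₁.natDegree ≤ d + e - 1 := by
        rw [natDegree_le_iff_coeff_eq_zero]
        intro n hn
        rw [hcoeff, if_pos (by omega)]
        rcases Nat.lt_or_ge (d + e) n with h | h
        · rw [coeff_eq_zero_of_natDegree_lt (by omega : S.natDegree < n),
            coeff_eq_zero_of_natDegree_lt (by omega : Φ.natDegree < n - e), mul_zero, mul_zero,
            sub_zero]
        · have : n = d + e := by omega
          subst this
          rw [Nat.add_sub_cancel]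
          rw [hc]
          ring
      omega
    have hdeg1 : ∀ n, (S₁.coeff n).natDegree ≤ s + l := by
      intro n
      rw [hcoeff]
      refine (natDegree_sub_le _ _).trans (max_le ?_ ?_)
      · exact natDegree_mul_le.trans (by have := hs n; have := hl d; omega)
      · refine natDegree_mul_le.trans ?_
        have h1 := hs (d + e)
        rw [← hc] at h1
        split_ifs
        · have := hl (n - e)
          omega
        · rw [natDegree_zero]
          omega
    obtain ⟨A, B, h1, h2, h3⟩ := ih S₁ (s + l) hdeg hdeg1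
    refine ⟨A + C (Φ.coeff d) ^ e * C c * X ^ e, B, ?_, h2, fun n => (h3 n).trans (by
      rw [Nat.succ_mul]; omega)⟩
    have : C (Φ.coeff d) ^ e * S₁ = A * Φ + B := h1
    rw [hS₁] at this
    linear_combination this

theorem transfer {k Ω : Type} [Field k] [CommRing Ω] [IsDomain Ω] (f : k[X] →+* Ω) (Φ S : k[X][X])
    (d e l s : ℕ) (hd : 1 ≤ d) (hΦ : Φ.natDegree ≤ d) (hl : ∀ n, (Φ.coeff n).natDegree ≤ l)
    (hS : S.natDegree < d + e) (hs : ∀ n, (S.coeff n).natDegree ≤ s)
    (hf : ∀ p : k[X], p.natDegree ≤ s + e * l → f p = 0 → p = 0)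
    (T : Finset Ω) (hT : d ≤ T.card) (hΦ0 : ∀ a ∈ T, eval₂ f a Φ = 0)
    (hS0 : ∀ a ∈ T, eval₂ f a S = 0) :
    ∃ A : k[X][X], C (Φ.coeff d) ^ e * S = A * Φ := by
  classical
  obtain ⟨A, B, h1, h2, h3⟩ := pdiv Φ d l hd hΦ hl e S s hS hs
  have hB : B = 0 := by
    have hBf : B.map f = 0 := by
      by_contra hne
      have hlt : (B.map f).natDegree < d := lt_of_le_of_lt natDegree_map_le h2
      have hroots : ∀ a ∈ T, a ∈ (B.map f).roots := by
        intro a ha
        rw [mem_roots hne, IsRoot.def, eval_map]
        have h4 := congrArg (eval₂ f a) h1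
        rw [eval₂_mul, eval₂_add, eval₂_mul, hΦ0 a ha, hS0 a ha, mul_zero, mul_zero, zero_add] at h4
        exact h4.symm
      have h5 : T.card ≤ (B.map f).roots.toFinset.card :=
        Finset.card_le_card (fun a ha => Multiset.mem_toFinset.2 (hroots a ha))
      have h6 := Multiset.toFinset_card_le (B.map f).roots
      have h7 := card_roots' (B.map f)
      omega
    ext1 n
    rw [coeff_zero]
    refine hf _ (h3 n) ?_
    rw [← coeff_map, hBf, coeff_zero]
  exact ⟨A, by rw [h1, hB, add_zero]⟩

end Pool.Agent.H69.BD
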