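import Mathlib

/-!
# THEOREM V (MP_187c26_nt), chapter S7: the homomorphism `X ↦ ε exp u`

Text: `psi ε : ℂ[X] → ℂ⟦u⟧`, `X ↦ ε exp(u)`. `exp_indep`: distinct exponentials `exp(λu)` are linearly
independent (coefficients: `∑ c_λ λ^n = 0` for all `n`, so `∑ c_λ P(λ) = 0` for all polynomials `P`; take
`P = ∏ (X - μ)` over `μ ≠ λ`). `psi_injective`: `psi ε p = ∑ p_j ε^j exp(ju)`.
-/

set_option autoImplicit false

open Polynomial

namespace Pool.Agent.H69.BD

/-- The series `exp (lam u)`. -/
noncomputable def ex (lam : ℂ) : PowerSeries ℂ := PowerSeries.rescale lam (PowerSeries.exp ℂ)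

theorem ex_coeff (lam : ℂ) (n : ℕ) :
    PowerSeries.coeff n (ex lam) = lam ^ n * ((n.factorial : ℂ))⁻¹ := by
  rw [ex, PowerSeries.coeff_rescale, PowerSeries.coeff_exp]
  simp

theorem ex_mul (a b : ℂ) : ex a * ex b = ex (a + b) := PowerSeries.exp_mul_exp_eq_exp_add a b

theorem ex_zero : ex 0 = 1 := by
  rw [ex, PowerSeries.rescale_zero_apply, PowerSeries.constantCoeff_exp, map_one]

theorem ex_pow (a : ℂ) (n : ℕ) : ex a ^ n = ex (n * a) := by
  induction n with
  | zero => rw [pow_zero, Nat.cast_zero, zero_mul, ex_zero]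
  | succ n ih =>
    rw [pow_succ, ih, ex_mul]
    congr 1
    push_cast
    ring

theorem ex_rescale (a q : ℂ) : PowerSeries.rescale q (ex a) = ex (q * a) := by
  rw [ex, ex, PowerSeries.rescale_rescale, mul_comm]

theorem ex_ne_zero (a : ℂ) : ex a ≠ 0 := by
  intro h
  have h1 := ex_mul a (-a)
  rw [h, zero_mul, add_neg_cancel, ex_zero] at h1
  exact zero_ne_one h1

theorem exp_indep (s : Finset ℂ) (c : ℂ → ℂ)
    (h : ∑ lam ∈ s, PowerSeries.C (c lam) * ex lam = 0) : ∀ lam ∈ s, c lam = 0 := by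
  classical
  have hn : ∀ n : ℕ, ∑ lam ∈ s, c lam * lam ^ n = 0 := by
    intro n
    have h1 := congrArg (PowerSeries.coeff n) h
    rw [map_sum, map_zero] at h1
    have h2 : ∀ lam ∈ s, PowerSeries.coeff n (PowerSeries.C (c lam) * ex lam) =
        (c lam * lam ^ n) * ((n.factorial : ℂ))⁻¹ := by
      intro lam _
      rw [PowerSeries.coeff_C_mul, ex_coeff]
      ring
    rw [Finset.sum_congr rfl h2, ← Finset.sum_mul] at h1
    rcases mul_eq_zero.1 h1 with h3 | h3
    · exact h3
    · exact absurd h3 (inv_ne_zero (Nat.cast_ne_zero.2 n.factorial_ne_zero))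
  have hP : ∀ P : ℂ[X], ∑ lam ∈ s, c lam * P.eval lam = 0 := by
    intro P
    have h1 : ∀ lam ∈ s, c lam * P.eval lam =
        ∑ n ∈ Finset.range (P.natDegree + 1), P.coeff n * (c lam * lam ^ n) := by
      intro lam _
      rw [eval_eq_sum_range, Finset.mul_sum]
      exact Finset.sum_congr rfl fun n _ => by ring
    rw [Finset.sum_congr rfl h1, Finset.sum_comm]
    refine Finset.sum_eq_zero fun n _ => ?_
    rw [← Finset.mul_sum, hn, mul_zero]
  intro lam hlam
  have h1 := hP (∏ μ ∈ s.erase lam, (X - C μ))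
  rw [Finset.sum_eq_single lam] at h1
  · rcases mul_eq_zero.1 h1 with h2 | h2
    · exact h2
    · rw [eval_prod, Finset.prod_eq_zero_iff] at h2
      obtain ⟨μ, hμ, h3⟩ := h2
      rw [eval_sub, eval_X, eval_C, sub_eq_zero] at h3
      exact absurd h3.symm (Finset.ne_of_mem_erase hμ)
  · intro μ hμ hne
    rw [eval_prod, Finset.prod_eq_zero (Finset.mem_erase.2 ⟨hne, hμ⟩), mul_zero]
    rw [eval_sub, eval_X, eval_C, sub_self]
  · intro h2
    exact absurd hlam h2

/-- `X ↦ ε exp u`. -/
noncomputable def psi (ε : ℂ) : ℂ[X] →+* PowerSeries ℂ :=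
  eval₂RingHom (PowerSeries.C (R := ℂ)) (PowerSeries.C ε * ex 1)

theorem psi_C (ε a : ℂ) : psi ε (C a) = PowerSeries.C a := by
  simp [psi]

theorem psi_X (ε : ℂ) : psi ε X = PowerSeries.C ε * ex 1 := by
  simp [psi]

theorem psi_apply (ε : ℂ) (p : ℂ[X]) : psi ε p =
    ∑ j ∈ Finset.range (p.natDegree + 1), PowerSeries.C (p.coeff j * ε ^ j) * ex j := by
  rw [psi, coe_eval₂RingHom, eval₂_eq_sum_range]
  refine Finset.sum_congr rfl fun j _ => ?_
  rw [mul_pow, ex_pow, mul_one, map_mul, map_pow, mul_assoc]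

theorem constantCoeff_ex (a : ℂ) : PowerSeries.constantCoeff (ex a) = 1 := by
  rw [← PowerSeries.coeff_zero_eq_constantCoeff_apply, ex_coeff]
  simp

theorem constantCoeff_psi (ε : ℂ) (p : ℂ[X]) :
    PowerSeries.constantCoeff (psi ε p) = p.eval ε := by
  rw [psi_apply, map_sum, eval_eq_sum_range]
  refine Finset.sum_congr rfl fun j _ => ?_
  rw [map_mul, constantCoeff_ex, mul_one, PowerSeries.constantCoeff_C]

theorem psi_injective (ε : ℂ) (hε : ε ≠ 0) : Function.Injective (psi ε) := by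
  classical
  rw [injective_iff_map_eq_zero]
  intro p hp
  rw [psi_apply] at hp
  set s : Finset ℂ := (Finset.range (p.natDegree + 1)).image (fun j : ℕ => (j : ℂ)) with hs
  have hinj : Set.InjOn (fun j : ℕ => (j : ℂ)) (Finset.range (p.natDegree + 1)) :=
    fun a _ b _ h => Nat.cast_injective h
  ext j
  rw [coeff_zero]
  by_contra hne
  have hj : j ∈ Finset.range (p.natDegree + 1) := by
    rw [Finset.mem_range]
    have := le_natDegree_of_ne_zero hne
    omega
  have h := exp_indep s (fun lam => ∑ j ∈ Finset.range (p.natDegree + 1),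
    if (j : ℂ) = lam then p.coeff j * ε ^ j else 0) (by
      rw [hs, Finset.sum_image hinj, ← hp]
      refine Finset.sum_congr rfl fun i hi => ?_
      congr 2
      rw [Finset.sum_eq_single i]
      · rw [if_pos rfl]
      · intro b _ hb
        rw [if_neg (fun h => hb (Nat.cast_injective h))]
      · intro h
        exact absurd hi h) (j : ℂ) (Finset.mem_image_of_mem _ hj)
  rw [Finset.sum_eq_single j, if_pos rfl] at h
  · exact (mul_ne_zero hne (pow_ne_zero _ hε)) h
  · intro b _ hb
    rw [if_neg (fun h => hb (Nat.cast_injective h))]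
  · intro h
    exact absurd hj h

theorem rescale_C (q a : ℂ) : PowerSeries.rescale q (PowerSeries.C a) = PowerSeries.C a := by
  ext n
  rw [PowerSeries.coeff_rescale, PowerSeries.coeff_C]
  split_ifs with hn
  · subst hn; simp
  · simp

/-- `psi` and the Frobenius `X ↦ X ^ Q`. -/
theorem psi_pow (ε : ℂ) (Q : ℕ) (p : ℂ[X]) :
    psi ε (expand ℂ Q p) = PowerSeries.rescale (Q : ℂ) (psi (ε ^ Q) p) := by
  have h : (psi ε).comp (expand ℂ Q : ℂ[X] →+* ℂ[X]) =
      (PowerSeries.rescale (Q : ℂ)).comp (psi (ε ^ Q)) := by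
    apply Polynomial.ringHom_ext
    · intro a
      simp only [RingHom.comp_apply, RingHom.coe_coe, expand_C, psi_C]
      rw [rescale_C]
    · simp only [RingHom.comp_apply, RingHom.coe_coe, expand_X, psi_X, map_pow, map_mul]
      rw [mul_pow, ex_pow, ex_rescale, mul_one, rescale_C]
  exact congrArg (fun g => g p) h

end Pool.Agent.H69.BD
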