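import Pool.Agent.H69.BD.Bnd
import Pool.Agent.H69.BD.Cng
import Pool.Agent.H69.BD.Deg

/-!
# THEOREM V (MP_187c26_nt), chapter S6: the Frobenius step after the base change

Text: `F' = F(y)`, `y ^ W = x`, `β = y ^ m`, `u_i = ∑ β ^ k_j y ^ p_j v_ij(x) = y ^ E g c_i`,
`u'_i = ∑ β ^ k_j y ^ (Q p_j) v_ij(x ^ Q)`. `∑ u_i α ^ i = 0`. By `six_cong`, `u'_i = u_i ^ Q + q w_i` with integral
`w_i`. If `∑ u'_i α ^ (Q i) ≠ 0`, then by `cl` and `six_bound`, `q ^ (m e) ≤ (2 K1) ^ (m e)`-like bound, `e = [F' : F]`: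
`q ^ (m e) ≤ exp (m e Q d h) (∏_φ b (d + 1) (R0 + 1) √wt) ^ e ≤ (2 ^ m (b (d + 1) (R0 + 1)) ^ m (2 4 ^ d b) ^ m) ^ e
= K1 ^ (m e) < q ^ (m e)`.
-/

set_option autoImplicit false

open Polynomial NumberField

namespace Pool.Agent.H69.BD

open Pool.Agent.H72.BD

theorem map_aeval_int {A B : Type} [CommRing A] [CommRing B] (φ : A →+* B) (z : A) (P : ℤ[X]) :
    φ (aeval z P) = aeval (φ z) P := by
  rw [aeval_def, aeval_def, hom_eval₂]
  congr 1
  exact RingHom.ext_int _ _

theorem six {b m d R W E q f : ℕ} {F : Type} [Field F] [NumberField F] {x : F} [Algebra F ℂ]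
    (h : Rad b m F x) (hW : 1 ≤ W) (y : ℂ) (hy : y ^ W = algebraMap F ℂ x) (α : ℂ)
    (hα : IsIntegral ℚ α) (c : Fin (d + 1) → F)
    (hc : ∑ i, algebraMap F ℂ (c i) * α ^ (i : ℕ) = 0) {ℓ gap : ℕ} (a k p : Fin (R + 1) → ℕ)
    (v : Fin (d + 1) → Fin (R + 1) → ℤ[X]) (hr : Rep m x c ℓ gap a v) (hR : R ≤ R0 d)
    (hka : ∀ j, W * a j + E = k j * m + p j) (hpE : ∀ j, p j ≤ 2 * E)
    (hE : 2 * q ^ f * E + E ≤ W * m) (hq : q.Prime) (hqb : ¬ q ∣ b)
    (hQ : W * (q - 1) ∣ q ^ f - 1) (hqK : K1 b d < q)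
    (hsize : ∏ φ : F →+* ℂ, wt b m a v (φ x ^ (q ^ f)) ≤ (Cc b d : ℝ) ^ m)
    (hh : (q : ℝ) ^ f * d * absLogHeight₁ α ≤ Real.log 2) :
    ∑ i : Fin (d + 1), (∑ j, (y ^ m) ^ k j * (y ^ (q ^ f * p j) *
      aeval ((algebraMap F ℂ x) ^ (q ^ f)) (v i j))) * (α ^ (q ^ f)) ^ (i : ℕ) = 0 := by
  classical
  by_contra hne
  have hm : 1 ≤ m := h.one_le
  have hb1 : 1 ≤ b := by have := h.two; omega
  have hyb : y ^ (W * m) = b := by
    rw [pow_mul, hy, ← map_pow, h.pow, map_natCast]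
  have hinty : IsIntegral ℤ y := by
    refine IsIntegral.of_pow (Nat.mul_pos hW hm) ?_
    rw [hyb]
    have h1 : (b : ℂ) = algebraMap ℤ ℂ (b : ℤ) := by simp
    rw [h1]
    exact isIntegral_algebraMap
  have hintQ : IsIntegral ℚ y := hinty.tower_top
  have hintF : IsIntegral F y := hintQ.tower_top
  set F' := IntermediateField.adjoin F {y} with hF'
  have hfd : FiniteDimensional F F' := IntermediateField.adjoin.finiteDimensional hintF
  have hfdQ : FiniteDimensional ℚ F' := FiniteDimensional.trans ℚ F F'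
  have hnf : NumberField F' := {}
  let y' : F' := IntermediateField.AdjoinSimple.gen F y
  have hy' : ((y' : F') : ℂ) = y := rfl
  have hinty' : IsIntegral ℤ y' := by
    refine (isIntegral_algebraMap_iff (B := ℂ) (algebraMap F' ℂ).injective).1 ?_
    exact hinty
  let yA : 𝓞 F' := ⟨y', hinty'⟩
  have hyA : ((yA : 𝓞 F') : F') = y' := rfl
  have hxy : y' ^ W = algebraMap F F' x := by
    apply (algebraMap F' ℂ).injective
    rw [map_pow, ← IsScalarTower.algebraMap_apply]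
    exact hy
  let κ : 𝓞 F' →+* F' := algebraMap (𝓞 F') F'
  have hκ : Function.Injective κ := FaithfulSMul.algebraMap_injective _ _
  have hκy : κ yA = y' := rfl
  have hbA : (yA ^ m) ^ W = (b : 𝓞 F') := by
    apply hκ
    rw [map_pow, map_pow, hκy, map_natCast, ← pow_mul, mul_comm, pow_mul, hxy, ← map_pow, h.pow,
      map_natCast]
  choose w hw using fun i => six_cong (A := 𝓞 F') b W q f hq hqb hQ (yA ^ m) yA (yA ^ W) hbA k p
    (v i)
  set u : Fin (d + 1) → F' := fun i => ∑ j, (y' ^ m) ^ k j * (y' ^ p j *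
    aeval (y' ^ W) (v i j)) with hu
  set u' : Fin (d + 1) → F' := fun i => ∑ j, (y' ^ m) ^ k j * (y' ^ (q ^ f * p j) *
    aeval ((y' ^ W) ^ (q ^ f)) (v i j)) with hu'
  set uA : Fin (d + 1) → 𝓞 F' := fun i => ∑ j, (yA ^ m) ^ k j * (yA ^ p j *
    aeval (yA ^ W) (v i j)) with huA
  set uA' : Fin (d + 1) → 𝓞 F' := fun i => ∑ j, (yA ^ m) ^ k j * (yA ^ (q ^ f * p j) *
    aeval ((yA ^ W) ^ (q ^ f)) (v i j)) with huA'
  have huAe : ∀ i, κ (uA i) = u i := by
    intro i
    simp only [huA, hu]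
    rw [map_sum]
    refine Finset.sum_congr rfl fun j _ => ?_
    rw [map_mul, map_mul, map_aeval_int, map_pow, map_pow, map_pow, map_pow, hκy]
  have huAe' : ∀ i, κ (uA' i) = u' i := by
    intro i
    simp only [huA', hu']
    rw [map_sum]
    refine Finset.sum_congr rfl fun j _ => ?_
    rw [map_mul, map_mul, map_aeval_int, map_pow, map_pow, map_pow, map_pow, map_pow, hκy]
  have hrel : ∀ i, u' i = ((1 : ℤ) : F') * u i ^ (q ^ f) + q * κ (w i) := by
    intro i
    rw [← huAe, ← huAe']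
    have h1 := congrArg κ (hw i)
    rw [map_add, map_pow, map_mul, map_natCast] at h1
    rw [Int.cast_one, one_mul]
    exact h1
  have hueq : ∀ i, u i = y' ^ E * algebraMap F F' (aeval x (v (Fin.last d) 0) * c i) := by
    intro i
    rw [hr.eq i, map_sum, Finset.mul_sum, hu]
    refine Finset.sum_congr rfl fun j _ => ?_
    rw [map_mul, map_pow, ← hxy, ← aeval_algebraMap_apply, ← hxy, ← pow_mul, ← pow_mul,
      ← mul_assoc, ← mul_assoc, ← pow_add, ← pow_add]
    congr 2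
    have := hka j
    rw [mul_comm m (k j)]
    omega
  have h0 : ∑ i, algebraMap F' ℂ (u i) * α ^ (i : ℕ) = 0 := by
    have h1 : ∀ i : Fin (d + 1), algebraMap F' ℂ (u i) * α ^ (i : ℕ) =
        (y ^ E * algebraMap F ℂ (aeval x (v (Fin.last d) 0))) *
          (algebraMap F ℂ (c i) * α ^ (i : ℕ)) := by
      intro i
      rw [hueq, map_mul, map_pow, ← IsScalarTower.algebraMap_apply, map_mul (algebraMap F ℂ)]
      have h2 : algebraMap F' ℂ y' = y := rfl
      rw [h2]
      ring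
    rw [Finset.sum_congr rfl fun i _ => h1 i, ← Finset.mul_sum, hc, mul_zero]
  have hne' : ∑ i, algebraMap F' ℂ (u' i) * α ^ (q ^ f * (i : ℕ)) ≠ 0 := by
    intro h1
    apply hne
    rw [← h1]
    refine Finset.sum_congr rfl fun i _ => ?_
    rw [pow_mul, hu']
    congr 1
    rw [map_sum]
    refine Finset.sum_congr rfl fun j _ => ?_
    have h2 : algebraMap F' ℂ y' = y := rfl
    rw [map_mul, map_mul, map_pow, map_pow, map_pow, ← aeval_algebraMap_apply, map_pow, map_pow,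
      h2, hy]
  have hcl := cl (F := F') (Ω := ℂ) α hα d q f hq u u' (fun i => κ (w i)) 1
    (fun i => by rw [← huAe]; exact RingOfIntegers.isIntegral_coe _)
    (fun i => by rw [← huAe']; exact RingOfIntegers.isIntegral_coe _)
    (fun i => RingOfIntegers.isIntegral_coe _) hrel h0 hne'
  set e := Module.finrank F F' with he
  have hepos : e ≠ 0 := (Module.finrank_pos (R := F) (M := F')).ne'
  have hdeg : Module.finrank ℚ F' = m * e := by
    rw [← h.deg, he, Module.finrank_mul_finrank]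
  set g : (F →+* ℂ) → ℝ := fun φ =>
    b * (d + 1) * (R0 d + 1) * √(wt b m a v (φ x ^ (q ^ f))) with hg
  have hprod : ∏ φ : F' →+* ℂ, ∑ i, ‖φ (u' i)‖ ≤ ∏ φ : F' →+* ℂ, g (φ.comp (algebraMap F F')) := by
    refine Finset.prod_le_prod (fun φ _ => Finset.sum_nonneg fun i _ => norm_nonneg _) fun φ _ => ?_
    have hz : (φ y') ^ (W * m) = b := by
      rw [← map_pow, pow_mul, hxy, ← map_pow, h.pow, map_natCast, map_natCast]
    have h1 := six_bound b m W d R E (q ^ f) hb1 hm hW a k p v (φ y') hz hka hpE hE hR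
    have h2 : (φ y') ^ W = φ (algebraMap F F' x) := by rw [← hxy, map_pow]
    rw [hg]
    simp only [RingHom.comp_apply]
    rw [← h2]
    refine le_trans (le_of_eq ?_) h1
    refine Finset.sum_congr rfl fun i _ => ?_
    congr 1
    rw [hu', map_sum]
    refine Finset.sum_congr rfl fun j _ => ?_
    rw [map_mul, map_mul, map_pow, map_pow, map_pow]
    congr 2
    rw [map_aeval_int, map_pow, map_pow]
  have hprod2 : ∏ φ : F' →+* ℂ, g (φ.comp (algebraMap F F')) = (∏ φ : F →+* ℂ, g φ) ^ e :=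
    Pool.Agent.H4.RR.prod_comp_embeddings F F' g
  have hcard : Fintype.card (F →+* ℂ) = m := by
    rw [NumberField.Embeddings.card, h.deg]
  have hprod3 : ∏ φ : F →+* ℂ, g φ ≤
      ((b * (d + 1) * (R0 d + 1) : ℝ) * (2 * 4 ^ d * b)) ^ m := by
    rw [hg, Finset.prod_mul_distrib, Finset.prod_const, Finset.card_univ, hcard,
      mul_pow (b * (d + 1) * (R0 d + 1) : ℝ) (2 * 4 ^ d * b) m]
    refine mul_le_mul_of_nonneg_left ?_ (by positivity)
    have h1 : (∏ φ : F →+* ℂ, √(wt b m a v (φ x ^ (q ^ f)))) =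
        √(∏ φ : F →+* ℂ, wt b m a v (φ x ^ (q ^ f))) := by
      rw [Real.sqrt_eq_rpow, ← Real.finsetProd_rpow]
      · refine Finset.prod_congr rfl fun φ _ => ?_
        rw [Real.sqrt_eq_rpow]
      · intro φ _
        rw [wt]
        refine Finset.sum_nonneg fun i _ => Finset.sum_nonneg fun j _ => ?_
        have : (0 : ℝ) ≤ rho b m := Real.rpow_nonneg (Nat.cast_nonneg b) _
        positivity
    rw [h1]
    refine (Real.sqrt_le_sqrt hsize).trans (le_of_eq ?_)
    have h2 : (Cc b d : ℝ) ^ m = ((2 * 4 ^ d * b : ℝ) ^ m) ^ 2 := by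
      rw [Cc]
      push_cast
      rw [← pow_mul, mul_comm m 2, pow_mul]
      congr 1
      ring
    rw [h2, Real.sqrt_sq (by positivity)]
  have hK1 : ((b * (d + 1) * (R0 d + 1) : ℝ) * (2 * 4 ^ d * b)) * 2 = K1 b d := by
    rw [K1]
    push_cast
    ring
  have hexp : Real.exp (((m * e : ℕ) : ℝ) * (q : ℝ) ^ f * d * absLogHeight₁ α) ≤
      (2 ^ m) ^ e := by
    rw [← pow_mul]
    calc Real.exp (((m * e : ℕ) : ℝ) * (q : ℝ) ^ f * d * absLogHeight₁ α)
        = Real.exp (((m * e : ℕ) : ℝ) * ((q : ℝ) ^ f * d * absLogHeight₁ α)) := by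
          congr 1; ring
      _ = (Real.exp ((q : ℝ) ^ f * d * absLogHeight₁ α)) ^ (m * e) := by rw [Real.exp_nat_mul]
      _ ≤ 2 ^ (m * e) := by
          refine pow_le_pow_left₀ (Real.exp_pos _).le ?_ _
          rw [← Real.exp_log (show (0 : ℝ) < 2 by norm_num)]
          exact Real.exp_le_exp.2 hh
  rw [hdeg] at hcl
  have hfin : (q : ℝ) ^ (m * e) ≤ (K1 b d : ℝ) ^ (m * e) := by
    calc (q : ℝ) ^ (m * e) ≤ _ := hcl
      _ ≤ (2 ^ m) ^ e * (∏ φ : F →+* ℂ, g φ) ^ e := by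
          refine mul_le_mul hexp (hprod.trans (le_of_eq hprod2)) ?_ (by positivity)
          exact Finset.prod_nonneg fun φ _ => Finset.sum_nonneg fun i _ => norm_nonneg _
      _ ≤ (2 ^ m) ^ e * (((b * (d + 1) * (R0 d + 1) : ℝ) * (2 * 4 ^ d * b)) ^ m) ^ e := by
          refine mul_le_mul_of_nonneg_left (pow_le_pow_left₀ ?_ hprod3 _) (by positivity)
          exact Finset.prod_nonneg fun φ _ => by
            simp only [hg]
            positivity
      _ = (K1 b d : ℝ) ^ (m * e) := by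
          rw [← hK1, ← mul_pow, ← mul_pow, ← pow_mul]
          congr 1
          ring
  have hlt : (K1 b d : ℝ) ^ (m * e) < (q : ℝ) ^ (m * e) := by
    refine pow_lt_pow_left₀ (by exact_mod_cast hqK) (Nat.cast_nonneg _) ?_
    exact (Nat.mul_pos hm (Nat.pos_of_ne_zero hepos)).ne'
  linarith

end Pool.Agent.H69.BD
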